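import Mathlib

namespace Pool.Agent.Lib.MP_21a4ea_an

open MeasureTheory Real Finset
open scoped ComplexConjugate

noncomputable section

instance factTwoPi : Fact (0 < 2 * π) := ⟨Real.two_pi_pos⟩

abbrev T : Type := AddCircle (2 * π)
abbrev TT : Type := T × T
abbrev m1 : Measure T := AddCircle.haarAddCircle
abbrev m2 : Measure TT := m1.prod m1
abbrev CT : Type := C(TT, ℂ)

lemma cint1 {E : Type*} [NormedAddCommGroup E] {f : T → E} (hf : Continuous f) :
    Integrable f m1 :=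
  hf.integrable_of_hasCompactSupport (HasCompactSupport.of_compactSpace _)

lemma cint {E : Type*} [NormedAddCommGroup E] {f : TT → E} (hf : Continuous f) :
    Integrable f m2 :=
  hf.integrable_of_hasCompactSupport (HasCompactSupport.of_compactSpace _)

lemma four_add_pt (n : ℤ) (x y : T) : fourier n (x + y) = fourier n x * fourier n y := by
  simp only [fourier_apply, smul_add, AddCircle.toCircle_add, Circle.coe_mul]

lemma four_norm (n : ℤ) (x : T) : ‖fourier n x‖ = 1 := by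
  simp only [fourier_apply, Circle.norm_coe]

lemma four_neg_pt (n : ℤ) (x : T) : fourier n (-x) = fourier (-n) x := by
  simp only [fourier_apply, smul_neg, neg_smul]

lemma int_four (n : ℤ) : ∫ x, fourier n x ∂m1 = if n = 0 then 1 else 0 := by
  split_ifs with h
  · simp [h]
  · exact integral_eq_zero_of_add_right_eq_neg (μ := m1)
      (fourier_add_half_inv_index h Real.two_pi_pos)

/-- characters of the two-dimensional torus -/
def ch (k : ℤ × ℤ) : CT :=
  ⟨fun x => fourier k.1 x.1 * fourier k.2 x.2, by fun_prop⟩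

lemma ch_apply (k : ℤ × ℤ) (x : TT) : ch k x = fourier k.1 x.1 * fourier k.2 x.2 := rfl

lemma ch_add (k l : ℤ × ℤ) : ch (k + l) = ch k * ch l := by
  ext x
  simp only [ch_apply, ContinuousMap.mul_apply, Prod.fst_add, Prod.snd_add, fourier_add]
  ring

lemma ch_zero : ch 0 = 1 := by
  ext x; simp [ch_apply]

lemma ch_neg (k : ℤ × ℤ) : ch (-k) = star (ch k) := by
  ext x
  simp only [ch_apply, ContinuousMap.star_apply, Prod.fst_neg, Prod.snd_neg, fourier_neg,
    RCLike.star_def, map_mul]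

lemma ch_add_pt (k : ℤ × ℤ) (x y : TT) : ch k (x + y) = ch k x * ch k y := by
  simp only [ch_apply, Prod.fst_add, Prod.snd_add, four_add_pt]; ring

lemma ch_neg_pt (k : ℤ × ℤ) (x : TT) : ch k (-x) = ch (-k) x := by
  simp only [ch_apply, Prod.fst_neg, Prod.snd_neg, four_neg_pt]

lemma ch_sub_pt (k : ℤ × ℤ) (x y : TT) : ch k (x - y) = ch k x * ch (-k) y := by
  rw [sub_eq_add_neg, ch_add_pt, ch_neg_pt]

lemma ch_norm (k : ℤ × ℤ) (x : TT) : ‖ch k x‖ = 1 := by
  simp only [ch_apply, norm_mul, four_norm, mul_one]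

/-- mean value -/
def mean : CT →ₗ[ℂ] ℂ where
  toFun g := ∫ x, g x ∂m2
  map_add' f g := by
    simp only [ContinuousMap.add_apply]
    exact integral_add (cint f.continuous) (cint g.continuous)
  map_smul' c g := by
    simp only [ContinuousMap.smul_apply, RingHom.id_apply]
    exact integral_smul c _

lemma mean_apply (g : CT) : mean g = ∫ x, g x ∂m2 := rfl

lemma mean_ch (k : ℤ × ℤ) : mean (ch k) = if k = 0 then 1 else 0 := by
  rw [mean_apply]
  simp only [ch_apply]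
  rw [integral_prod_mul (μ := m1) (ν := m1) (fun x => fourier k.1 x) (fun x => fourier k.2 x),
    int_four, int_four]
  by_cases h1 : k.1 = 0 <;> by_cases h2 : k.2 = 0 <;> simp [h1, h2, Prod.ext_iff]

/-- Fourier coefficient -/
def co (k : ℤ × ℤ) : CT →ₗ[ℂ] ℂ := mean ∘ₗ LinearMap.mulLeft ℂ (ch (-k))

lemma co_apply (k : ℤ × ℤ) (g : CT) : co k g = mean (ch (-k) * g) := rfl

lemma co_ch (k l : ℤ × ℤ) : co k (ch l) = if k = l then 1 else 0 := by
  rw [co_apply, ← ch_add, mean_ch]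
  congr 1
  apply propext
  constructor
  · intro h; exact (neg_add_eq_zero.mp h)
  · intro h; rw [h]; simp

lemma co_zero (g : CT) : co 0 g = mean g := by
  rw [co_apply, neg_zero, ch_zero, one_mul]

/-- trigonometric polynomials with frequencies in a product set -/
def Spec (P Q : ℤ → Prop) : Submodule ℂ CT :=
  Submodule.span ℂ (ch '' {k | P k.1 ∧ Q k.2})

lemma ch_mem {P Q : ℤ → Prop} {k : ℤ × ℤ} (h1 : P k.1) (h2 : Q k.2) : ch k ∈ Spec P Q :=
  Submodule.subset_span ⟨k, ⟨h1, h2⟩, rfl⟩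

lemma Spec_mono {P Q P' Q' : ℤ → Prop} (h1 : ∀ k, P k → P' k) (h2 : ∀ k, Q k → Q' k) :
    Spec P Q ≤ Spec P' Q' :=
  Submodule.span_mono (Set.image_mono fun _ hk => ⟨h1 _ hk.1, h2 _ hk.2⟩)

lemma Spec_ind {P Q : ℤ → Prop} {p : CT → Prop} {g : CT} (hg : g ∈ Spec P Q)
    (hch : ∀ k : ℤ × ℤ, P k.1 → Q k.2 → p (ch k)) (h0 : p 0)
    (hadd : ∀ f g, p f → p g → p (f + g)) (hsm : ∀ (c : ℂ) f, p f → p (c • f)) : p g := by
  induction hg using Submodule.span_induction with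
  | mem x hx => obtain ⟨k, hk, rfl⟩ := hx; exact hch k hk.1 hk.2
  | zero => exact h0
  | add x y _ _ hx hy => exact hadd _ _ hx hy
  | smul a x _ hx => exact hsm _ _ hx

lemma Spec_mul {P Q P' Q' P'' Q'' : ℤ → Prop} {f g : CT} (hf : f ∈ Spec P Q)
    (hg : g ∈ Spec P' Q') (h1 : ∀ a b, P a → P' b → P'' (a + b))
    (h2 : ∀ a b, Q a → Q' b → Q'' (a + b)) : f * g ∈ Spec P'' Q'' := by
  refine Spec_ind (p := fun f => f * g ∈ Spec P'' Q'') hf ?_ ?_ ?_ ?_
  · intro k hk1 hk2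
    refine Spec_ind (p := fun g => ch k * g ∈ Spec P'' Q'') hg ?_ ?_ ?_ ?_
    · intro l hl1 hl2
      rw [← ch_add]
      exact ch_mem (h1 _ _ hk1 hl1) (h2 _ _ hk2 hl2)
    · simp
    · intro f g hf hg; rw [mul_add]; exact add_mem hf hg
    · intro c f hf; rw [mul_smul_comm]; exact Submodule.smul_mem _ _ hf
  · simp
  · intro f g hf hg; rw [add_mul]; exact add_mem hf hg
  · intro c f hf; rw [smul_mul_assoc]; exact Submodule.smul_mem _ _ hf

lemma Spec_star {P Q P' Q' : ℤ → Prop} {f : CT} (hf : f ∈ Spec P Q)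
    (h1 : ∀ a, P a → P' (-a)) (h2 : ∀ a, Q a → Q' (-a)) : star f ∈ Spec P' Q' := by
  refine Spec_ind (p := fun f => star f ∈ Spec P' Q') hf ?_ ?_ ?_ ?_
  · intro k hk1 hk2
    rw [← ch_neg]
    exact ch_mem (h1 _ hk1) (h2 _ hk2)
  · simp
  · intro f g hf hg; rw [star_add]; exact add_mem hf hg
  · intro c f hf; rw [star_smul]; exact Submodule.smul_mem _ _ hf

lemma co_eq_zero {P Q : ℤ → Prop} {f : CT} (hf : f ∈ Spec P Q) {k : ℤ × ℤ}
    (hk : ¬ (P k.1 ∧ Q k.2)) : co k f = 0 := by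
  refine Spec_ind (p := fun f => co k f = 0) hf ?_ ?_ ?_ ?_
  · intro l hl1 hl2
    rw [co_ch, if_neg]
    rintro rfl
    exact hk ⟨hl1, hl2⟩
  · simp
  · intro f g hf hg; rw [map_add, hf, hg, add_zero]
  · intro c f hf; rw [map_smul, hf, smul_zero]

lemma Spec_repr {P Q : ℤ → Prop} {f : CT} (hf : f ∈ Spec P Q) (B : Finset (ℤ × ℤ))
    (hB : ∀ k : ℤ × ℤ, P k.1 → Q k.2 → k ∈ B) : f = ∑ k ∈ B, co k f • ch k := by
  refine Spec_ind (p := fun f => f = ∑ k ∈ B, co k f • ch k) hf ?_ ?_ ?_ ?_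
  · intro l hl1 hl2
    simp only [co_ch, ite_smul, one_smul, zero_smul]
    rw [Finset.sum_ite_eq' B l, if_pos (hB l hl1 hl2)]
  · simp
  · intro f g hf hg
    simp only [map_add, add_smul, Finset.sum_add_distrib]
    rw [← hf, ← hg]
  · intro c f hf
    simp only [map_smul, smul_eq_mul, mul_smul]
    rw [← Finset.smul_sum, ← hf]

lemma co_sum (B : Finset (ℤ × ℤ)) (c : ℤ × ℤ → ℂ) (k : ℤ × ℤ) :
    co k (∑ l ∈ B, c l • ch l) = if k ∈ B then c k else 0 := by
  simp only [map_sum, map_smul, co_ch, smul_eq_mul, mul_ite, mul_one, mul_zero]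
  rw [Finset.sum_ite_eq B k]

lemma sum_mem_Spec {P Q : ℤ → Prop} (B : Finset (ℤ × ℤ)) (c : ℤ × ℤ → ℂ)
    (h : ∀ k ∈ B, c k ≠ 0 → P k.1 ∧ Q k.2) : ∑ l ∈ B, c l • ch l ∈ Spec P Q := by
  refine Submodule.sum_mem _ fun k hk => ?_
  by_cases hc : c k = 0
  · simp [hc]
  · exact Submodule.smul_mem _ _ (ch_mem (h k hk hc).1 (h k hk hc).2)

instance : m1.IsNegInvariant := inferInstance

instance : m2.IsNegInvariant :=
  ⟨((Measure.measurePreserving_neg m1).prod (Measure.measurePreserving_neg m1)).map_eq⟩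

lemma conv_ch (k : ℤ × ℤ) (g : CT) (x : TT) :
    ∫ y, ch k y * g (x - y) ∂m2 = co k g * ch k x := by
  have h := integral_sub_left_eq_self (fun y => ch k (x - y) * g y) m2 x
  simp only [sub_sub_cancel] at h
  rw [h, co_apply, mean_apply, ← integral_mul_const]
  congr 1
  ext y
  rw [ch_sub_pt, ContinuousMap.mul_apply]
  ring

lemma conv_spec {P Q : ℤ → Prop} {p : CT} (hp : p ∈ Spec P Q) (g : CT) :
    ∃ h ∈ Spec P Q, ∀ x, h x = ∫ y, p y * g (x - y) ∂m2 := by
  refine Spec_ind (p := fun p => ∃ h ∈ Spec P Q, ∀ x, h x = ∫ y, p y * g (x - y) ∂m2)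
    hp ?_ ?_ ?_ ?_
  · intro k h1 h2
    refine ⟨co k g • ch k, Submodule.smul_mem _ _ (ch_mem h1 h2), fun x => ?_⟩
    rw [conv_ch]; simp
  · exact ⟨0, zero_mem _, by simp⟩
  · rintro f f' ⟨h, hh, e⟩ ⟨h', hh', e'⟩
    refine ⟨h + h', add_mem hh hh', fun x => ?_⟩
    simp only [ContinuousMap.add_apply, add_mul]
    rw [integral_add (cint (by fun_prop)) (cint (by fun_prop)), e, e']
  · rintro c f ⟨h, hh, e⟩
    refine ⟨c • h, Submodule.smul_mem _ _ hh, fun x => ?_⟩
    simp only [ContinuousMap.smul_apply, smul_eq_mul, mul_assoc]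
    rw [integral_const_mul, e]

/-- Parseval for finite sums in one variable -/
lemma parseval1 (s : Finset ℤ) (c : ℤ → ℂ) :
    ∫ y, ‖∑ k ∈ s, c k * fourier k y‖ ^ 2 ∂m1 = ∑ k ∈ s, ‖c k‖ ^ 2 := by
  have h : ∀ y : T, ((‖∑ k ∈ s, c k * fourier k y‖ ^ 2 : ℝ) : ℂ)
      = ∑ k ∈ s, ∑ l ∈ s, c k * conj (c l) * fourier (k - l) y := by
    intro y
    rw [← Complex.normSq_eq_norm_sq, ← Complex.mul_conj, map_sum, Finset.sum_mul_sum]
    refine Finset.sum_congr rfl fun k _ => Finset.sum_congr rfl fun l _ => ?_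
    rw [sub_eq_add_neg, fourier_add, fourier_neg, map_mul]
    ring
  apply Complex.ofReal_injective
  rw [← integral_complex_ofReal]
  simp only [h]
  rw [integral_finsetSum _ fun k _ => cint1 (by fun_prop)]
  push_cast
  refine Finset.sum_congr rfl fun k hk => ?_
  rw [integral_finsetSum _ fun k _ => cint1 (by fun_prop)]
  simp only [integral_const_mul, int_four, sub_eq_zero, mul_ite, mul_one, mul_zero]
  rw [Finset.sum_ite_eq s k, if_pos hk, Complex.mul_conj, Complex.normSq_eq_norm_sq]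
  push_cast; rfl

/-- Cauchy-Schwarz -/
lemma cs {u v : TT → ℝ} (hu : Continuous u) (hv : Continuous v) {a b : ℝ} (ha : 0 ≤ a)
    (hb : 0 ≤ b) (h1 : ∫ y, u y ^ 2 ∂m2 ≤ a ^ 2) (h2 : ∫ y, v y ^ 2 ∂m2 ≤ b ^ 2) :
    ∫ y, u y * v y ∂m2 ≤ a * b := by
  have key : ∀ t : ℝ, 0 ≤ (∫ y, u y ^ 2 ∂m2) * (t * t) + (2 * ∫ y, u y * v y ∂m2) * t
      + ∫ y, v y ^ 2 ∂m2 := by
    intro t
    have : 0 ≤ ∫ y, (t * u y + v y) ^ 2 ∂m2 := integral_nonneg fun y => sq_nonneg _
    have e : ∀ y, (t * u y + v y) ^ 2 = u y ^ 2 * (t * t) + (2 * (u y * v y)) * t + v y ^ 2 := by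
      intro y; ring
    simp only [e] at this
    rw [integral_add (cint (by fun_prop)) (cint (by fun_prop)),
      integral_add (cint (by fun_prop)) (cint (by fun_prop)), integral_mul_const,
      integral_mul_const, integral_const_mul] at this
    exact this
  have hd := discrim_le_zero key
  rw [discrim] at hd
  have p1 : 0 ≤ ∫ y, u y ^ 2 ∂m2 := integral_nonneg fun y => sq_nonneg _
  have p2 : 0 ≤ ∫ y, v y ^ 2 ∂m2 := integral_nonneg fun y => sq_nonneg _
  have : (∫ y, u y * v y ∂m2) ^ 2 ≤ (a * b) ^ 2 := by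
    have := mul_le_mul h1 h2 p2 (sq_nonneg a)
    nlinarith
  exact (abs_le_of_sq_le_sq' this (mul_nonneg ha hb)).2

end

end Pool.Agent.Lib.MP_21a4ea_an
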