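import Pool.Agent.Lib.MP_21a4ea_an.Basic

namespace Pool.Agent.Lib.MP_21a4ea_an

open MeasureTheory Real Finset
open scoped ComplexConjugate

noncomputable section

/-- chordal distance to the origin -/
def dd (y : T) : ℝ := ‖fourier 1 y - 1‖

lemma dd_nonneg (y : T) : 0 ≤ dd y := norm_nonneg _

@[fun_prop] lemma dd_cont : Continuous dd := by unfold dd; fun_prop

lemma dd_neg (y : T) : dd (-y) = dd y := by
  unfold dd
  rw [four_neg_pt, fourier_neg, ← Complex.norm_conj]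
  simp

lemma dd_add (x y : T) : dd (x + y) ≤ dd x + dd y := by
  unfold dd
  rw [four_add_pt]
  have : fourier 1 x * fourier 1 y - 1 = (fourier 1 x - 1) * fourier 1 y + (fourier 1 y - 1) := by
    ring
  rw [this]
  refine (norm_add_le _ _).trans ?_
  rw [norm_mul, four_norm, mul_one]

lemma dd_zero : dd 0 = 0 := by simp [dd]

lemma four_coe (n : ℤ) (x : ℝ) : fourier n (x : T) = Complex.exp (Complex.I * ((n * x : ℝ) : ℂ)) := by
  rw [fourier_coe_apply]
  congr 1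
  have : (π : ℂ) ≠ 0 := Complex.ofReal_ne_zero.mpr Real.pi_ne_zero
  push_cast
  field_simp

lemma dd_coe_le (x : ℝ) : dd (x : T) ≤ |x| := by
  unfold dd
  rw [four_coe]
  simpa using Real.norm_exp_I_mul_ofReal_sub_one_le (x := ((1 : ℤ) : ℝ) * x)

lemma dd_coe_ge {x : ℝ} (hx : |x| ≤ π) : 2 / π * |x| ≤ dd (x : T) := by
  unfold dd
  rw [four_coe, Complex.norm_exp_I_mul_ofReal_sub_one]
  have h : |x / 2| ≤ π / 2 := by rw [abs_div, abs_two]; linarith
  have := Real.mul_abs_le_abs_sin h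
  rw [abs_div, abs_two] at this
  simp only [Int.cast_one, one_mul, norm_mul, Real.norm_eq_abs, abs_two]
  linarith

/-- the bracket at scale two to the a -/
def br (a : ℕ) (y : T) : ℝ := 1 + 4 ^ a * dd y ^ 2

@[fun_prop] lemma br_cont (a : ℕ) : Continuous (br a) := by unfold br; fun_prop

lemma one_le_br (a : ℕ) (y : T) : 1 ≤ br a y := by
  unfold br; have := dd_nonneg y; nlinarith [sq_nonneg (dd y), pow_pos (show (0:ℝ) < 4 by norm_num) a]

lemma br_pos (a : ℕ) (y : T) : 0 < br a y := lt_of_lt_of_le one_pos (one_le_br a y)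

lemma br_neg (a : ℕ) (y : T) : br a (-y) = br a y := by unfold br; rw [dd_neg]

lemma br_mono {a b : ℕ} (h : a ≤ b) (y : T) : br a y ≤ br b y := by
  unfold br
  have : (4:ℝ) ^ a ≤ 4 ^ b := pow_le_pow_right₀ (by norm_num) h
  nlinarith [sq_nonneg (dd y)]

lemma br_le_pow {a b : ℕ} (y : T) : br (a + b) y ≤ 4 ^ b * br a y := by
  unfold br
  have : (1:ℝ) ≤ 4 ^ b := one_le_pow₀ (by norm_num)
  rw [pow_add]
  nlinarith [sq_nonneg (dd y)]

lemma peetre (a : ℕ) (x y : T) : br a (x + y) ≤ 2 * br a x * br a y := by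
  unfold br
  have h := dd_add x y
  have h0 := dd_nonneg (x + y)
  have h1 := dd_nonneg x
  have h2 := dd_nonneg y
  have hK : (0:ℝ) < 4 ^ a := by positivity
  have h3 : dd (x + y) ^ 2 ≤ 2 * dd x ^ 2 + 2 * dd y ^ 2 := by nlinarith [sq_nonneg (dd x - dd y)]
  have h4 := mul_le_mul_of_nonneg_left h3 hK.le
  have h5 : 0 ≤ (4 ^ a * dd x ^ 2) * (4 ^ a * dd y ^ 2) := by positivity
  nlinarith

/-- the decaying profile -/
def jj (a : ℕ) (y : T) : ℝ := (br a y) ^ (-(3 / 4) : ℝ)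

@[fun_prop] lemma jj_cont (a : ℕ) : Continuous (jj a) :=
  (br_cont a).rpow_const fun y => Or.inl (br_pos a y).ne'

lemma jj_pos (a : ℕ) (y : T) : 0 < jj a y := Real.rpow_pos_of_pos (br_pos a y) _

lemma jj_neg (a : ℕ) (y : T) : jj a (-y) = jj a y := by unfold jj; rw [br_neg]

lemma rp_le {u v c : ℝ} (hu : 0 < u) (hv : 0 < v) (hc : 0 < c) (h : v ≤ c * u) :
    u ^ (-(3 / 4) : ℝ) ≤ c ^ (3 / 4 : ℝ) * v ^ (-(3 / 4) : ℝ) := by
  have h1 : (c * u) ^ (-(3 / 4) : ℝ) ≤ v ^ (-(3 / 4) : ℝ) :=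
    Real.rpow_le_rpow_of_nonpos hv h (by norm_num)
  rw [Real.mul_rpow hc.le hu.le] at h1
  have h2 : c ^ (3 / 4 : ℝ) * c ^ (-(3 / 4) : ℝ) = 1 := by
    rw [← Real.rpow_add hc]; simp
  have h3 : 0 < c ^ (3 / 4 : ℝ) := Real.rpow_pos_of_pos hc _
  calc u ^ (-(3 / 4) : ℝ) = c ^ (3 / 4 : ℝ) * (c ^ (-(3 / 4) : ℝ) * u ^ (-(3 / 4) : ℝ)) := by
        rw [← mul_assoc, h2, one_mul]
    _ ≤ _ := mul_le_mul_of_nonneg_left h1 h3.le

lemma rp_le' {u v c : ℝ} (hu : 0 < u) (hv : 0 < v) (hc : 1 ≤ c) (h : v ≤ c * u) :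
    u ^ (-(3 / 4) : ℝ) ≤ c * v ^ (-(3 / 4) : ℝ) := by
  refine (rp_le hu hv (by linarith) h).trans ?_
  refine mul_le_mul_of_nonneg_right ?_ (Real.rpow_pos_of_pos hv _).le
  calc c ^ (3 / 4 : ℝ) ≤ c ^ (1 : ℝ) := Real.rpow_le_rpow_of_exponent_le hc (by norm_num)
    _ = c := Real.rpow_one c

lemma jj_anti {a b : ℕ} (h : a ≤ b) (y : T) : jj b y ≤ jj a y := by
  have := rp_le' (br_pos b y) (br_pos a y) le_rfl (by rw [one_mul]; exact br_mono h y)
  simpa [jj] using this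

lemma jj_le_pow (a b : ℕ) (y : T) : jj a y ≤ 4 ^ b * jj (a + b) y :=
  rp_le' (br_pos a y) (br_pos _ y) (one_le_pow₀ (by norm_num)) (br_le_pow y)

lemma jj_mod {a b : ℕ} (h : a ≤ b) (x y : T) : jj a (x - y) ≤ 2 * br b y * jj a x := by
  refine rp_le' (br_pos a _) (br_pos _ _) ?_ ?_
  · have := one_le_br b y; linarith
  · have h1 := peetre a (x - y) y
    rw [sub_add_cancel] at h1
    have h2 := br_mono h y
    have h3 := br_pos a (x - y)
    nlinarith

lemma jj_ge {a : ℕ} {y : T} (h : 2 ^ a * dd y ≤ 1) : 1 / 2 ≤ jj a y := by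
  have h1 : br a y ≤ 2 * 1 := by
    unfold br
    have : (4:ℝ) ^ a * dd y ^ 2 = (2 ^ a * dd y) ^ 2 := by
      rw [mul_pow, ← pow_mul, mul_comm a 2, pow_mul]; norm_num
    rw [this]
    have h0 : 0 ≤ 2 ^ a * dd y := mul_nonneg (by positivity) (dd_nonneg y)
    nlinarith
  have := rp_le' one_pos (br_pos a y) (by norm_num) h1
  rw [Real.one_rpow] at this
  unfold jj; linarith

/-- the constant in the integral bound -/
def CJ : ℝ := 1 + ∫ x : ℝ, (1 + x ^ 2) ^ (-(3 / 4) : ℝ)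

lemma jap_int : Integrable (fun x : ℝ => (1 + x ^ 2) ^ (-(3 / 4) : ℝ)) := by
  have := integrable_rpow_neg_one_add_norm_sq (E := ℝ) (μ := volume) (r := 3 / 2) (by norm_num)
  refine this.congr (Filter.Eventually.of_forall fun x => ?_)
  simp only [Real.norm_eq_abs, sq_abs]
  congr 1; norm_num

lemma one_le_CJ : 1 ≤ CJ := by
  unfold CJ
  have : 0 ≤ ∫ x : ℝ, (1 + x ^ 2) ^ (-(3 / 4) : ℝ) :=
    integral_nonneg fun x => Real.rpow_nonneg (by positivity) _
  linarith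

lemma CJ_pos : 0 < CJ := lt_of_lt_of_le one_pos one_le_CJ

lemma int_jj (a : ℕ) : ∫ y, jj a y ∂m1 ≤ CJ / 2 ^ a := by
  rw [AddCircle.integral_haarAddCircle, ← AddCircle.integral_preimage (2 * π) (-π), smul_eq_mul]
  set c : ℝ := 2 ^ a * (2 / π) with hc
  have hcpos : 0 < c := by positivity
  have hint : Integrable (fun x : ℝ => (1 + (c * x) ^ 2) ^ (-(3 / 4) : ℝ)) :=
    jap_int.comp_mul_left' hcpos.ne'
  have h1 : ∫ x in Set.Ioc (-π) (-π + 2 * π), jj a (x : T)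
      ≤ ∫ x in Set.Ioc (-π) (-π + 2 * π), (1 + (c * x) ^ 2) ^ (-(3 / 4) : ℝ) := by
    refine setIntegral_mono_on ?_ hint.integrableOn measurableSet_Ioc ?_
    · have : Continuous fun x : ℝ => jj a (x : T) :=
        (jj_cont a).comp (AddCircle.continuous_mk' _)
      exact this.integrableOn_Ioc
    · intro x hx
      have hx' : |x| ≤ π := abs_le.mpr ⟨hx.1.le, by linarith [hx.2]⟩
      have h2 := dd_coe_ge hx'
      unfold jj
      refine Real.rpow_le_rpow_of_nonpos (by positivity) ?_ (by norm_num)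
      unfold br
      have e : (4:ℝ) ^ a = (2 ^ a) ^ 2 := by rw [← pow_mul, mul_comm a 2, pow_mul]; norm_num
      have h3 : (2 / π * |x|) ^ 2 ≤ dd (x : T) ^ 2 :=
        pow_le_pow_left₀ (by positivity) h2 2
      have e2 : (c * x) ^ 2 = (2 ^ a) ^ 2 * (2 / π * |x|) ^ 2 := by
        rw [hc, mul_pow (2 / π), sq_abs]; ring
      rw [e, e2]
      have : (0:ℝ) ≤ (2 ^ a) ^ 2 := by positivity
      nlinarith
  have h2 : ∫ x in Set.Ioc (-π) (-π + 2 * π), (1 + (c * x) ^ 2) ^ (-(3 / 4) : ℝ)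
      ≤ ∫ x : ℝ, (1 + (c * x) ^ 2) ^ (-(3 / 4) : ℝ) :=
    setIntegral_le_integral hint
      (Filter.Eventually.of_forall fun x => Real.rpow_nonneg (by positivity) _)
  have h3 := Measure.integral_comp_mul_left (fun x : ℝ => (1 + x ^ 2) ^ (-(3 / 4) : ℝ)) c
  rw [h3, smul_eq_mul, abs_of_pos (inv_pos.mpr hcpos)] at h2
  have h4 : ∫ x : ℝ, (1 + x ^ 2) ^ (-(3 / 4) : ℝ) ≤ CJ := by unfold CJ; linarith
  have h5 : c⁻¹ * ∫ x : ℝ, (1 + x ^ 2) ^ (-(3 / 4) : ℝ) ≤ c⁻¹ * CJ :=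
    mul_le_mul_of_nonneg_left h4 (inv_pos.mpr hcpos).le
  have h6 := (h1.trans h2).trans h5
  have hpi := Real.pi_pos
  calc (2 * π)⁻¹ * ∫ x in Set.Ioc (-π) (-π + 2 * π), jj a (x : T) ≤ (2 * π)⁻¹ * (c⁻¹ * CJ) :=
        mul_le_mul_of_nonneg_left h6 (by positivity)
    _ = CJ / 2 ^ a / 4 := by rw [hc]; field_simp; ring
    _ ≤ CJ / 2 ^ a := by
        have : 0 ≤ CJ / 2 ^ a := div_nonneg CJ_pos.le (by positivity)
        linarith

lemma jj_conv_pt (a w : ℕ) (y z : T) :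
    jj a y * jj (a + w) z ≤ 8 * jj a (y + z) * (jj (a + w) z + jj a y / 2 ^ w) := by
  have p1 := jj_pos a y
  have p2 := jj_pos (a + w) z
  have p3 := jj_pos a (y + z)
  have p4 : 0 < jj a y / 2 ^ w := by positivity
  by_cases h : br a (y + z) ≤ 8 * br a y
  · have := rp_le' (br_pos a y) (br_pos a _) (by norm_num) h
    change jj a y ≤ 8 * jj a (y + z) at this
    nlinarith [mul_le_mul_of_nonneg_right this p2.le, mul_pos p3 p4]
  · push Not at h
    have hq : (0:ℝ) < 2 ^ w := by positivity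
    have hq1 : (1:ℝ) ≤ 2 ^ w := one_le_pow₀ (by norm_num)
    have key : br a (y + z) ≤ 8 / (2 ^ w) ^ 2 * br (a + w) z := by
      unfold br at h ⊢
      have hK : (0:ℝ) < 4 ^ a := by positivity
      have d1 := dd_nonneg y
      have d2 := dd_nonneg z
      have d3 := dd_nonneg (y + z)
      have d4 := dd_add y z
      have e : (4:ℝ) ^ (a + w) = 4 ^ a * (2 ^ w) ^ 2 := by
        rw [pow_add, ← pow_mul, mul_comm w 2, pow_mul]; norm_num
      have h1 : 4 * dd y ^ 2 ≤ dd (y + z) ^ 2 := by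
        by_contra hc
        push Not at hc
        have := mul_le_mul_of_nonneg_left hc.le hK.le
        nlinarith [mul_nonneg hK.le (sq_nonneg (dd y))]
      have h2 : 2 * dd y ≤ dd (y + z) := by
        by_contra hc
        push Not at hc
        nlinarith
      have h3 : dd (y + z) ^ 2 ≤ 4 * dd z ^ 2 := by nlinarith
      have h4 : 1 ≤ 4 ^ a * dd (y + z) ^ 2 := by nlinarith [mul_nonneg hK.le (sq_nonneg (dd y))]
      have h5 := mul_le_mul_of_nonneg_left h3 hK.le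
      rw [e, div_mul_eq_mul_div, le_div_iff₀ (by positivity)]
      have h6 : (0:ℝ) ≤ (2 ^ w) ^ 2 := by positivity
      nlinarith [mul_le_mul_of_nonneg_right h5 h6, mul_le_mul_of_nonneg_right h4 h6]
    have := rp_le (br_pos (a + w) z) (br_pos a _) (by positivity) key
    change jj (a + w) z ≤ _ * jj a (y + z) at this
    have h7 : (8 / ((2:ℝ) ^ w) ^ 2) ^ (3 / 4 : ℝ) ≤ 8 / 2 ^ w := by
      rw [Real.div_rpow (by norm_num) (by positivity)]
      refine div_le_div₀ (by norm_num) ?_ hq ?_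
      · calc (8:ℝ) ^ (3 / 4 : ℝ) ≤ 8 ^ (1 : ℝ) :=
            Real.rpow_le_rpow_of_exponent_le (by norm_num) (by norm_num)
          _ = 8 := Real.rpow_one _
      · rw [← Real.rpow_natCast ((2:ℝ) ^ w) 2, ← Real.rpow_mul hq.le]
        calc (2:ℝ) ^ w = ((2:ℝ) ^ w) ^ (1:ℝ) := (Real.rpow_one _).symm
          _ ≤ _ := Real.rpow_le_rpow_of_exponent_le hq1 (by norm_num)
    have h8 : jj (a + w) z ≤ 8 / 2 ^ w * jj a (y + z) :=
      this.trans (mul_le_mul_of_nonneg_right h7 p3.le)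
    calc jj a y * jj (a + w) z ≤ jj a y * (8 / 2 ^ w * jj a (y + z)) :=
          mul_le_mul_of_nonneg_left h8 p1.le
      _ = 8 * jj a (y + z) * (jj a y / 2 ^ w) := by ring
      _ ≤ _ := by nlinarith [mul_pos p3 p2]

lemma jj_conv (a w : ℕ) (x : T) :
    ∫ y, 2 ^ a * jj a y * jj (a + w) (x - y) ∂m1 ≤ 16 * CJ / 2 ^ w * jj a x := by
  have h1 : ∫ y, 2 ^ a * jj a y * jj (a + w) (x - y) ∂m1
      ≤ ∫ y, 2 ^ a * 8 * jj a x * (jj (a + w) (x - y) + jj a y / 2 ^ w) ∂m1 := by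
    refine integral_mono (cint1 (by fun_prop)) (cint1 (by fun_prop)) fun y => ?_
    have := jj_conv_pt a w y (x - y)
    rw [add_sub_cancel] at this
    have h2 : (0:ℝ) ≤ 2 ^ a := by positivity
    have := mul_le_mul_of_nonneg_left this h2
    simp only
    linarith
  rw [integral_const_mul, integral_add (cint1 (by fun_prop)) (cint1 (by fun_prop)),
    integral_sub_left_eq_self (jj (a + w)) m1 x, integral_div] at h1
  have h2 := int_jj (a + w)
  have h3 := int_jj a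
  have h4 : (∫ y, jj a y ∂m1) / 2 ^ w ≤ CJ / 2 ^ a / 2 ^ w :=
    div_le_div_of_nonneg_right h3 (by positivity)
  have p3 := jj_pos a x
  calc _ ≤ _ := h1
    _ ≤ 2 ^ a * 8 * jj a x * (CJ / 2 ^ (a + w) + CJ / 2 ^ a / 2 ^ w) :=
        mul_le_mul_of_nonneg_left (add_le_add h2 h4) (by positivity)
    _ = _ := by rw [pow_add]; field_simp; ring

end

end Pool.Agent.Lib.MP_21a4ea_an
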