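import Pool.Agent.Lib.MP_21a4ea_an.Dec

namespace Pool.Agent.Lib.MP_21a4ea_an

open MeasureTheory Real Finset Filter
open scoped ComplexConjugate Topology

noncomputable section

variable {m : ℕ} {n : ℕ} {ξ : Fin m → TT} {lam : Fin m → ℂ} {L : CT →ₗ[ℂ] ℂ} {r θ : ℝ}

/-- cut-off equal to one near the nodes -/
def psi (n : ℕ) (ξ : Fin m → TT) (a b : ℕ) : CT :=
  ⟨fun x => ((min 1 (4 * rho n ξ a b x) : ℝ) : ℂ), by fun_prop⟩

lemma psi_apply (a b : ℕ) (x : TT) : psi n ξ a b x = ((min 1 (4 * rho n ξ a b x) : ℝ) : ℂ) := rfl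

lemma psi_one {a b : ℕ} {x : TT} (h : 1 / 4 ≤ rho n ξ a b x) : psi n ξ a b x = 1 := by
  rw [psi_apply, min_eq_left (by linarith)]; simp

lemma psi_le (a b : ℕ) (x : TT) :
    ‖psi n ξ a b x‖ ≤ 2 * rt (rho n ξ a b x / (1 + rho n ξ a b x)) := by
  have p := rho_pos n ξ a b x
  set u := min 1 (4 * rho n ξ a b x) with hu
  have u0 : 0 ≤ u := le_min zero_le_one (by linarith)
  have u1 : u ≤ 1 := min_le_left _ _
  have u2 : u ≤ 4 * rho n ξ a b x := min_le_right _ _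
  rw [psi_apply, Complex.norm_real, Real.norm_eq_abs, abs_of_nonneg u0]
  have a1 : u ^ 16 ≤ u := pow_le_of_le_one u0 u1 (by norm_num)
  have a2 : u ≤ 2 ^ 16 * (rho n ξ a b x / (1 + rho n ξ a b x)) := by
    rw [mul_div_assoc', le_div_iff₀ (by linarith)]
    nlinarith
  have := rt_le_mul (by positivity) (by positivity) (by norm_num) (a1.trans a2)
  rwa [rt_pow u0] at this

lemma one_sub_psi_le (a b : ℕ) (x : TT) : ‖1 - psi n ξ a b x‖ ≤ 1 := by
  have p := rho_pos n ξ a b x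
  have u0 : 0 ≤ min 1 (4 * rho n ξ a b x) := le_min zero_le_one (by linarith)
  have u1 : min 1 (4 * rho n ξ a b x) ≤ 1 := min_le_left _ _
  rw [psi_apply, ← Complex.ofReal_one, ← Complex.ofReal_sub, Complex.norm_real, Real.norm_eq_abs,
    abs_le]
  constructor <;> linarith

lemma muA_le (N : ℕ) {a b w : ℕ} {g : CT} (hg : ∀ x, ‖g x‖ ≤ rt (wt n ξ a b w x)) (x : TT) :
    ‖op a b (muA r θ N a) (muA r θ N b) g x‖
      ≤ C0 * CA r ^ 2 * ((2:ℝ) ^ (a + b)) ^ (-r) * rt (wt n ξ a b w x) := by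
  have := master_mod (Mult_muA r θ N a) (Mult_muA r θ N b) (fun x => (wt_pos n ξ a b w x).le)
    (wt_mod n ξ a b w) zero_le_one (g := g) (by simpa using hg) x
  refine this.trans (le_of_eq ?_)
  rw [pow_add, Real.mul_rpow (by positivity) (by positivity)]; ring

lemma card_le {I : Finset ℕ} {σ τ : ℕ → ℕ} {t : ℕ} (hσ : Set.InjOn σ I)
    (h : ∀ i ∈ I, σ i + τ i = t) : (I.card : ℝ) ≤ t + 1 := by
  have := Finset.card_le_card_of_injOn (t := range (t + 1)) σ
    (fun i hi => by have := h i hi; simp only [coe_range, Set.mem_Iio]; omega) hσ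
  rw [Finset.card_range] at this
  exact_mod_cast this

lemma num_le (hr : 1 ≤ r) (e : ℕ) : (e + 1) * ((2:ℝ) ^ e) ^ (-r) * rt (2 ^ e) ≤ 2 := by
  have a1 : ((2:ℝ) ^ e) ^ (-r) ≤ (1 / 2) ^ e := by
    calc ((2:ℝ) ^ e) ^ (-r) ≤ ((2:ℝ) ^ e) ^ (-1:ℝ) :=
          Real.rpow_le_rpow_of_exponent_le (one_le_pow₀ (by norm_num)) (by linarith)
      _ = _ := by rw [Real.rpow_neg_one, one_div, inv_pow]
  have a2 : rt (2 ^ e) ≤ (21 / 20) ^ e := by
    refine rt_le_of_le_pow (by positivity) (by positivity) ?_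
    rw [← pow_mul, mul_comm e, pow_mul]
    exact pow_le_pow_left₀ (by norm_num) (by norm_num) _
  have a3 := one_add_mul_le_pow (show (-2:ℝ) ≤ 19 / 21 by norm_num) e
  have a4 : ((1:ℝ) + 19 / 21) ^ e * ((1 / 2) ^ e * (21 / 20) ^ e) = 1 := by
    rw [← mul_pow, ← mul_pow]; norm_num
  have r0 := rt_nonneg (show (0:ℝ) ≤ 2 ^ e by positivity)
  have e0 : (0:ℝ) ≤ e := Nat.cast_nonneg e
  have a5 : (e:ℝ) + 1 ≤ 2 * (1 + 19 / 21) ^ e := by linarith
  calc ((e:ℝ) + 1) * ((2:ℝ) ^ e) ^ (-r) * rt (2 ^ e)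
      ≤ (2 * (1 + 19 / 21) ^ e) * (1 / 2) ^ e * (21 / 20) ^ e := by gcongr
    _ = 2 * (((1:ℝ) + 19 / 21) ^ e * ((1 / 2) ^ e * (21 / 20) ^ e)) := by ring
    _ = 2 := by rw [a4, mul_one]

lemma finite_good (hr : 1 ≤ r) (h : OnCh L r θ ξ lam) :
    Good L (wt n ξ) ((∑ μ, ‖lam μ‖ + 1) * (C0 * CA r ^ 2) * 2) := by
  intro t w I σ τ g hσ hg
  set Λ : ℝ := ∑ μ, ‖lam μ‖ + 1 with hΛ
  have hΛ0 : 0 < Λ := by
    have : 0 ≤ ∑ μ, ‖lam μ‖ := Finset.sum_nonneg fun _ _ => norm_nonneg _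
    linarith
  have hC0 := C0_pos
  have hCA := CA_pos r
  have each : ∀ i ∈ I, ‖L (g i)‖ ≤ Λ * (C0 * CA r ^ 2 * ((2:ℝ) ^ t) ^ (-r) * rt (2 ^ t)) :=
    fun i hi => by
      obtain ⟨p1, p2, p3, p4⟩ := hg i hi
      rw [LA h 0 p3]
      refine Ls_le ξ lam 0 _ _ fun x => (muA_le 0 p4 x).trans ?_
      rw [p1]
      refine mul_le_mul_of_nonneg_left (rt_mono (wt_pos n ξ _ _ _ _).le
        ((wt_le_pow n ξ _ _ _ _).trans ?_)) (by positivity)
      exact pow_le_pow_right₀ (by norm_num) (by unfold valid at p2; omega)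
  have a1 := Finset.sum_le_card_nsmul _ _ _ each
  rw [nsmul_eq_mul] at a1
  have a2 := card_le hσ fun i hi => (hg i hi).1
  have r0 := rt_nonneg (show (0:ℝ) ≤ 2 ^ t by positivity)
  have w0 : (0:ℝ) ≤ w := Nat.cast_nonneg w
  calc _ ≤ _ := a1
    _ ≤ (t + 1) * (Λ * (C0 * CA r ^ 2 * ((2:ℝ) ^ t) ^ (-r) * rt (2 ^ t))) := by gcongr
    _ = Λ * (C0 * CA r ^ 2) * ((t + 1) * ((2:ℝ) ^ t) ^ (-r) * rt (2 ^ t)) := by ring
    _ ≤ Λ * (C0 * CA r ^ 2) * 2 := mul_le_mul_of_nonneg_left (num_le hr t) (by positivity)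
    _ ≤ _ := le_mul_of_one_le_left (by positivity) (by linarith)

lemma stepD (hr : 1 ≤ r) {N : ℕ} (hN : r + 1 ≤ N) (h : OnCh L r θ ξ lam) {B : ℝ}
    (hB : Good L (om n ξ) B) :
    Good L (wt n ξ) ((2 + 2 * CD r N * (C0 * CA r ^ 2)) * B
      + 2 * (C0 * CA r ^ 2) * ((n + 1) * ((2:ℝ) ^ n) ^ (-r))) := by
  intro t w I σ τ g hσ hg
  have hC0 := C0_pos
  have hCA := CA_pos r
  have hCD := CD_pos r N
  have hB0 := hB.nonneg
  have w0 : (0:ℝ) ≤ w := Nat.cast_nonneg w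
  set K : ℝ := C0 * CA r ^ 2 with hK
  have K0 : 0 < K := by positivity
  have E0 : 0 ≤ 2 * K * ((n + 1) * ((2:ℝ) ^ n) ^ (-r)) := by positivity
  rcases le_total t n with ht | ht
  · have := hB.scaled t w I σ τ g two_pos hσ fun i hi => by
      obtain ⟨p1, p2, p3, p4⟩ := hg i hi
      refine ⟨p1, p2, p3, fun x => (p4 x).trans (rt_le_mul (wt_pos n ξ _ _ _ _).le
        (om_pos n ξ _ _ _ _).le (by norm_num) ((wt_le_om n ξ (by omega) w x).trans ?_))⟩
      exact mul_le_mul_of_nonneg_right (by norm_num) (om_pos n ξ _ _ _ _).le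
    refine this.trans ?_
    have : 0 ≤ 2 * CD r N * K * B := by positivity
    nlinarith
  · obtain ⟨e, rfl⟩ := Nat.exists_eq_add_of_le ht
    set f : ℕ → CT := fun i => op (σ i) (τ i) (muA r θ N (σ i)) (muA r θ N (τ i)) (g i) with hf
    have fb : ∀ i ∈ I, ∀ x, ‖f i x‖ ≤ K * ((2:ℝ) ^ (n + e)) ^ (-r) * rt (wt n ξ (σ i) (τ i) w x) :=
      fun i hi x => by
        have := muA_le (r := r) (θ := θ) N (hg i hi).2.2.2 x
        rwa [(hg i hi).1] at this
    have a1 := dec hr hN h hB (n + e) w I σ τ (fun i => f i * psi n ξ (σ i) (τ i))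
      (c := 2 * (K * ((2:ℝ) ^ (n + e)) ^ (-r))) (by positivity) hσ fun i hi =>
      ⟨(hg i hi).1, (hg i hi).2.1, fun x => by
        have p := rho_pos n ξ (σ i) (τ i) x
        rw [ContinuousMap.mul_apply, norm_mul]
        unfold om
        rw [rt_mul (wt_pos n ξ _ _ _ _).le (by positivity)]
        have := mul_le_mul (fb i hi x) (psi_le (n := n) (ξ := ξ) (σ i) (τ i) x) (norm_nonneg _)
          (mul_nonneg (by positivity) (rt_nonneg (wt_pos n ξ _ _ _ _).le))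
        linarith⟩
    have each : ∀ i ∈ I, ‖L (g i)‖ ≤ ‖Ls ξ lam N (σ i) (τ i) (f i * psi n ξ (σ i) (τ i))‖
        + K * ((2:ℝ) ^ (n + e)) ^ (-r) * rt (2 ^ e) := fun i hi => by
      obtain ⟨p1, p2, p3, p4⟩ := hg i hi
      rw [LA h N p3]
      have e1 : f i = f i * psi n ξ (σ i) (τ i) + f i * (1 - psi n ξ (σ i) (τ i)) := by ring
      change ‖Ls ξ lam N (σ i) (τ i) (f i)‖ ≤ _
      nth_rewrite 1 [e1]
      rw [map_add]
      refine (norm_add_le _ _).trans (add_le_add le_rfl ?_)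
      rw [Ls_local ξ lam n N _ _ fun x hx => by simp [psi_one hx], norm_neg]
      refine norm_mean_le fun x => ?_
      rw [ContinuousMap.mul_apply, norm_mul]
      refine (mul_le_of_le_one_right (norm_nonneg _) (one_sub_psi_le _ _ x)).trans
        ((fb i hi x).trans (mul_le_mul_of_nonneg_left (rt_mono (wt_pos n ξ _ _ _ _).le ?_)
          (by positivity)))
      refine (wt_le_lev n ξ (by unfold valid at p2; omega) x).trans (le_of_eq ?_)
      rw [p1, pow_add]; field_simp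
    refine (Finset.sum_le_sum each).trans ?_
    rw [Finset.sum_add_distrib, Finset.sum_const, nsmul_eq_mul]
    have a2 := card_le hσ fun i hi => (hg i hi).1
    have r0 := rt_nonneg (show (0:ℝ) ≤ 2 ^ e by positivity)
    have a3 : (I.card : ℝ) * (K * ((2:ℝ) ^ (n + e)) ^ (-r) * rt (2 ^ e))
        ≤ 2 * K * ((n + 1) * ((2:ℝ) ^ n) ^ (-r)) := by
      have b1 : (I.card : ℝ) ≤ (n + 1) * (e + 1) := by
        refine a2.trans ?_
        push_cast
        have : (0:ℝ) ≤ n * e := by positivity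
        linarith
      calc _ ≤ ((n + 1) * (e + 1)) * (K * ((2:ℝ) ^ (n + e)) ^ (-r) * rt (2 ^ e)) := by gcongr
        _ = K * ((n + 1) * ((2:ℝ) ^ n) ^ (-r)) * ((e + 1) * ((2:ℝ) ^ e) ^ (-r) * rt (2 ^ e)) := by
            rw [pow_add, Real.mul_rpow (by positivity) (by positivity)]; ring
        _ ≤ K * ((n + 1) * ((2:ℝ) ^ n) ^ (-r)) * 2 :=
            mul_le_mul_of_nonneg_left (num_le hr e) (by positivity)
        _ = _ := by ring
    have a4 : CD r N * (2 * (K * ((2:ℝ) ^ (n + e)) ^ (-r))) * ((2:ℝ) ^ (n + e)) ^ r * ((w + 1) * B)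
        = (w + 1) * (2 * CD r N * K * B) := by
      have : ((2:ℝ) ^ (n + e)) ^ (-r) * ((2:ℝ) ^ (n + e)) ^ r = 1 := by
        rw [← Real.rpow_add (by positivity)]; simp
      linear_combination (CD r N * 2 * K * ((w + 1) * B)) * this
    rw [a4] at a1
    nlinarith

lemma stepII (hr : 1 ≤ r) {N : ℕ} (hN : r + 1 ≤ N) {v : ℕ} (hv : 8 * (1 + CJ ^ 2) ≤ 2 ^ v)
    (hm : m ≤ 2 ^ n) (h : OnCh L r θ ξ lam) {B : ℝ} (hB : Good L (om n ξ) B) :
    (n + 1) * ((2:ℝ) ^ n) ^ (-r) ≤ 2 * CD r N * 2 ^ (v + 1) * ((2:ℝ) ^ v) ^ r * B := by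
  have a1 := dec hr hN h hB (n + v) 0 (range (n + v + 1)) id (fun j => n + v - j)
    (fun j => 1 - psi n ξ j (n + v - j)) (c := 2 ^ (v + 1)) (by positivity) (Set.injOn_id _)
    fun j hj => ⟨by rw [Finset.mem_range] at hj; simp only [id]; omega, Or.inl rfl, fun x => by
      rw [Finset.mem_range] at hj
      simp only [id, ContinuousMap.sub_apply, ContinuousMap.one_apply]
      have op := om_pos n ξ j (n + v - j) 0 x
      by_cases hx : 1 / 4 ≤ rho n ξ j (n + v - j) x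
      · rw [psi_one hx, sub_self, norm_zero]
        exact mul_nonneg (by positivity) (rt_nonneg op.le)
      · refine (one_sub_psi_le _ _ x).trans ?_
        rw [← rt_one]
        refine rt_le_mul zero_le_one op.le (by positivity) ?_
        have b1 := rho_ge n ξ j (n + v - j) x
        rw [show j + (n + v - j) = n + v by omega, pow_add, div_mul_eq_div_div,
          div_self (by positivity), div_le_iff₀ (by positivity)] at b1
        have p := rho_pos n ξ j (n + v - j) x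
        have b2 : rho n ξ j (n + v - j) x / 2 ≤ om n ξ j (n + v - j) 0 x := by
          unfold om wt
          simp only [Nat.sub_zero, pow_zero]
          rw [div_mul_div_comm, one_mul]
          refine div_le_div_of_nonneg_left p.le (by positivity) ?_
          nlinarith
        have b3 : (2:ℝ) ^ (v + 1) ≤ (2 ^ (v + 1)) ^ 16 :=
          le_self_pow₀ (one_le_pow₀ (by norm_num)) (by norm_num)
        calc (1:ℝ) ≤ 2 ^ (v + 1) * (rho n ξ j (n + v - j) x / 2) := by rw [pow_succ]; linarith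
          _ ≤ _ := by gcongr⟩
  have each : ∀ j ∈ range (n + v + 1),
      1 / 2 ≤ ‖Ls ξ lam N (id j) (n + v - j) (1 - psi n ξ j (n + v - j))‖ := fun j hj => by
    rw [Finset.mem_range] at hj
    simp only [id]
    rw [Ls_local ξ lam n N _ _ fun x hx => by simp [psi_one hx], norm_neg]
    have e : mean (1 - psi n ξ j (n + v - j))
        = ((∫ x, (1 - min 1 (4 * rho n ξ j (n + v - j) x)) ∂m2 : ℝ) : ℂ) := by
      rw [mean_apply, ← integral_complex_ofReal]
      congr 1; ext x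
      simp [psi_apply]
    rw [e, Complex.norm_real]
    refine le_trans ?_ (le_abs_self _)
    have b1 : ∫ x, (1 - 4 * rho n ξ j (n + v - j) x) ∂m2
        ≤ ∫ x, (1 - min 1 (4 * rho n ξ j (n + v - j) x)) ∂m2 :=
      integral_mono (cint (by fun_prop)) (cint (by fun_prop)) fun x =>
        sub_le_sub_left (min_le_right _ _) _
    rw [integral_sub (cint (by fun_prop)) (cint (by fun_prop)), integral_const_mul] at b1
    have b2 := rho_int n ξ hm j (n + v - j)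
    rw [show j + (n + v - j) = n + v by omega, pow_add, div_mul_eq_div_div,
      div_self (by positivity)] at b2
    have b3 : (1 + CJ ^ 2) * (1 / 2 ^ v) ≤ 1 / 8 := by
      rw [mul_one_div, div_le_iff₀ (by positivity)]; linarith
    simp only [integral_const, probReal_univ, smul_eq_mul, one_mul] at b1
    linarith
  have a2 := Finset.card_nsmul_le_sum _ _ _ each
  rw [Finset.card_range, nsmul_eq_mul] at a2
  have a3 := a2.trans a1
  have p : 0 < ((2:ℝ) ^ n) ^ r := by positivity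
  rw [Real.rpow_neg (by positivity), ← div_eq_mul_inv, div_le_iff₀ p]
  rw [pow_add 2 n v, Real.mul_rpow (by positivity) (by positivity)] at a3
  push_cast at a3
  have : (0:ℝ) ≤ v := Nat.cast_nonneg v
  linarith

theorem core (hr : 1 ≤ r) : ∃ c : ℝ, 0 < c ∧ ∀ {m : ℕ} (n : ℕ) (ξ : Fin m → TT) (lam : Fin m → ℂ)
    (θ : ℝ) (L : CT →ₗ[ℂ] ℂ) (M : ℝ), m ≤ 2 ^ n → OnCh L r θ ξ lam →
    (∀ g, L (star g) = conj (L g)) → 0 ≤ M →
    (∀ g : CT, (∀ x, (g x).im = 0) → ‖L g‖ ≤ M * ∫ x, ‖g x‖ ∂m2) →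
    c * ((n + 1) * ((2:ℝ) ^ n) ^ (-r)) ≤ M := by
  obtain ⟨N, hN⟩ := exists_nat_ge (r + 1)
  obtain ⟨v, hv⟩ := ((tendsto_pow_atTop_atTop_of_one_lt one_lt_two).eventually_ge_atTop
    (8 * (1 + CJ ^ 2))).exists
  have hC0 := C0_pos
  have hCA := CA_pos r
  have hCD := CD_pos r N
  set K1 : ℝ := 2 + 2 * CD r N * (C0 * CA r ^ 2) with hK1
  set K2 : ℝ := 2 * (C0 * CA r ^ 2) with hK2
  set K3 : ℝ := 2 * CD r N * 2 ^ (v + 1) * ((2:ℝ) ^ v) ^ r with hK3
  have p1 : 0 < K1 := by positivity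
  have p2 : 0 < K2 := by positivity
  have p3 : 0 < K3 := by positivity
  obtain ⟨C, hC, hI⟩ := stepOne (η := 1 / (2 * (K1 + K2 * K3))) (by positivity)
  refine ⟨1 / (2 * K3 * C), by positivity, ?_⟩
  intro m n ξ lam θ L M hm h hL hM0 hM
  obtain ⟨B, hB, hmin⟩ := exists_least ((finite_good (n := n) hr h).of_le
    (fun a b w x => (om_pos n ξ a b w x).le) (om_le_wt n ξ))
  have a1 := hmin _ (hI n ξ L M _ hL hM0 hM (stepD hr hN h hB))
  have a2 := stepII hr hN hv hm h hB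
  set E : ℝ := (n + 1) * ((2:ℝ) ^ n) ^ (-r) with hE
  change B ≤ C * M + 1 / (2 * (K1 + K2 * K3)) * (K1 * B + K2 * E) at a1
  change E ≤ K3 * B at a2
  have a3 : 1 / (2 * (K1 + K2 * K3)) * (K1 * B + K2 * E) ≤ B / 2 := by
    calc _ ≤ 1 / (2 * (K1 + K2 * K3)) * (K1 * B + K2 * (K3 * B)) := by gcongr
      _ = B / 2 := by field_simp
  have a4 : B ≤ 2 * (C * M) := by linarith
  rw [one_div, inv_mul_le_iff₀ (by positivity)]
  calc E ≤ K3 * B := a2
    _ ≤ K3 * (2 * (C * M)) := by gcongr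
    _ = _ := by ring

end

end Pool.Agent.Lib.MP_21a4ea_an
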