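import Pool.Agent.Lib.MP_21a4ea_an.Smooth

namespace Pool.Agent.Lib.MP_21a4ea_an

open MeasureTheory Real Finset Filter
open scoped ComplexConjugate Topology

noncomputable section

variable {m : ℕ} {n : ℕ} {ξ : Fin m → TT} {lam : Fin m → ℂ} {L : CT →ₗ[ℂ] ℂ} {r θ : ℝ}

/-- values of the error functional on characters -/
def OnCh (L : CT →ₗ[ℂ] ℂ) (r θ : ℝ) (ξ : Fin m → TT) (lam : Fin m → ℂ) : Prop :=
  ∀ k : ℤ × ℤ, L (ch k) = sym (-r) (-θ) k.1 * sym (-r) (-θ) k.2 * ∑ μ, lam μ * ch k (ξ μ)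
    - if k = 0 then 1 else 0

lemma LA (h : OnCh L r θ ξ lam) (N : ℕ) {a b : ℕ} {g : CT} (hg : g ∈ Spec (Blk a) (Blk b)) :
    L g = Ls ξ lam N a b (op a b (muA r θ N a) (muA r θ N b) g) := by
  refine Spec_ext L (Ls ξ lam N a b ∘ₗ opL a b (muA r θ N a) (muA r θ N b)) (fun k k1 k2 => ?_) hg
  rw [LinearMap.comp_apply, opL_apply, op_ch (Mult_muA r θ N a) (Mult_muA r θ N b), map_smul,
    Ls_ch, h k, smul_eq_mul]
  have ne : ∀ (s : ℕ) (k : ℤ), Blk s k → es N s k ≠ 0 := fun s k hk h0 => by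
    have : (0:ℝ) < 2 ^ s := by positivity
    have := es_ge N s (k := k) (by linarith [hk.2])
    rw [h0] at this; norm_num at this
  have n1 := ne _ _ k1
  have n2 := ne _ _ k2
  unfold muA
  rw [Wid_one k1, Wid_one k2]
  split_ifs with h0
  · subst h0; simp [sym_zero, es_zero]
  · field_simp; ring

lemma LB (hr : 1 ≤ r) {N : ℕ} (hN : r + 1 ≤ N) (h : OnCh L r θ ξ lam) (a b u v : ℕ) {g : CT}
    (hg : g ∈ Spec (fun _ => True) (fun _ => True)) :
    Ls ξ lam N a b (op u v (Del u) (Del v) g) = L (op u v (muB r θ N a u) (muB r θ N b v) g) := by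
  refine Spec_ext (Ls ξ lam N a b ∘ₗ opL u v (Del u) (Del v))
    (L ∘ₗ opL u v (muB r θ N a u) (muB r θ N b v)) (fun k _ _ => ?_) hg
  rw [LinearMap.comp_apply, LinearMap.comp_apply, opL_apply, opL_apply,
    op_ch (Mult_Del _) (Mult_Del _), op_ch (Mult_muB hr θ hN a u) (Mult_muB hr θ hN b v),
    map_smul, map_smul, Ls_ch, h k, smul_eq_mul, smul_eq_mul]
  unfold muB
  split_ifs with h0
  · subst h0; simp [sym_zero, es_zero]
  · have e1 := sym_inv r θ k.1
    have e2 := sym_inv r θ k.2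
    set S := ∑ μ, lam μ * ch k (ξ μ)
    calc _ = Del u k.1 * Del v k.2 * es N a k.1 * es N b k.2 * S * (1 * 1) := by ring
      _ = Del u k.1 * Del v k.2 * es N a k.1 * es N b k.2 * S
          * ((sym r θ k.1 * sym (-r) (-θ) k.1) * (sym r θ k.2 * sym (-r) (-θ) k.2)) := by
          rw [e1, e2]
      _ = _ := by ring

lemma sum_shift (f : ℕ → ℝ) (h0 : ∀ u, 0 ≤ f u) {a R : ℕ} (ha : a ≤ R) :
    ∑ u ∈ range R, f u ≤ ∑ u ∈ range (2 * R), if R ≤ a + u then f (a + u - R) else 0 := by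
  have e : ∑ u ∈ range R, f u
      = ∑ u ∈ (range R).image (fun u => u + R - a), if R ≤ a + u then f (a + u - R) else 0 := by
    rw [Finset.sum_image (fun x _ y _ h => by omega)]
    refine Finset.sum_congr rfl fun u _ => ?_
    rw [if_pos (by omega)]; congr 1; omega
  rw [e]
  refine Finset.sum_le_sum_of_subset_of_nonneg (fun u hu => ?_) fun u _ _ => ?_
  · obtain ⟨x, hx, rfl⟩ := Finset.mem_image.mp hu
    rw [Finset.mem_range] at hx ⊢; omega
  · split_ifs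
    · exact h0 _
    · exact le_rfl

lemma geo2 (R : ℕ) : ∑ u ∈ range (2 * R), (3 / 4 : ℝ) ^ ((u - R) + (R - u)) ≤ 8 := by
  rw [two_mul, Finset.sum_range_add]
  have g := geo_le (r := 3 / 4) (by norm_num) (by norm_num) R
  have a1 : ∑ u ∈ range R, (3 / 4 : ℝ) ^ ((u - R) + (R - u)) ≤ ∑ u ∈ range R, (3 / 4 : ℝ) ^ u := by
    rw [← Finset.sum_range_reflect (fun u => (3 / 4 : ℝ) ^ u)]
    refine Finset.sum_le_sum fun u hu => ?_
    rw [Finset.mem_range] at hu
    exact pow_le_pow_of_le_one (by norm_num) (by norm_num) (by omega)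
  have a2 : ∑ u ∈ range R, (3 / 4 : ℝ) ^ ((R + u - R) + (R - (R + u)))
      = ∑ u ∈ range R, (3 / 4 : ℝ) ^ u :=
    Finset.sum_congr rfl fun u _ => by congr 1; omega
  norm_num at g
  linarith

def CD (r : ℝ) (N : ℕ) : ℝ := 128 * C0 * CB r N ^ 2

lemma CD_pos (r : ℝ) (N : ℕ) : 0 < CD r N := by
  unfold CD; have := C0_pos; have := CB_pos r N; positivity

lemma dec_poly (hr : 1 ≤ r) {N : ℕ} (hN : r + 1 ≤ N) (h : OnCh L r θ ξ lam) {B : ℝ}
    (hB : Good L (om n ξ) B) (t w : ℕ) (I : Finset ℕ) (σ τ : ℕ → ℕ) (p : ℕ → CT) {c : ℝ}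
    (hc : 0 < c) (hσ : Set.InjOn σ I)
    (hp : ∀ i ∈ I, σ i + τ i = t ∧ valid (σ i) (τ i) w ∧
      p i ∈ Spec (fun _ => True) (fun _ => True) ∧
      ∀ x, ‖p i x‖ ≤ 2 * c * rt (om n ξ (σ i) (τ i) w x)) :
    ∑ i ∈ I, ‖Ls ξ lam N (σ i) (τ i) (p i)‖ ≤ CD r N * c * ((2:ℝ) ^ t) ^ r * ((w + 1) * B) := by
  classical
  obtain ⟨R, hR, hRt⟩ := (((eventually_all_finset I).2 fun i hi => poly_bdd (hp i hi).2.2.1).and
    (eventually_ge_atTop t)).exists
  set f : ℕ → ℕ → ℕ → ℝ := fun i u v =>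
    ‖L (op u v (muB r θ N (σ i) u) (muB r θ N (τ i) v) (p i))‖ with hf
  have e1 : ∀ i ∈ I, ‖Ls ξ lam N (σ i) (τ i) (p i)‖ ≤ ∑ u ∈ range (2 * R), ∑ v ∈ range (2 * R),
      if R ≤ σ i + u ∧ R ≤ τ i + v then f i (σ i + u - R) (τ i + v - R) else 0 := fun i hi => by
    have d := decomp (p := 0) (p' := 0) (u := R) (v := R) (hR i hi)
      (fun k hk => ⟨by simpa using one_le_ww k, by simpa using hk⟩)
      (fun k hk => ⟨by simpa using one_le_ww k, by simpa using hk⟩)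
    simp only [zero_add] at d
    have ht := (hp i hi).1
    calc _ = ‖∑ u ∈ range R, ∑ v ∈ range R,
            L (op u v (muB r θ N (σ i) u) (muB r θ N (τ i) v) (p i))‖ := by
          nth_rewrite 1 [d]
          simp only [map_sum, LB hr hN h _ _ _ _ (hp i hi).2.2.1]
      _ ≤ ∑ u ∈ range R, ∑ v ∈ range R, f i u v :=
          (norm_sum_le _ _).trans (Finset.sum_le_sum fun u _ => norm_sum_le _ _)
      _ ≤ ∑ u ∈ range (2 * R), if R ≤ σ i + u then ∑ v ∈ range R, f i (σ i + u - R) v else 0 :=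
          sum_shift (fun u => ∑ v ∈ range R, f i u v)
            (fun u => Finset.sum_nonneg fun v _ => norm_nonneg _) (by omega)
      _ ≤ _ := by
          refine Finset.sum_le_sum fun u _ => ?_
          split_ifs with hu
          · refine (sum_shift (fun v => f i (σ i + u - R) v) (fun v => norm_nonneg _)
              (a := τ i) (by omega)).trans (le_of_eq ?_)
            simp only [hu, true_and]
          · simp [hu]
  have hC0 := C0_pos
  have hCB := CB_pos r N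
  have hB0 := hB.nonneg
  set K : ℝ := 2 * C0 * CB r N ^ 2 * c * ((2:ℝ) ^ t) ^ r * ((w + 1) * B) with hK
  have hK0 : 0 ≤ K := by positivity
  have e2 : ∀ u v, (∑ i ∈ I,
      if R ≤ σ i + u ∧ R ≤ τ i + v then f i (σ i + u - R) (τ i + v - R) else 0)
      ≤ K * ((3 / 4) ^ ((u - R) + (R - u)) * (3 / 4) ^ ((v - R) + (R - v))) := fun u v => by
    rw [← Finset.sum_filter]
    set D1 := (u - R) + (R - u) with hD1
    set D2 := (v - R) + (R - v) with hD2
    have := hB.scaled (t + u + v - 2 * R) (w - (D1 + D2))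
      (I.filter fun i => R ≤ σ i + u ∧ R ≤ τ i + v) (fun i => σ i + u - R) (fun i => τ i + v - R)
      (fun i => op (σ i + u - R) (τ i + v - R) (muB r θ N (σ i) (σ i + u - R))
        (muB r θ N (τ i) (τ i + v - R)) (p i))
      (c := 2 * C0 * CB r N ^ 2 * c * ((2:ℝ) ^ t) ^ r * ((3 / 4) ^ D1 * (3 / 4) ^ D2))
      (by positivity) ?_ ?_
    · refine this.trans ?_
      have : ((w - (D1 + D2) : ℕ) : ℝ) ≤ w := by exact_mod_cast Nat.sub_le _ _
      calc _ ≤ 2 * C0 * CB r N ^ 2 * c * ((2:ℝ) ^ t) ^ r * ((3 / 4) ^ D1 * (3 / 4) ^ D2)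
            * ((w + 1) * B) := by gcongr
        _ = _ := by rw [hK]; ring
    · intro i hi j hj e
      obtain ⟨hi1, hi2⟩ := Finset.mem_filter.mp hi
      obtain ⟨hj1, hj2⟩ := Finset.mem_filter.mp hj
      simp only at e
      exact hσ hi1 hj1 (by omega)
    · intro i hi
      obtain ⟨hi1, hi2⟩ := Finset.mem_filter.mp hi
      obtain ⟨p1, p2, p3, p4⟩ := hp i hi1
      refine ⟨by omega, by unfold valid at p2 ⊢; omega,
        op_mem _ (fun k hk => Del_blk (right_ne_zero_of_mul hk))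
          (fun k hk => Del_blk (right_ne_zero_of_mul hk)), fun x => ?_⟩
      have q1 : ∀ z, ‖p i z‖ ≤ 2 * c * (3 / 2) ^ (D1 + D2)
          * rt (om n ξ (σ i + u - R) (τ i + v - R) (w - (D1 + D2)) z) := fun z => by
        refine (p4 z).trans ?_
        rw [mul_assoc (2 * c)]
        refine mul_le_mul_of_nonneg_left (rt_le_mul (om_pos n ξ _ _ _ _).le (om_pos n ξ _ _ _ _).le
          (by positivity) ((om_cmp n ξ (D := D1 + D2) (a' := σ i + u - R) (b' := τ i + v - R)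
            (by omega) z).trans ?_)) (by positivity)
        refine mul_le_mul_of_nonneg_right ?_ (om_pos n ξ _ _ _ _).le
        rw [← pow_mul, mul_comm (D1 + D2), pow_mul]
        exact pow_le_pow_left₀ (by norm_num) (by norm_num) _
      have := master_mod (Mult_muB hr θ hN (σ i) (σ i + u - R)) (Mult_muB hr θ hN (τ i) (τ i + v - R))
        (fun x => (om_pos n ξ _ _ _ x).le) (om_mod n ξ _ _ _) (by positivity) q1 x
      refine this.trans (le_of_eq ?_)
      rw [show σ i + u - R - σ i + (σ i - (σ i + u - R)) = D1 by omega,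
        show τ i + v - R - τ i + (τ i - (τ i + v - R)) = D2 by omega, ← p1, pow_add (2:ℝ),
        Real.mul_rpow (by positivity) (by positivity), pow_add,
        show (3 / 4 : ℝ) = 1 / 2 * (3 / 2) by norm_num, mul_pow, mul_pow]
      ring
  calc _ ≤ _ := Finset.sum_le_sum e1
    _ = ∑ u ∈ range (2 * R), ∑ v ∈ range (2 * R), ∑ i ∈ I,
        if R ≤ σ i + u ∧ R ≤ τ i + v then f i (σ i + u - R) (τ i + v - R) else 0 := by
        rw [Finset.sum_comm]
        exact Finset.sum_congr rfl fun u _ => Finset.sum_comm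
    _ ≤ ∑ u ∈ range (2 * R), ∑ v ∈ range (2 * R),
        K * ((3 / 4) ^ ((u - R) + (R - u)) * (3 / 4) ^ ((v - R) + (R - v))) :=
        Finset.sum_le_sum fun u _ => Finset.sum_le_sum fun v _ => e2 u v
    _ = K * ((∑ u ∈ range (2 * R), (3 / 4) ^ ((u - R) + (R - u)))
        * ∑ v ∈ range (2 * R), (3 / 4) ^ ((v - R) + (R - v))) := by
        rw [Finset.sum_mul_sum, Finset.mul_sum]
        exact Finset.sum_congr rfl fun u _ => by rw [Finset.mul_sum]
    _ ≤ K * (8 * 8) := mul_le_mul_of_nonneg_left (mul_le_mul (geo2 R) (geo2 R)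
        (Finset.sum_nonneg fun _ _ => by positivity) (by norm_num)) hK0
    _ = _ := by rw [hK]; unfold CD; ring

lemma dec (hr : 1 ≤ r) {N : ℕ} (hN : r + 1 ≤ N) (h : OnCh L r θ ξ lam) {B : ℝ}
    (hB : Good L (om n ξ) B) (t w : ℕ) (I : Finset ℕ) (σ τ : ℕ → ℕ) (φ : ℕ → CT) {c : ℝ}
    (hc : 0 < c) (hσ : Set.InjOn σ I)
    (hφ : ∀ i ∈ I, σ i + τ i = t ∧ valid (σ i) (τ i) w ∧
      ∀ x, ‖φ i x‖ ≤ c * rt (om n ξ (σ i) (τ i) w x)) :
    ∑ i ∈ I, ‖Ls ξ lam N (σ i) (τ i) (φ i)‖ ≤ CD r N * c * ((2:ℝ) ^ t) ^ r * ((w + 1) * B) := by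
  refine le_of_forall_pos_le_add fun ε hε => ?_
  set Λ : ℝ := ∑ μ, ‖lam μ‖ + 1 with hΛ
  have hΛ0 : 0 < Λ := by
    have : 0 ≤ ∑ μ, ‖lam μ‖ := Finset.sum_nonneg fun _ _ => norm_nonneg _
    linarith
  set ε' : ℝ := ε / ((I.card + 1) * Λ) with hε'
  have hε0 : 0 < ε' := by positivity
  have ex : ∀ i, ∃ p ∈ Spec (fun _ => True) (fun _ => True), ∀ x, ‖p x - φ i x‖ ≤ ε' ∧
      ‖p x - φ i x‖ ≤ c * rt (om n ξ (σ i) (τ i) w x) := fun i => by
    obtain ⟨x0, -, hx0⟩ := isCompact_univ.exists_isMinOn Set.univ_nonempty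
      (om_cont n ξ (σ i) (τ i) w).continuousOn
    obtain ⟨p, hp, hp2⟩ := poly_dense (φ i) (ε := min ε' (c * rt (om n ξ (σ i) (τ i) w x0)))
      (lt_min hε0 (mul_pos hc (rt_pos (om_pos n ξ _ _ _ _))))
    refine ⟨p, hp, fun x => ⟨(hp2 x).trans (min_le_left _ _),
      (hp2 x).trans ((min_le_right _ _).trans ?_)⟩⟩
    exact mul_le_mul_of_nonneg_left (rt_mono (om_pos n ξ _ _ _ _).le (hx0 (Set.mem_univ x))) hc.le
  choose p hp hp2 using ex
  have a1 := dec_poly hr hN h hB t w I σ τ p hc hσ fun i hi =>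
    ⟨(hφ i hi).1, (hφ i hi).2.1, hp i, fun x => by
      have b1 := (hφ i hi).2.2 x
      have b2 := (hp2 i x).2
      have b3 : ‖p i x‖ ≤ ‖p i x - φ i x‖ + ‖φ i x‖ := by
        simpa using norm_add_le (p i x - φ i x) (φ i x)
      linarith⟩
  have a2 : ∀ i ∈ I, ‖Ls ξ lam N (σ i) (τ i) (φ i)‖
      ≤ ‖Ls ξ lam N (σ i) (τ i) (p i)‖ + Λ * ε' := fun i _ => by
    have b1 := Ls_le ξ lam N (σ i) (τ i) (φ := p i - φ i) fun x => (hp2 i x).1
    rw [map_sub] at b1
    have b2 := norm_sub_le (Ls ξ lam N (σ i) (τ i) (p i))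
      (Ls ξ lam N (σ i) (τ i) (p i) - Ls ξ lam N (σ i) (τ i) (φ i))
    rw [sub_sub_cancel] at b2
    linarith
  refine (Finset.sum_le_sum a2).trans ?_
  rw [Finset.sum_add_distrib, Finset.sum_const, nsmul_eq_mul]
  have a3 : (I.card : ℝ) * (Λ * ε') ≤ ε := by
    have : (I.card + 1 : ℝ) * (Λ * ε') = ε := by rw [hε']; field_simp
    nlinarith [mul_pos hΛ0 hε0]
  linarith

end

end Pool.Agent.Lib.MP_21a4ea_an
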