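import Mathlib

namespace Pool.Agent.Lib.MP_21a4ea_an

open MeasureTheory

noncomputable section

/-- the univariate kernel F_r(x, α) -/
def F (r α x : ℝ) : ℝ :=
  1 + 2 * ∑' k : ℕ, ((k : ℝ) + 1) ^ (-r) * Real.cos (((k : ℝ) + 1) * x - α * Real.pi / 2)

/-- the period cell [0, 2π)² -/
def cell : Set (ℝ × ℝ) := Set.Ico 0 (2 * Real.pi) ×ˢ Set.Ico 0 (2 * Real.pi)

/-- integral over the torus for the normalised measure -/
def avg {E : Type} [NormedAddCommGroup E] [NormedSpace ℝ E] (f : ℝ × ℝ → E) : E :=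
  ((2 * Real.pi) ^ 2)⁻¹ • ∫ x in cell, f x

/-- the class W^r_{1,α} -/
def W (K : Type) [RCLike K] (r α : ℝ) : Set (ℝ × ℝ → K) :=
  {f | ∃ φ : ℝ × ℝ → K, φ.Periodic (2 * Real.pi, 0) ∧ φ.Periodic (0, 2 * Real.pi) ∧
    IntegrableOn φ cell ∧ avg (fun x => ‖φ x‖) ≤ 1 ∧
    f = fun x => avg fun y => φ (x - y) * ((F r α y.1 * F r α y.2 : ℝ) : K)}

/-- the optimal error of cubature formulas with m nodes and arbitrary weights -/
def kappa (K : Type) [RCLike K] (r α : ℝ) (m : ℕ) : ENNReal :=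
  ⨅ (lam : Fin m → K) (ξ : Fin m → ℝ × ℝ), ⨆ f ∈ W K r α, ‖∑ μ, lam μ * f (ξ μ) - avg f‖ₑ

end

end Pool.Agent.Lib.MP_21a4ea_an
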