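import Pool.Agent.Lib.MP_21a4ea_an.Good

namespace Pool.Agent.Lib.MP_21a4ea_an

open Real Finset

noncomputable section

lemma cassini (j : ℕ) : (((Nat.fib (j + 1) : ℤ)) ^ 2 + Nat.fib (j + 1) * Nat.fib (j + 2)
    - (Nat.fib (j + 2) : ℤ) ^ 2) ^ 2 = 1 := by
  induction j with
  | zero => simp [Nat.fib_add_two]
  | succ j ih =>
    have : Nat.fib (j + 1 + 2) = Nat.fib (j + 1) + Nat.fib (j + 2) := Nat.fib_add_two
    rw [this]
    push_cast
    linear_combination ih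

lemma five_sq {x y : ℤ} (h : x ^ 2 = 5 * y ^ 2) : y = 0 := by
  by_contra hy
  have hi := Nat.prime_five.irrational_sqrt
  refine hi.ne_rational |x| |y| ?_
  have hy' : ((|y| : ℤ) : ℝ) ≠ 0 := by simpa using hy
  rw [Real.sqrt_eq_iff_mul_self_eq (by norm_num) (by positivity)]
  have : (x:ℝ) ^ 2 = 5 * (y:ℝ) ^ 2 := by exact_mod_cast h
  push_cast at hy' ⊢
  field_simp
  rw [sq_abs, sq_abs]; linarith

lemma zaremba {a b P k l : ℤ} (ha : 0 ≤ a) (hab : a ≤ b) (hc : (a ^ 2 + a * b - b ^ 2) ^ 2 = 1)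
    (hP : 8 * P ≤ b) (hd : b ∣ k + a * l) (h1 : |k| < P) (h2 : |l| < P) (h3 : |k| * |l| < P) :
    k = 0 ∧ l = 0 := by
  obtain ⟨c, hc2⟩ := hd
  have P0 : 0 < P := lt_of_le_of_lt (abs_nonneg _) h1
  have b0 : 0 < b := by linarith
  have id : b ^ 2 * (c ^ 2 + c * l - l ^ 2)
      = (a ^ 2 + a * b - b ^ 2) * l ^ 2 + (2 * a + b) * (k * l) + k ^ 2 := by
    have : k = b * c - a * l := by linarith
    rw [this]; ring
  by_cases h0 : c ^ 2 + c * l - l ^ 2 = 0
  · have hl : l = 0 := five_sq (x := 2 * c + l) (by linear_combination 4 * h0)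
    subst hl
    have : c = 0 := by simpa using h0
    subst this
    exact ⟨by simpa using hc2, rfl⟩
  · exfalso
    have a1 : 1 ≤ |c ^ 2 + c * l - l ^ 2| := Int.one_le_abs h0
    have a2 : |a ^ 2 + a * b - b ^ 2| = 1 := by
      rw [← sq_eq_sq₀ (abs_nonneg _) zero_le_one, sq_abs, hc]; norm_num
    have a3 : |b ^ 2 * (c ^ 2 + c * l - l ^ 2)| ≤ |l| ^ 2 + 3 * b * (|k| * |l|) + |k| ^ 2 := by
      rw [id]
      refine (abs_add_three _ _ _).trans ?_
      rw [abs_mul, a2, abs_mul, abs_mul k, abs_pow, abs_pow, abs_of_nonneg (by linarith : 0 ≤ 2 * a + b)]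
      have : 0 ≤ |k| * |l| := by positivity
      nlinarith
    rw [abs_mul, abs_of_nonneg (sq_nonneg b)] at a3
    have a4 : |k| ^ 2 ≤ P ^ 2 := pow_le_pow_left₀ (abs_nonneg _) h1.le 2
    have a5 : |l| ^ 2 ≤ P ^ 2 := pow_le_pow_left₀ (abs_nonneg _) h2.le 2
    have a6 : 64 * P ^ 2 ≤ b ^ 2 := by nlinarith
    nlinarith

lemma ediv_close {x y d : ℤ} (hd : 0 < d) (h : x / d = y / d) : |x - y| < d := by
  have a1 := Int.emod_add_mul_ediv x d
  have a2 := Int.emod_add_mul_ediv y d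
  have a3 := Int.emod_nonneg x hd.ne'
  have a4 := Int.emod_nonneg y hd.ne'
  have a5 := Int.emod_lt_of_pos x hd
  have a6 := Int.emod_lt_of_pos y hd
  rw [h] at a1
  rw [abs_lt]; constructor <;> linarith

lemma count_le {a b : ℤ} {p u v : ℕ} (ha : 0 ≤ a) (hab : a ≤ b)
    (hc : (a ^ 2 + a * b - b ^ 2) ^ 2 = 1) (hP : 8 * 2 ^ p ≤ b) (s : Finset (ℤ × ℤ))
    (hs : ∀ k ∈ s, k ≠ 0 ∧ b ∣ k.1 + a * k.2 ∧ |k.1| < 2 ^ (u + 1) ∧ |k.2| < 2 ^ (v + 1)) :
    (s.card : ℝ) ≤ if p - 1 ≤ u + v then 16 * 2 ^ (u + v) / 2 ^ p else 0 := by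
  have box : ∀ {i j : ℕ} {k l : ℤ}, i + j ≤ p → b ∣ k + a * l → |k| < 2 ^ i → |l| < 2 ^ j →
      k = 0 ∧ l = 0 := fun {i j k l} hij hd h1 h2 => by
    have c1 : (2:ℤ) ^ i ≤ 2 ^ p := pow_le_pow_right₀ (by norm_num) (by omega)
    have c2 : (2:ℤ) ^ j ≤ 2 ^ p := pow_le_pow_right₀ (by norm_num) (by omega)
    have c3 : (2:ℤ) ^ (i + j) ≤ 2 ^ p := pow_le_pow_right₀ (by norm_num) hij
    refine zaremba ha hab hc hP hd (h1.trans_le c1) (h2.trans_le c2) (lt_of_lt_of_le ?_ c3)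
    rw [pow_add]
    exact mul_lt_mul'' h1 h2 (abs_nonneg _) (abs_nonneg _)
  split_ifs with h
  · set i := min (u + 2) p with hi
    set j := p - i with hj
    have hi2 : i ≤ u + 2 := min_le_left _ _
    have hj2 : j ≤ v + 2 := by omega
    have rng : ∀ {w e : ℕ} {k : ℤ}, e ≤ w + 2 → |k| < 2 ^ (w + 1) →
        (k + 2 ^ (w + 1)) / 2 ^ e ∈ Finset.Ico (0:ℤ) (2 ^ (w + 2 - e)) := fun {w e k} he hk => by
      rw [abs_lt] at hk
      rw [Finset.mem_Ico]
      refine ⟨Int.ediv_nonneg (by linarith) (by positivity), ?_⟩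
      rw [Int.ediv_lt_iff_lt_mul (by positivity), ← pow_add, show w + 2 - e + e = w + 1 + 1 by omega,
        pow_succ 2 (w + 1)]
      linarith
    have := Finset.card_le_card_of_injOn
      (t := Finset.Ico (0:ℤ) (2 ^ (u + 2 - i)) ×ˢ Finset.Ico (0:ℤ) (2 ^ (v + 2 - j)))
      (fun k : ℤ × ℤ => ((k.1 + 2 ^ (u + 1)) / 2 ^ i, (k.2 + 2 ^ (v + 1)) / 2 ^ j))
      (s := s) (fun k hk => by
        rw [Finset.mem_coe, Finset.mem_product]
        exact ⟨rng hi2 (hs k hk).2.2.1, rng hj2 (hs k hk).2.2.2⟩)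
      (fun k hk l hl e => by
        rw [Prod.mk.injEq] at e
        have e1 := ediv_close (by positivity) e.1
        have e2 := ediv_close (by positivity) e.2
        rw [add_sub_add_right_eq_sub] at e1 e2
        have := box (by omega) (by
          have := dvd_sub (hs k hk).2.1 (hs l hl).2.1
          rwa [show k.1 + a * k.2 - (l.1 + a * l.2) = (k.1 - l.1) + a * (k.2 - l.2) by ring] at this)
          e1 e2
        exact Prod.ext (sub_eq_zero.mp this.1) (sub_eq_zero.mp this.2))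
    rw [Finset.card_product, Int.card_Ico, Int.card_Ico, sub_zero, sub_zero] at this
    have t1 : ∀ e : ℕ, ((2:ℤ) ^ e).toNat = 2 ^ e := fun e => by
      rw [show (2:ℤ) ^ e = ((2 ^ e : ℕ) : ℤ) by push_cast; rfl, Int.toNat_natCast]
    rw [t1, t1, ← pow_add] at this
    rw [le_div_iff₀ (by positivity), show (16:ℝ) = 2 ^ 4 by norm_num, ← pow_add,
      show 4 + (u + v) = (u + 2 - i + (v + 2 - j)) + p by omega, pow_add]
    refine mul_le_mul_of_nonneg_right ?_ (by positivity)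
    exact_mod_cast this
  · have : s = ∅ := Finset.eq_empty_of_forall_notMem fun k hk => by
      obtain ⟨h0, h1, h2, h3⟩ := hs k hk
      have := box (by omega) h1 h2 h3
      exact h0 (Prod.ext this.1 this.2)
    simp [this]

lemma tail_le {q : ℝ} (h0 : 0 ≤ q) (h1 : q < 1) (p R : ℕ) :
    ∑ t ∈ range R, (if p ≤ t then q ^ t else 0) ≤ q ^ p * (1 - q)⁻¹ := by
  rw [← Finset.sum_filter]
  have : (range R).filter (fun t => p ≤ t) = Finset.Ico p R := by
    ext t; simp only [Finset.mem_filter, Finset.mem_range, Finset.mem_Ico]; tauto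
  rw [this, Finset.sum_Ico_eq_sum_range]
  simp only [pow_add, ← Finset.mul_sum]
  exact mul_le_mul_of_nonneg_left (geo_le h0 h1 _) (by positivity)

lemma tail2_le {q : ℝ} (h0 : 0 ≤ q) (h1 : q < 1) (p R : ℕ) :
    ∑ u ∈ range R, ∑ v ∈ range R, (if p ≤ u + v then q ^ (u + v) else 0)
      ≤ (p + (1 - q)⁻¹) * q ^ p * (1 - q)⁻¹ := by
  have i0 : 0 < (1 - q)⁻¹ := inv_pos.mpr (by linarith)
  have a1 : ∀ u ∈ range R, ∑ v ∈ range R, (if p ≤ u + v then q ^ (u + v) else 0)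
      ≤ ((if u ∈ range p then q ^ p else 0) + (if p ≤ u then q ^ u else 0)) * (1 - q)⁻¹ := by
    intro u _
    have b1 := mul_le_mul_of_nonneg_left (tail_le h0 h1 (p - u) R) (pow_nonneg h0 u)
    rw [Finset.mul_sum, ← mul_assoc, ← pow_add] at b1
    refine le_trans (le_of_eq (Finset.sum_congr rfl fun v _ => ?_)) (b1.trans (le_of_eq ?_))
    · by_cases h : p ≤ u + v
      · rw [if_pos h, if_pos (by omega), pow_add]
      · rw [if_neg h, if_neg (by omega), mul_zero]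
    · congr 1
      by_cases h : p ≤ u
      · rw [if_neg (by simpa using h), if_pos h, zero_add]; congr 1; omega
      · rw [if_pos (by simpa using h), if_neg h, add_zero]; congr 1; omega
  refine (Finset.sum_le_sum a1).trans ?_
  rw [← Finset.sum_mul, Finset.sum_add_distrib]
  refine mul_le_mul_of_nonneg_right ?_ i0.le
  have b1 : ∑ u ∈ range R, (if u ∈ range p then q ^ p else 0) ≤ p * q ^ p := by
    rw [Finset.sum_ite_mem, Finset.sum_const, nsmul_eq_mul]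
    refine mul_le_mul_of_nonneg_right ?_ (by positivity)
    have := Finset.card_le_card (Finset.inter_subset_right (s₁ := range R) (s₂ := range p))
    rw [Finset.card_range] at this
    exact_mod_cast this
  have b2 := tail_le h0 h1 p R
  linarith

def lg (k : ℤ) : ℕ := Nat.log 2 k.natAbs

lemma lg_le (k : ℤ) : (2:ℝ) ^ lg k ≤ ww k := by
  by_cases h : k = 0
  · subst h; simp [lg, ww_zero]
  · have := Nat.pow_log_le_self 2 (Int.natAbs_ne_zero.mpr h)
    rw [ww_of_ne h, ← Int.cast_abs, Int.abs_eq_natAbs, Int.cast_natCast]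
    exact_mod_cast this

lemma lt_lg (k : ℤ) : |k| < 2 ^ (lg k + 1) := by
  have := Nat.lt_pow_succ_log_self (b := 2) one_lt_two k.natAbs
  rw [Int.abs_eq_natAbs]
  exact_mod_cast this

lemma lattice_sum {r : ℝ} (hr : 1 < r) {a b : ℤ} {p : ℕ} (ha : 0 ≤ a) (hab : a ≤ b)
    (hc : (a ^ 2 + a * b - b ^ 2) ^ 2 = 1) (hP : 8 * 2 ^ p ≤ b) (s : Finset (ℤ × ℤ))
    (hs : ∀ k ∈ s, k ≠ 0 ∧ b ∣ k.1 + a * k.2) :
    ∑ k ∈ s, ww k.1 ^ (-r) * ww k.2 ^ (-r)
      ≤ 16 * ((2:ℝ) ^ (1 - r))⁻¹ * (1 - (2:ℝ) ^ (1 - r))⁻¹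
        * ((p + (1 - (2:ℝ) ^ (1 - r))⁻¹) * ((2:ℝ) ^ p) ^ (-r)) := by
  classical
  set q : ℝ := (2:ℝ) ^ (1 - r) with hq
  have q0 : 0 < q := by positivity
  have q1 : q < 1 := Real.rpow_lt_one_of_one_lt_of_neg one_lt_two (by linarith)
  have qp : ∀ t : ℕ, q ^ t = 2 ^ t * ((2:ℝ) ^ t) ^ (-r) := fun t => by
    rw [hq, ← Real.rpow_natCast, ← Real.rpow_mul (by norm_num), mul_comm, Real.rpow_mul (by norm_num),
      Real.rpow_natCast, sub_eq_add_neg, Real.rpow_add (by positivity), Real.rpow_one]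
  obtain ⟨R, hR⟩ : ∃ R, ∀ k ∈ s, (lg k.1, lg k.2) ∈ range R ×ˢ range R := by
    refine ⟨s.sup (fun k => lg k.1 + lg k.2) + 1, fun k hk => ?_⟩
    have := Finset.le_sup (f := fun k : ℤ × ℤ => lg k.1 + lg k.2) hk
    simp only [Finset.mem_product, Finset.mem_range] at this ⊢
    omega
  rw [← Finset.sum_fiberwise_of_maps_to hR, Finset.sum_product]
  have a1 : ∀ u v : ℕ, ∑ k ∈ s with (lg k.1, lg k.2) = (u, v), ww k.1 ^ (-r) * ww k.2 ^ (-r)
      ≤ 16 / 2 ^ p * (if p - 1 ≤ u + v then q ^ (u + v) else 0) := fun u v => by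
    have b1 : ∀ k ∈ s.filter fun k => (lg k.1, lg k.2) = (u, v),
        ww k.1 ^ (-r) * ww k.2 ^ (-r) ≤ ((2:ℝ) ^ (u + v)) ^ (-r) := fun k hk => by
      have e := (Finset.mem_filter.mp hk).2
      rw [Prod.mk.injEq] at e
      rw [← Real.mul_rpow (ww_pos _).le (ww_pos _).le, pow_add, ← e.1, ← e.2]
      exact Real.rpow_le_rpow_of_nonpos (by positivity)
        (mul_le_mul (lg_le _) (lg_le _) (by positivity) (ww_pos _).le) (by linarith)
    have b2 := Finset.sum_le_card_nsmul _ _ _ b1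
    rw [nsmul_eq_mul] at b2
    have b3 := count_le (u := u) (v := v) ha hab hc hP
      (s.filter fun k => (lg k.1, lg k.2) = (u, v)) fun k hk => by
        obtain ⟨c1, e⟩ := Finset.mem_filter.mp hk
        rw [Prod.mk.injEq] at e
        exact ⟨(hs k c1).1, (hs k c1).2, e.1 ▸ lt_lg k.1, e.2 ▸ lt_lg k.2⟩
    refine b2.trans ((mul_le_mul_of_nonneg_right b3 (by positivity)).trans (le_of_eq ?_))
    split_ifs
    · rw [qp]; ring
    · simp
  refine (Finset.sum_le_sum fun u _ => Finset.sum_le_sum fun v _ => a1 u v).trans ?_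
  simp only [← Finset.mul_sum]
  have i0 : 0 < (1 - q)⁻¹ := inv_pos.mpr (by linarith)
  have a2 := tail2_le q0.le q1 (p - 1) R
  have a3 : q ^ (p - 1) ≤ q⁻¹ * q ^ p := by
    rw [le_inv_mul_iff₀ q0, ← pow_succ']
    exact pow_le_pow_of_le_one q0.le q1.le (by omega)
  have a4 : ((p - 1 : ℕ) : ℝ) ≤ p := by exact_mod_cast Nat.sub_le _ _
  calc _ ≤ 16 / 2 ^ p * ((((p - 1 : ℕ) : ℝ) + (1 - q)⁻¹) * q ^ (p - 1) * (1 - q)⁻¹) := by gcongr
    _ ≤ 16 / 2 ^ p * ((p + (1 - q)⁻¹) * (q⁻¹ * q ^ p) * (1 - q)⁻¹) := by gcongr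
    _ = _ := by rw [qp]; field_simp

end

end Pool.Agent.Lib.MP_21a4ea_an
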