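import Pool.Agent.Lib.MP_21a4ea_an.Tilt

namespace Pool.Agent.Lib.MP_21a4ea_an

open MeasureTheory Real Finset
open scoped ComplexConjugate

noncomputable section

def valid (a b w : ℕ) : Prop := w = 0 ∨ (w + 1 ≤ a ∧ w + 1 ≤ b)

/-- uniform bound for admissible families on one level -/
def Good (L : CT →ₗ[ℂ] ℂ) (q : ℕ → ℕ → ℕ → TT → ℝ) (A : ℝ) : Prop :=
  ∀ (t w : ℕ) (I : Finset ℕ) (σ τ : ℕ → ℕ) (g : ℕ → CT), Set.InjOn σ I →
    (∀ i ∈ I, σ i + τ i = t ∧ valid (σ i) (τ i) w ∧ g i ∈ Spec (Blk (σ i)) (Blk (τ i)) ∧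
      ∀ x, ‖g i x‖ ≤ rt (q (σ i) (τ i) w x)) → ∑ i ∈ I, ‖L (g i)‖ ≤ (w + 1) * A

variable {L : CT →ₗ[ℂ] ℂ} {q : ℕ → ℕ → ℕ → TT → ℝ}

lemma Good.nonneg {A : ℝ} (h : Good L q A) : 0 ≤ A := by
  have := h 0 0 ∅ id id (fun _ => 0) (by simp) (by simp)
  simpa using this

lemma Good.scaled {A : ℝ} (h : Good L q A) (t w : ℕ) (I : Finset ℕ) (σ τ : ℕ → ℕ) (g : ℕ → CT)
    {c : ℝ} (hc : 0 < c) (hσ : Set.InjOn σ I)
    (hg : ∀ i ∈ I, σ i + τ i = t ∧ valid (σ i) (τ i) w ∧ g i ∈ Spec (Blk (σ i)) (Blk (τ i)) ∧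
      ∀ x, ‖g i x‖ ≤ c * rt (q (σ i) (τ i) w x)) : ∑ i ∈ I, ‖L (g i)‖ ≤ c * ((w + 1) * A) := by
  have := h t w I σ τ (fun i => ((c⁻¹ : ℝ) : ℂ) • g i) hσ fun i hi => by
    obtain ⟨h1, h2, h3, h4⟩ := hg i hi
    refine ⟨h1, h2, Submodule.smul_mem _ _ h3, fun x => ?_⟩
    rw [ContinuousMap.smul_apply, norm_smul, Complex.norm_real, Real.norm_eq_abs,
      abs_of_pos (inv_pos.mpr hc), inv_mul_le_iff₀ hc]
    exact h4 x
  simp only [map_smul, norm_smul, Complex.norm_real, Real.norm_eq_abs,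
    abs_of_pos (inv_pos.mpr hc), ← Finset.mul_sum] at this
  rwa [inv_mul_le_iff₀ hc] at this

lemma good_of_canon {A : ℝ} (h : ∀ (t w : ℕ) (I : Finset ℕ) (g : ℕ → CT),
    (∀ j ∈ I, j ≤ t ∧ valid j (t - j) w ∧ g j ∈ Spec (Blk j) (Blk (t - j)) ∧
      ∀ x, ‖g j x‖ ≤ rt (q j (t - j) w x)) → ∑ j ∈ I, ‖L (g j)‖ ≤ (w + 1) * A) : Good L q A := by
  intro t w I σ τ g hσ hg
  have := h t w (I.image σ) (fun j => g (Function.invFunOn σ I j)) fun j hj => by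
    obtain ⟨i, hi, rfl⟩ := Finset.mem_image.mp hj
    rw [hσ.leftInvOn_invFunOn hi]
    obtain ⟨h1, h2, h3, h4⟩ := hg i hi
    have e : t - σ i = τ i := by omega
    rw [e]
    exact ⟨by omega, h2, h3, h4⟩
  rw [Finset.sum_image hσ] at this
  refine le_of_eq_of_le (Finset.sum_congr rfl fun i hi => ?_) this
  rw [hσ.leftInvOn_invFunOn hi]

lemma exists_least {A : ℝ} (h : Good L q A) : ∃ B, Good L q B ∧ ∀ X, Good L q X → B ≤ X := by
  refine ⟨sInf {X | Good L q X}, ?_, fun X hX => csInf_le ⟨0, fun _ hY => Good.nonneg hY⟩ hX⟩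
  intro t w I σ τ g hσ hg
  have hw : (0:ℝ) < w + 1 := by positivity
  rw [← div_le_iff₀' hw]
  refine le_csInf ⟨A, h⟩ fun X hX => ?_
  rw [div_le_iff₀' hw]
  exact hX t w I σ τ g hσ hg

lemma Good.of_le {q' : ℕ → ℕ → ℕ → TT → ℝ} {A : ℝ} (h : Good L q A)
    (h0 : ∀ a b w x, 0 ≤ q' a b w x) (hq : ∀ a b w x, q' a b w x ≤ q a b w x) : Good L q' A := by
  intro t w I σ τ g hσ hg
  refine h t w I σ τ g hσ fun i hi => ?_
  obtain ⟨h1, h2, h3, h4⟩ := hg i hi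
  exact ⟨h1, h2, h3, fun x => (h4 x).trans (rt_mono (h0 _ _ _ _) (hq _ _ _ _))⟩

/-- real part -/
def reP (g : CT) : CT := (1 / 2 : ℂ) • (g + star g)

lemma reP_apply (g : CT) (x : TT) : reP g x = ((g x).re : ℂ) := by
  unfold reP
  simp only [ContinuousMap.smul_apply, ContinuousMap.add_apply, ContinuousMap.star_apply,
    RCLike.star_def, smul_eq_mul]
  rw [Complex.add_conj]; push_cast; ring

lemma reP_mem {P Q : ℤ → Prop} (hP : ∀ k, P k → P (-k)) (hQ : ∀ k, Q k → Q (-k)) {g : CT}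
    (hg : g ∈ Spec P Q) : reP g ∈ Spec P Q :=
  Submodule.smul_mem _ _ (add_mem hg (Spec_star hg hP hQ))

lemma L_reP (hL : ∀ g, L (star g) = conj (L g)) (g : CT) : L (reP g) = ((L g).re : ℂ) := by
  unfold reP
  rw [map_smul, map_add, hL, Complex.add_conj, smul_eq_mul]; push_cast; ring

lemma exists_rot (hL : ∀ g, L (star g) = conj (L g)) (g : CT) :
    ∃ g' : CT, (∀ x, (g' x).im = 0) ∧ (∀ x, ‖g' x‖ ≤ ‖g x‖) ∧ L g' = (‖L g‖ : ℝ) ∧
      ∀ P Q : ℤ → Prop, (∀ k, P k → P (-k)) → (∀ k, Q k → Q (-k)) →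
        g ∈ Spec P Q → g' ∈ Spec P Q := by
  obtain ⟨c, hc1, hc2⟩ := Complex.exists_norm_eq_mul_self (L g)
  refine ⟨reP (c • g), fun x => by rw [reP_apply]; simp, fun x => ?_, ?_, fun P Q hP hQ hg =>
    reP_mem hP hQ (Submodule.smul_mem _ _ hg)⟩
  · rw [reP_apply, Complex.norm_real]
    refine (Complex.abs_re_le_norm _).trans ?_
    rw [ContinuousMap.smul_apply, norm_smul, hc1, one_mul]
  · rw [L_reP hL, map_smul, smul_eq_mul, ← hc2]; simp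

lemma L_le (hL : ∀ g, L (star g) = conj (L g)) {M : ℝ} (hM0 : 0 ≤ M)
    (hM : ∀ g : CT, (∀ x, (g x).im = 0) → ‖L g‖ ≤ M * ∫ x, ‖g x‖ ∂m2) (g : CT) {c : ℝ}
    (hg : ∀ x, ‖g x‖ ≤ c) : ‖L g‖ ≤ M * c := by
  obtain ⟨g', h1, h2, h3, -⟩ := exists_rot hL g
  have := hM g' h1
  rw [h3, Complex.norm_real, norm_norm] at this
  refine this.trans (mul_le_mul_of_nonneg_left ?_ hM0)
  have h4 : ∫ x, ‖g' x‖ ∂m2 ≤ ∫ _x, c ∂m2 :=
    integral_mono (cint (by fun_prop)) (cint (by fun_prop)) fun x => (h2 x).trans (hg x)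
  simpa using h4

lemma decomp {P Q : ℤ → Prop} {p p' u v : ℕ} {g : CT} (hg : g ∈ Spec P Q)
    (hP : ∀ k, P k → 2 ^ p ≤ ww k ∧ ww k ≤ 2 ^ (p + u) / 2)
    (hQ : ∀ k, Q k → 2 ^ p' ≤ ww k ∧ ww k ≤ 2 ^ (p' + v) / 2) :
    g = ∑ i ∈ range u, ∑ j ∈ range v, op (p + i) (p' + j) (Del (p + i)) (Del (p' + j)) g := by
  have := Spec_ext LinearMap.id
    (∑ i ∈ range u, ∑ j ∈ range v, opL (p + i) (p' + j) (Del (p + i)) (Del (p' + j))) ?_ hg
  · simpa only [LinearMap.id_apply, LinearMap.sum_apply, opL_apply] using this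
  · intro k k1 k2
    simp only [LinearMap.id_apply, LinearMap.sum_apply, opL_apply,
      op_ch (Mult_Del _) (Mult_Del _), ← Finset.sum_smul]
    rw [← Finset.sum_mul_sum, Del_sum_one (hP _ k1).1 (hP _ k1).2,
      Del_sum_one (hQ _ k2).1 (hQ _ k2).2]
    simp

lemma prod_expand1 {R : Type*} [CommRing R] (f : ℕ → R) (l : ℕ) :
    ∏ k ∈ range l, (1 + f k) = 1 + ∑ k ∈ range l, f k * ∏ i ∈ Ico (k + 1) l, (1 + f i) := by
  induction l with
  | zero => simp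
  | succ l ih =>
    rw [Finset.prod_range_succ, ih, Finset.sum_range_succ, Finset.Ico_self, Finset.prod_empty]
    have : ∑ k ∈ range l, f k * ∏ i ∈ Ico (k + 1) (l + 1), (1 + f i)
        = (∑ k ∈ range l, f k * ∏ i ∈ Ico (k + 1) l, (1 + f i)) * (1 + f l) := by
      rw [Finset.sum_mul]
      refine Finset.sum_congr rfl fun k hk => ?_
      rw [Finset.prod_Ico_succ_top (Finset.mem_range.mp hk)]; ring
    rw [this]; ring

lemma prod_expand2 {R : Type*} [CommRing R] (f : ℕ → R) (K : ℕ) :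
    ∏ k ∈ range K, (1 + f k) = 1 + ∑ l ∈ range K, f l
      + ∑ l ∈ range K, ∑ k ∈ range l, f k * (∏ i ∈ range (l - (k + 1)), (1 + f (k + 1 + i))) * f l := by
  induction K with
  | zero => simp
  | succ K ih =>
    rw [Finset.prod_range_succ, Finset.sum_range_succ, Finset.sum_range_succ, mul_add, mul_one]
    nth_rewrite 1 [ih]
    rw [prod_expand1, add_mul, Finset.sum_mul]
    simp only [Finset.prod_Ico_eq_prod_range]
    ring

lemma sum_tri_le (h : ℕ → ℕ → ℝ) (h0 : ∀ k i, 0 ≤ h k i) (K : ℕ) :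
    ∑ l ∈ range K, ∑ k ∈ range l, h k (l - (k + 1)) ≤ ∑ k ∈ range K, ∑ i ∈ range K, h k i := by
  rw [Finset.sum_comm' (t' := range K) (s' := fun k => Ico (k + 1) K)
    (by intro l k; simp only [Finset.mem_range, Finset.mem_Ico]; omega)]
  refine Finset.sum_le_sum fun k _ => ?_
  rw [Finset.sum_Ico_eq_sum_range]
  simp only [Nat.add_sub_cancel_left]
  exact Finset.sum_le_sum_of_subset_of_nonneg (Finset.range_subset_range.mpr (by omega))
    fun i _ _ => h0 k i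

lemma sum_offsets {E : Type*} [AddCommMonoid E] (f : ℕ → E) (S K : ℕ) :
    ∑ o ∈ range S, ∑ k ∈ range K, f (o + k * S) = ∑ j ∈ range (K * S), f j := by
  rw [Finset.sum_comm]
  induction K with
  | zero => simp
  | succ K ih =>
    rw [Finset.sum_range_succ, ih, Nat.succ_mul, Finset.sum_range_add]
    congr 1
    exact Finset.sum_congr rfl fun o _ => by rw [add_comm]

lemma geo_le {r : ℝ} (h0 : 0 ≤ r) (h1 : r < 1) (K : ℕ) : ∑ i ∈ range K, r ^ i ≤ (1 - r)⁻¹ := by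
  rw [← tsum_geometric_of_lt_one h0 h1]
  exact (summable_geometric_of_lt_one h0 h1).sum_le_tsum _ fun i _ => pow_nonneg h0 i

end

end Pool.Agent.Lib.MP_21a4ea_an
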