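import Pool.Agent.Lib.MP_21a4ea_an.Core
import Pool.Agent.Lib.MP_21a4ea_an.Defs

namespace Pool.Agent.Lib.MP_21a4ea_an

open MeasureTheory Real Finset Filter
open scoped ComplexConjugate Topology

noncomputable section

variable {r : ℝ}

lemma ww_summable (hr : 1 < r) : Summable fun k : ℤ => ww k ^ (-r) := by
  refine (Real.summable_abs_int_rpow hr).congr_cofinite ?_
  filter_upwards [eventually_cofinite_ne 0] with k hk
  rw [ww_of_ne hk]

lemma term_norm (θ : ℝ) (k : ℤ) (y : T) : ‖sym (-r) (-θ) k * fourier k y‖ = ww k ^ (-r) := by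
  rw [norm_mul, sym_norm, four_norm, mul_one]

lemma term_summable (hr : 1 < r) (θ : ℝ) (y : T) :
    Summable fun k : ℤ => ‖sym (-r) (-θ) k * fourier k y‖ := by
  simpa only [term_norm] using ww_summable hr

/-- the kernel on the circle -/
def Fc (r θ : ℝ) (y : T) : ℂ := ∑' k : ℤ, sym (-r) (-θ) k * fourier k y

lemma Fc_hasSum (hr : 1 < r) (θ : ℝ) (y : T) :
    HasSum (fun k : ℤ => sym (-r) (-θ) k * fourier k y) (Fc r θ y) :=
  (term_summable hr θ y).of_norm.hasSum

lemma Fc_cont (hr : 1 < r) (θ : ℝ) : Continuous (Fc r θ) :=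
  continuous_tsum (fun k => by fun_prop) (ww_summable hr) fun k y => (term_norm θ k y).le

lemma Fc_coe (hr : 1 < r) (α x : ℝ) : Fc r (α * π / 2) (x : T) = (F r α x : ℂ) := by
  set θ := α * π / 2 with hθ
  have h1 := (hasSum_nat_add_iff' 1).mpr (Fc_hasSum hr θ (x : T)).nat_add_neg
  have e : ∀ n : ℕ, sym (-r) (-θ) ((n + 1 : ℕ) : ℤ) * fourier ((n + 1 : ℕ) : ℤ) (x : T)
      + sym (-r) (-θ) (-((n + 1 : ℕ) : ℤ)) * fourier (-((n + 1 : ℕ) : ℤ)) (x : T)
      = ((2 * (((n : ℝ) + 1) ^ (-r) * Real.cos (((n : ℝ) + 1) * x - θ)) : ℝ) : ℂ) := by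
    intro n
    have p : (0:ℤ) < ((n + 1 : ℕ) : ℤ) := by positivity
    have w : ww ((n + 1 : ℕ) : ℤ) = n + 1 := by
      rw [ww_of_ne p.ne']; push_cast; exact abs_of_pos (by positivity)
    unfold sym
    rw [ww_neg, w, Int.sign_neg, Int.sign_eq_one_of_pos p, four_coe, four_coe, mul_assoc, mul_assoc,
      ← Complex.exp_add, ← Complex.exp_add, ← mul_add]
    push_cast
    rw [Complex.cos]
    ring_nf
  simp only [e] at h1
  simp only [Finset.range_one, Finset.sum_singleton, Nat.cast_zero, neg_zero, sym_zero,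
    fourier_zero, mul_one] at h1
  have h2 := Complex.hasSum_re h1
  simp only [Complex.ofReal_re] at h2
  have h3 := h1.unique (Complex.hasSum_ofReal.mpr h2)
  have h4 := h2.tsum_eq
  rw [tsum_mul_left] at h4
  unfold F
  rw [h4, Complex.ofReal_add, ← h3]
  push_cast; ring

lemma Fc_real (hr : 1 < r) (α : ℝ) (y : T) :
    Fc r (α * π / 2) y = ((Fc r (α * π / 2) y).re : ℂ) := by
  induction y using QuotientAddGroup.induction_on with
  | H x => rw [Fc_coe hr]; simp

lemma Fc_coef (hr : 1 < r) (θ : ℝ) (k : ℤ) :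
    ∫ y, fourier (-k) y * Fc r θ y ∂m1 = sym (-r) (-θ) k := by
  have h := hasSum_integral_of_summable_integral_norm (μ := m1)
    (F := fun (l : ℤ) (y : T) => fourier (-k) y * (sym (-r) (-θ) l * fourier l y))
    (fun l => cint1 (by fun_prop)) (by
      simp only [norm_mul, four_norm, sym_norm, one_mul, mul_one, integral_const, probReal_univ,
        smul_eq_mul]
      exact ww_summable hr)
  simp only [tsum_mul_left] at h
  have e : ∀ l : ℤ, ∫ y, fourier (-k) y * (sym (-r) (-θ) l * fourier l y) ∂m1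
      = if l = k then sym (-r) (-θ) k else 0 := fun l => by
    have : ∀ y : T, fourier (-k) y * (sym (-r) (-θ) l * fourier l y)
        = sym (-r) (-θ) l * fourier (l - k) y := fun y => by
      rw [sub_eq_add_neg, fourier_add]; ring
    simp only [this, integral_const_mul, int_four, sub_eq_zero]
    split_ifs with h
    · rw [h, mul_one]
    · rw [mul_zero]
  simp only [e] at h
  exact h.unique (hasSum_ite_eq k _)

/-- the real kernel on the torus -/
def KK (r α : ℝ) (y : TT) : ℝ := (Fc r (α * π / 2) y.1).re * (Fc r (α * π / 2) y.2).re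

lemma KK_cont (hr : 1 < r) (α : ℝ) : Continuous (KK r α) := by
  have := Fc_cont hr (α * π / 2)
  unfold KK; fun_prop

lemma KK_eq (hr : 1 < r) (α : ℝ) (y : TT) :
    (KK r α y : ℂ) = Fc r (α * π / 2) y.1 * Fc r (α * π / 2) y.2 := by
  unfold KK
  rw [Complex.ofReal_mul, ← Fc_real hr, ← Fc_real hr]

lemma KK_coef (hr : 1 < r) (α : ℝ) (k : ℤ × ℤ) : ∫ y, ch (-k) y * KK r α y ∂m2
    = sym (-r) (-(α * π / 2)) k.1 * sym (-r) (-(α * π / 2)) k.2 := by
  have e : ∀ y : TT, ch (-k) y * KK r α y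
      = (fourier (-k.1) y.1 * Fc r (α * π / 2) y.1) * (fourier (-k.2) y.2 * Fc r (α * π / 2) y.2) := by
    intro y; rw [KK_eq hr, ch_apply]; simp only [Prod.fst_neg, Prod.snd_neg]; ring
  simp only [e]
  rw [integral_prod_mul (μ := m1) (ν := m1) (fun y => fourier (-k.1) y * Fc r (α * π / 2) y)
    (fun y => fourier (-k.2) y * Fc r (α * π / 2) y), Fc_coef hr, Fc_coef hr]

lemma KK_int (hr : 1 < r) (α : ℝ) : ∫ y, KK r α y ∂m2 = 1 := by
  have := KK_coef hr α 0
  simp only [neg_zero, ch_zero, ContinuousMap.one_apply, one_mul, Prod.fst_zero, Prod.snd_zero,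
    sym_zero] at this
  rw [integral_complex_ofReal] at this
  exact_mod_cast this

lemma KK_hasSum (hr : 1 < r) (α : ℝ) (y : TT) :
    HasSum (fun k : ℤ × ℤ => sym (-r) (-(α * π / 2)) k.1 * sym (-r) (-(α * π / 2)) k.2 * ch k y)
      (KK r α y : ℂ) := by
  rw [KK_eq hr]
  have hs := summable_mul_of_summable_norm (term_summable hr (α * π / 2) y.1)
    (term_summable hr (α * π / 2) y.2)
  have := (Fc_hasSum hr (α * π / 2) y.1).mul (Fc_hasSum hr (α * π / 2) y.2) hs
  have e : (fun k : ℤ × ℤ => sym (-r) (-(α * π / 2)) k.1 * sym (-r) (-(α * π / 2)) k.2 * ch k y)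
      = fun k : ℤ × ℤ => sym (-r) (-(α * π / 2)) k.1 * fourier k.1 y.1
        * (sym (-r) (-(α * π / 2)) k.2 * fourier k.2 y.2) := by
    ext k; rw [ch_apply]; ring
  rw [e]; exact this

/-- projection to the torus -/
def pr (x : ℝ × ℝ) : TT := ((x.1 : T), (x.2 : T))

lemma pr_sub (x y : ℝ × ℝ) : pr (x - y) = pr x - pr y := rfl

lemma KK_pr (hr : 1 < r) (α : ℝ) (y : ℝ × ℝ) : KK r α (pr y) = F r α y.1 * F r α y.2 := by
  unfold KK pr
  rw [Fc_coe hr, Fc_coe hr]; simp

def nu : Measure ℝ := (ENNReal.ofReal (2 * π))⁻¹ • volume.restrict (Set.Ico 0 (2 * π))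

lemma c_ne : ENNReal.ofReal (2 * π) ≠ 0 := by simpa using Real.pi_pos

lemma mk_mp : MeasurePreserving (fun x : ℝ => (x : T)) nu m1 := by
  have h := (AddCircle.measurePreserving_mk (2 * π) 0).smul_measure (ENNReal.ofReal (2 * π))⁻¹
  rw [AddCircle.volume_eq_smul_haarAddCircle, smul_smul,
    ENNReal.inv_mul_cancel c_ne ENNReal.ofReal_ne_top, one_smul, zero_add,
    ← Measure.restrict_congr_set Ico_ae_eq_Ioc] at h
  exact h

instance : IsProbabilityMeasure nu := ⟨by
  have := mk_mp.measure_preimage (s := Set.univ) MeasurableSet.univ.nullMeasurableSet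
  simpa using this⟩

lemma pr_mp : MeasurePreserving pr (nu.prod nu) m2 := mk_mp.prod mk_mp

lemma nu_prod : nu.prod nu
    = ((ENNReal.ofReal (2 * π))⁻¹ * (ENNReal.ofReal (2 * π))⁻¹) • volume.restrict cell := by
  unfold nu cell
  rw [Measure.prod_smul_left, Measure.prod_smul_right, Measure.prod_restrict, smul_smul,
    Measure.volume_eq_prod]

lemma avg_eq {E : Type} [NormedAddCommGroup E] [NormedSpace ℝ E] (f : ℝ × ℝ → E) :
    avg f = ∫ x, f x ∂(nu.prod nu) := by
  rw [nu_prod, integral_smul_measure, avg, ENNReal.toReal_mul, ENNReal.toReal_inv,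
    ENNReal.toReal_ofReal Real.two_pi_pos.le, ← mul_inv, ← sq]

lemma integrableOn_iff {E : Type} [NormedAddCommGroup E] (f : ℝ × ℝ → E) :
    IntegrableOn f cell ↔ Integrable f (nu.prod nu) := by
  rw [nu_prod, integrable_smul_measure]
  · rfl
  · exact mul_ne_zero (ENNReal.inv_ne_zero.mpr ENNReal.ofReal_ne_top)
      (ENNReal.inv_ne_zero.mpr ENNReal.ofReal_ne_top)
  · exact ENNReal.mul_ne_top (ENNReal.inv_ne_top.mpr c_ne) (ENNReal.inv_ne_top.mpr c_ne)

lemma avg_pr {E : Type} [NormedAddCommGroup E] [NormedSpace ℝ E] {g : TT → E}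
    (hg : AEStronglyMeasurable g m2) : avg (fun x => g (pr x)) = ∫ z, g z ∂m2 := by
  rw [avg_eq, ← pr_mp.map_eq] at *
  exact (integral_map pr_mp.measurable.aemeasurable hg).symm

def rep (z : T) : ℝ := AddCircle.equivIco (2 * π) 0 z

lemma rep_meas : Measurable rep :=
  measurable_subtype_coe.comp (AddCircle.measurableEquivIco (2 * π) 0).measurable

lemma rep_mp : MeasurePreserving rep m1 nu := by
  refine ⟨rep_meas, ?_⟩
  rw [← mk_mp.map_eq, Measure.map_map rep_meas mk_mp.measurable]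
  have : rep ∘ (fun x : ℝ => (x : T)) =ᵐ[nu] id := by
    unfold nu
    refine Measure.ae_smul_measure ?_ _
    filter_upwards [ae_restrict_mem measurableSet_Ico] with x hx
    exact AddCircle.equivIco_coe_of_mem (by simpa using hx)
  rw [Measure.map_congr this, Measure.map_id]

lemma rep_coe (x : ℝ) : ∃ k : ℤ, rep (x : T) = x + k • (2 * π) := by
  have h : ((rep (x : T) : ℝ) : T) = (x : T) := AddCircle.coe_equivIco
  obtain ⟨k, hk⟩ := AddSubgroup.mem_zmultiples_iff.mp (QuotientAddGroup.eq_iff_sub_mem.mp h)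
  exact ⟨k, by rw [hk]; ring⟩

lemma exists_lift {E : Type} [NormedAddCommGroup E] {φ : ℝ × ℝ → E}
    (h1 : φ.Periodic (2 * π, 0)) (h2 : φ.Periodic (0, 2 * π)) (h3 : IntegrableOn φ cell) :
    ∃ g : TT → E, Integrable g m2 ∧ ∀ x, φ x = g (pr x) := by
  refine ⟨φ ∘ Prod.map rep rep,
    (rep_mp.prod rep_mp).integrable_comp_of_integrable ((integrableOn_iff φ).mp h3), fun x => ?_⟩
  obtain ⟨k, hk⟩ := rep_coe x.1
  obtain ⟨l, hl⟩ := rep_coe x.2
  have : Prod.map rep rep (pr x) = x + k • ((2 * π, 0) : ℝ × ℝ) + l • ((0, 2 * π) : ℝ × ℝ) := by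
    ext
    · simp [pr, hk]
    · simp [pr, hl]
  rw [Function.comp_apply, this, h2.zsmul l, h1.zsmul k]

lemma pr_per1 (x : ℝ × ℝ) : pr (x + (2 * π, 0)) = pr x := by
  unfold pr; simp

lemma pr_per2 (x : ℝ × ℝ) : pr (x + (0, 2 * π)) = pr x := by
  unfold pr; simp

section
variable {K : Type} [RCLike K]

/-- convolution with the kernel on the torus -/
def cv (r α : ℝ) (g : TT → K) (z : TT) : K := ∫ y, KK r α y • g (z - y) ∂m2

lemma cv_int (hr : 1 < r) (α : ℝ) {g : TT → K} (hg : Integrable g m2) :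
    Integrable (cv r α g) m2 :=
  (cint (KK_cont hr α)).integrable_convolution (ContinuousLinearMap.lsmul ℝ ℝ) hg

lemma cv_mean (hr : 1 < r) (α : ℝ) {g : TT → K} (hg : Integrable g m2) :
    ∫ z, cv r α g z ∂m2 = ∫ z, g z ∂m2 := by
  have := integral_convolution (ContinuousLinearMap.lsmul ℝ ℝ) (cint (KK_cont hr α)) hg
  rw [KK_int hr, ContinuousLinearMap.lsmul_apply, one_smul] at this
  exact this

lemma conv_pr (hr : 1 < r) (α : ℝ) {g : TT → K} (hg : Integrable g m2) (x : ℝ × ℝ) :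
    (avg fun y => g (pr (x - y)) * ((F r α y.1 * F r α y.2 : ℝ) : K)) = cv r α g (pr x) := by
  unfold cv
  rw [← avg_pr (g := fun y => KK r α y • g (pr x - y))
    ((KK_cont hr α).aestronglyMeasurable.smul (hg.comp_sub_left (pr x)).1)]
  congr 1; ext y
  rw [pr_sub, KK_pr hr, RCLike.real_smul_eq_coe_mul, mul_comm]

lemma mem_W_iff (hr : 1 < r) (α : ℝ) (f : ℝ × ℝ → K) : f ∈ W K r α ↔
    ∃ g : TT → K, Integrable g m2 ∧ ∫ z, ‖g z‖ ∂m2 ≤ 1 ∧ f = fun x => cv r α g (pr x) := by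
  constructor
  · rintro ⟨φ, h1, h2, h3, h4, rfl⟩
    obtain ⟨g, hg, e⟩ := exists_lift h1 h2 h3
    refine ⟨g, hg, ?_, ?_⟩
    · rw [← avg_pr hg.1.norm]; simpa only [e] using h4
    · ext x; simp only [e]; exact conv_pr hr α hg x
  · rintro ⟨g, hg, h1, rfl⟩
    refine ⟨fun x => g (pr x), fun x => by simp only [pr_per1], fun x => by simp only [pr_per2],
      (integrableOn_iff _).mpr (pr_mp.integrable_comp_of_integrable hg), ?_, ?_⟩
    · rw [avg_pr (g := fun z => ‖g z‖) hg.1.norm]; exact h1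
    · ext x; exact (conv_pr hr α hg x).symm

lemma avg_cv (hr : 1 < r) (α : ℝ) {g : TT → K} (hg : Integrable g m2) :
    avg (fun x => cv r α g (pr x)) = ∫ z, g z ∂m2 := by
  rw [avg_pr (cv_int hr α hg).1, cv_mean hr α hg]

end

end

end Pool.Agent.Lib.MP_21a4ea_an
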