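import Pool.Agent.Lib.MP_21a4ea_an.Kernel

namespace Pool.Agent.Lib.MP_21a4ea_an

open MeasureTheory Real Finset Filter
open scoped ComplexConjugate Topology

noncomputable section

variable {r : ℝ}

def errL (hr : 1 < r) (α : ℝ) {m : ℕ} (ξ : Fin m → TT) (lam : Fin m → ℝ) : CT →ₗ[ℂ] ℂ where
  toFun g := ∑ μ, (lam μ : ℂ) * cv r α g (ξ μ) - mean g
  map_add' f g := by
    have hK := KK_cont hr α
    have : ∀ z, cv r α (f + g : CT) z = cv r α f z + cv r α g z := fun z => by
      unfold cv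
      simp only [ContinuousMap.add_apply, smul_add]
      exact integral_add (cint (by fun_prop)) (cint (by fun_prop))
    simp only [this, map_add, mul_add, Finset.sum_add_distrib]; ring
  map_smul' c g := by
    have : ∀ z, cv r α (c • g : CT) z = c * cv r α g z := fun z => by
      unfold cv
      simp only [ContinuousMap.smul_apply, smul_eq_mul, ← integral_const_mul, mul_smul_comm]
    simp only [this, map_smul, smul_eq_mul, RingHom.id_apply, mul_sub, Finset.mul_sum]
    congr 1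
    exact Finset.sum_congr rfl fun μ _ => by ring

lemma errL_apply (hr : 1 < r) (α : ℝ) {m : ℕ} (ξ : Fin m → TT) (lam : Fin m → ℝ) (g : CT) :
    errL hr α ξ lam g = ∑ μ, (lam μ : ℂ) * cv r α g (ξ μ) - mean g := rfl

lemma errL_onCh (hr : 1 < r) (α : ℝ) {m : ℕ} (ξ : Fin m → TT) (lam : Fin m → ℝ) :
    OnCh (errL hr α ξ lam) r (α * π / 2) ξ fun μ => (lam μ : ℂ) := by
  intro k
  rw [errL_apply, mean_ch, Finset.mul_sum]
  congr 1
  refine Finset.sum_congr rfl fun μ _ => ?_
  unfold cv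
  have e : ∀ y, KK r α y • ch k (ξ μ - y) = ch k (ξ μ) * (ch (-k) y * KK r α y) := fun y => by
    rw [ch_sub_pt, Complex.real_smul]; ring
  simp only [e]
  rw [integral_const_mul, KK_coef hr]; ring

lemma errL_star (hr : 1 < r) (α : ℝ) {m : ℕ} (ξ : Fin m → TT) (lam : Fin m → ℝ) (g : CT) :
    errL hr α ξ lam (star g) = conj (errL hr α ξ lam g) := by
  rw [errL_apply, errL_apply, map_sub, map_sum, mean_apply, mean_apply, ← integral_conj]
  congr 1
  refine Finset.sum_congr rfl fun μ _ => ?_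
  unfold cv
  rw [map_mul, Complex.conj_ofReal, ← integral_conj]
  congr 2; ext y
  simp

lemma errL_le {K : Type} [RCLike K] (hr : 1 < r) (α : ℝ) {m : ℕ} (ξ : Fin m → ℝ × ℝ)
    (lam : Fin m → K) {M : ℝ} (hM0 : 0 ≤ M)
    (hM : ∀ f ∈ W K r α, ‖∑ μ, lam μ * f (ξ μ) - avg f‖ ≤ M) (g : CT) (hg : ∀ x, (g x).im = 0) :
    ‖errL hr α (fun μ => pr (ξ μ)) (fun μ => RCLike.re (lam μ)) g‖ ≤ M * ∫ x, ‖g x‖ ∂m2 := by
  have hK := KK_cont hr α
  have key : ∀ s : ℝ, 0 < s → ∫ x, ‖g x‖ ∂m2 ≤ s →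
      ‖errL hr α (fun μ => pr (ξ μ)) (fun μ => RCLike.re (lam μ)) g‖ ≤ M * s := by
    intro s hs hgs
    set g' : TT → K := fun z => (((g z).re / s : ℝ) : K) with hg'
    have c' : Continuous g' := by rw [hg']; fun_prop
    have hf : (fun x => cv r α g' (pr x)) ∈ W K r α := by
      refine (mem_W_iff hr α _).mpr ⟨g', cint c', ?_, rfl⟩
      have : ∫ z, ‖g' z‖ ∂m2 ≤ ∫ z, ‖g z‖ / s ∂m2 := by
        refine integral_mono (cint (by fun_prop)) (cint (by fun_prop)) fun z => ?_
        simp only [hg', RCLike.norm_ofReal, abs_div, abs_of_pos hs]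
        exact div_le_div_of_nonneg_right (Complex.abs_re_le_norm _) hs.le
      rw [integral_div] at this
      exact this.trans ((div_le_one hs).mpr hgs)
    have h1 := hM _ hf
    rw [avg_cv hr α (cint c')] at h1
    set u : TT → ℝ := fun z => ∫ y, KK r α y * ((g (z - y)).re / s) ∂m2 with hu
    set v : ℝ := ∫ z, (g z).re / s ∂m2 with hv
    have e1 : ∀ z, cv r α g' z = (u z : K) := fun z => by
      unfold cv
      rw [hu, ← integral_ofReal]
      congr 1; ext y
      rw [RCLike.real_smul_eq_coe_mul, RCLike.ofReal_mul]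
    have e2 : ∫ z, g' z ∂m2 = (v : K) := by rw [hv, ← integral_ofReal]
    have gre : ∀ z, g z = s * (((g z).re / s : ℝ) : ℂ) := fun z => by
      rw [← Complex.ofReal_mul, mul_div_cancel₀ _ hs.ne']
      exact Complex.ext (by simp) (by simp [hg z])
    have e3 : ∀ z, cv r α g z = s * (u z : ℂ) := fun z => by
      unfold cv
      rw [hu, ← integral_complex_ofReal, ← integral_const_mul]
      congr 1; ext y
      rw [gre (z - y), Complex.real_smul]
      simp only [← Complex.ofReal_mul, Complex.ofReal_re, Complex.ofReal_inj]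
      field_simp
    have e4 : mean g = s * (v : ℂ) := by
      rw [mean_apply, hv, ← integral_complex_ofReal, ← integral_const_mul]
      congr 1; ext z; exact gre z
    simp only [e1, e2] at h1
    have h2 := (RCLike.abs_re_le_norm _).trans h1
    simp only [map_sub, map_sum, RCLike.re_mul_ofReal, RCLike.ofReal_re] at h2
    have e5 : errL hr α (fun μ => pr (ξ μ)) (fun μ => RCLike.re (lam μ)) g
        = ((s * (∑ μ, RCLike.re (lam μ) * u (pr (ξ μ)) - v) : ℝ) : ℂ) := by
      rw [errL_apply, e4]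
      simp only [e3]
      push_cast
      rw [mul_sub, Finset.mul_sum]
      congr 1
      exact Finset.sum_congr rfl fun μ _ => by ring
    rw [e5, Complex.norm_real, Real.norm_eq_abs, abs_mul, abs_of_pos hs, mul_comm M]
    exact mul_le_mul_of_nonneg_left h2 hs.le
  have p : 0 ≤ ∫ x, ‖g x‖ ∂m2 := integral_nonneg fun _ => norm_nonneg _
  refine le_of_forall_pos_le_add fun ε hε => ?_
  have := key (∫ x, ‖g x‖ ∂m2 + ε / (M + 1)) (by positivity) (le_add_of_nonneg_right (by positivity))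
  refine this.trans ?_
  rw [mul_add]
  refine add_le_add le_rfl ?_
  rw [mul_div_assoc', div_le_iff₀ (by linarith)]; nlinarith

theorem lower (K : Type) [RCLike K] (hr : 1 < r) (α : ℝ) : ∃ c : ℝ, 0 < c ∧ ∀ m : ℕ, 2 ≤ m →
    ENNReal.ofReal (c * ((m:ℝ) ^ (-r) * Real.log m)) ≤ kappa K r α m := by
  obtain ⟨c, hc, h⟩ := core hr.le
  refine ⟨c * 2 ^ (-r), by positivity, fun m hm => ?_⟩
  unfold kappa
  refine le_iInf fun lam => le_iInf fun ξ => ?_
  set S := ⨆ f ∈ W K r α, ‖∑ μ, lam μ * f (ξ μ) - avg f‖ₑ with hS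
  by_cases hT : S = ⊤
  · rw [hT]; exact le_top
  rw [ENNReal.ofReal_le_iff_le_toReal hT]
  have hM : ∀ f ∈ W K r α, ‖∑ μ, lam μ * f (ξ μ) - avg f‖ ≤ S.toReal := fun f hf => by
    rw [← ENNReal.ofReal_le_iff_le_toReal hT, ofReal_norm]
    exact le_iSup₂ (f := fun f (_ : f ∈ W K r α) => ‖∑ μ, lam μ * f (ξ μ) - avg f‖ₑ) f hf
  set n := Nat.clog 2 m with hn
  have n1 : m ≤ 2 ^ n := Nat.le_pow_clog one_lt_two m
  have n2 : 2 ^ n ≤ 2 * m := by
    have := Nat.pow_pred_clog_lt_self (b := 2) one_lt_two (x := m) (by omega)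
    have h0 : 0 < n := Nat.clog_pos one_lt_two (by omega)
    rw [← hn] at this
    calc 2 ^ n = 2 * 2 ^ n.pred := by rw [← pow_succ', ← Nat.succ_eq_add_one, Nat.succ_pred h0.ne']
      _ ≤ _ := by omega
  have := h n _ _ _ _ S.toReal n1 (errL_onCh hr α (fun μ => pr (ξ μ)) fun μ => RCLike.re (lam μ))
    (errL_star hr α _ _) ENNReal.toReal_nonneg (errL_le hr α ξ lam ENNReal.toReal_nonneg hM)
  refine le_trans ?_ this
  have m0 : (0:ℝ) < m := by exact_mod_cast (by omega : 0 < m)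
  have a1 : Real.log m ≤ n + 1 := by
    have b1 : Real.log m ≤ Real.log (2 ^ n) := Real.log_le_log m0 (by exact_mod_cast n1)
    rw [Real.log_pow] at b1
    have b2 : Real.log 2 ≤ 1 := by have := Real.log_two_lt_d9; linarith
    have : (0:ℝ) ≤ n := Nat.cast_nonneg n
    nlinarith
  have a2 : (2:ℝ) ^ (-r) * (m:ℝ) ^ (-r) ≤ ((2:ℝ) ^ n) ^ (-r) := by
    rw [← Real.mul_rpow (by norm_num) m0.le]
    exact Real.rpow_le_rpow_of_nonpos (by positivity) (by exact_mod_cast n2) (by linarith)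
  have a3 : 0 ≤ Real.log m := Real.log_natCast_nonneg m
  calc _ = c * (Real.log m * ((2:ℝ) ^ (-r) * (m:ℝ) ^ (-r))) := by ring
    _ ≤ _ := by gcongr

end

end Pool.Agent.Lib.MP_21a4ea_an
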