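import Pool.Agent.Lib.MP_21a4ea_an.Bracket

namespace Pool.Agent.Lib.MP_21a4ea_an

open MeasureTheory Real Finset
open scoped ComplexConjugate

noncomputable section

/-- Lipschitz multipliers at scale two to the a -/
structure Mult (a : ℕ) (μ : ℤ → ℂ) (A : ℝ) : Prop where
  supp : ∀ k, (2:ℤ) ^ (a + 2) ≤ |k| → μ k = 0
  bd : ∀ k, ‖μ k‖ ≤ A
  lip : ∀ k, ‖μ (k + 1) - μ k‖ ≤ A / 2 ^ a

lemma Mult.nonneg {a : ℕ} {μ : ℤ → ℂ} {A : ℝ} (h : Mult a μ A) : 0 ≤ A :=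
  (norm_nonneg _).trans (h.bd 0)

lemma Mult.mono {a : ℕ} {μ : ℤ → ℂ} {A B : ℝ} (h : Mult a μ A) (hAB : A ≤ B) : Mult a μ B :=
  ⟨h.supp, fun k => (h.bd k).trans hAB,
    fun k => (h.lip k).trans (div_le_div_of_nonneg_right hAB (by positivity))⟩

def box (a : ℕ) : Finset ℤ := Finset.Ioo (-(2:ℤ) ^ (a + 2)) (2 ^ (a + 2))

lemma mem_box {a : ℕ} {k : ℤ} : k ∈ box a ↔ |k| < 2 ^ (a + 2) := by
  rw [box, Finset.mem_Ioo, abs_lt]

def kr (a : ℕ) (μ : ℤ → ℂ) (y : T) : ℂ := ∑ k ∈ box a, μ k * fourier k y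

@[fun_prop] lemma kr_cont (a : ℕ) (μ : ℤ → ℂ) : Continuous (kr a μ) := by unfold kr; fun_prop

lemma kr_shift {a : ℕ} {μ : ℤ → ℂ} {A : ℝ} (h : Mult a μ A) (y : T) :
    (fourier 1 y - 1) * kr a μ y
      = ∑ k ∈ Finset.Icc (-(2:ℤ) ^ (a + 2)) (2 ^ (a + 2)), (μ (k - 1) - μ k) * fourier k y := by
  have hz : ∀ k, k ∉ box a → μ k = 0 := fun k hk => h.supp k (not_lt.mp (mt mem_box.mpr hk))
  simp only [sub_mul, Finset.sum_sub_distrib, one_mul]
  congr 1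
  · unfold kr
    rw [Finset.mul_sum]
    have e : ∑ k ∈ box a, fourier 1 y * (μ k * fourier k y)
        = ∑ k ∈ (box a).map (addRightEmbedding 1), μ (k - 1) * fourier k y := by
      rw [Finset.sum_map]
      refine Finset.sum_congr rfl fun k _ => ?_
      simp only [addRightEmbedding_apply, add_sub_cancel_right, fourier_add]
      ring
    rw [e]
    refine Finset.sum_subset ?_ ?_
    · intro k hk
      simp only [Finset.mem_map, addRightEmbedding_apply, box, Finset.mem_Ioo] at hk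
      obtain ⟨l, hl, rfl⟩ := hk
      rw [Finset.mem_Icc]; omega
    · intro k _ hk
      rw [hz, zero_mul]
      intro hk'
      exact hk (Finset.mem_map.mpr ⟨k - 1, hk', by simp⟩)
  · unfold kr
    refine Finset.sum_subset ?_ ?_
    · intro k hk
      simp only [box, Finset.mem_Ioo] at hk
      rw [Finset.mem_Icc]; omega
    · intro k _ hk
      rw [hz k hk, zero_mul]

lemma kr_L2 {a : ℕ} {μ : ℤ → ℂ} {A : ℝ} (h : Mult a μ A) :
    ∫ y, ‖kr a μ y‖ ^ 2 * br a y ∂m1 ≤ 24 * 2 ^ a * A ^ 2 := by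
  have e : ∀ y, ‖kr a μ y‖ ^ 2 * br a y
      = ‖kr a μ y‖ ^ 2 + 4 ^ a * ‖(fourier 1 y - 1) * kr a μ y‖ ^ 2 := by
    intro y; unfold br dd; rw [norm_mul]; ring
  simp only [e]
  rw [integral_add (cint1 (by fun_prop)) (cint1 (by fun_prop)), integral_const_mul]
  simp only [kr_shift h]
  rw [parseval1]
  unfold kr
  rw [parseval1]
  have hA := h.nonneg
  have c1 : ((box a).card : ℝ) ≤ 12 * 2 ^ a := by
    rw [box, Int.card_Ioo]
    have : ((2:ℤ) ^ (a + 2) - -(2:ℤ) ^ (a + 2) - 1).toNat ≤ 12 * 2 ^ a := by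
      rw [Int.toNat_le]; push_cast
      have : (0:ℤ) < 2 ^ a := by positivity
      rw [pow_add]; omega
    exact_mod_cast this
  have c2 : ((Finset.Icc (-(2:ℤ) ^ (a + 2)) (2 ^ (a + 2))).card : ℝ) ≤ 12 * 2 ^ a := by
    rw [Int.card_Icc]
    have : ((2:ℤ) ^ (a + 2) + 1 - -(2:ℤ) ^ (a + 2)).toNat ≤ 12 * 2 ^ a := by
      rw [Int.toNat_le]; push_cast
      have : (0:ℤ) < 2 ^ a := by positivity
      rw [pow_add]; omega
    exact_mod_cast this
  have s1 : ∑ k ∈ box a, ‖μ k‖ ^ 2 ≤ (box a).card • A ^ 2 :=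
    Finset.sum_le_card_nsmul _ _ _ fun k _ => pow_le_pow_left₀ (norm_nonneg _) (h.bd k) 2
  have s2 : ∑ k ∈ Finset.Icc (-(2:ℤ) ^ (a + 2)) (2 ^ (a + 2)), ‖μ (k - 1) - μ k‖ ^ 2
      ≤ (Finset.Icc (-(2:ℤ) ^ (a + 2)) (2 ^ (a + 2))).card • (A / 2 ^ a) ^ 2 := by
    refine Finset.sum_le_card_nsmul _ _ _ fun k _ => pow_le_pow_left₀ (norm_nonneg _) ?_ 2
    have := h.lip (k - 1)
    rwa [sub_add_cancel, norm_sub_rev] at this
  rw [nsmul_eq_mul] at s1 s2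
  have e4 : (4:ℝ) ^ a = (2 ^ a) ^ 2 := by rw [← pow_mul, mul_comm a 2, pow_mul]; norm_num
  have t1 := s1.trans (mul_le_mul_of_nonneg_right c1 (sq_nonneg _))
  have t2 := s2.trans (mul_le_mul_of_nonneg_right c2 (sq_nonneg _))
  have t3 := mul_le_mul_of_nonneg_left t2 (show (0:ℝ) ≤ 4 ^ a by positivity)
  have e5 : (4:ℝ) ^ a * (12 * 2 ^ a * (A / 2 ^ a) ^ 2) = 12 * 2 ^ a * A ^ 2 := by
    rw [e4]; field_simp
  linarith

/-- the multiplier operator -/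
def op (a b : ℕ) (μ ν : ℤ → ℂ) (g : CT) : CT :=
  ∑ k ∈ box a ×ˢ box b, (μ k.1 * ν k.2 * co k g) • ch k

lemma op_conv (a b : ℕ) (μ ν : ℤ → ℂ) (g : CT) (x : TT) :
    op a b μ ν g x = ∫ y, kr a μ y.1 * kr b ν y.2 * g (x - y) ∂m2 := by
  have e : ∀ y : TT, kr a μ y.1 * kr b ν y.2 * g (x - y)
      = ∑ k ∈ box a ×ˢ box b, μ k.1 * ν k.2 * (ch k y * g (x - y)) := by
    intro y
    unfold kr
    rw [Finset.sum_mul_sum, Finset.sum_product, Finset.sum_mul]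
    refine Finset.sum_congr rfl fun k _ => ?_
    rw [Finset.sum_mul]
    refine Finset.sum_congr rfl fun l _ => ?_
    simp only [ch_apply]; ring
  simp only [e]
  rw [integral_finsetSum _ fun k _ => cint (by fun_prop)]
  unfold op
  simp only [ContinuousMap.coe_sum, Finset.sum_apply, ContinuousMap.smul_apply, smul_eq_mul]
  refine Finset.sum_congr rfl fun k _ => ?_
  rw [integral_const_mul, conv_ch]; ring

lemma co_op {a b : ℕ} {μ ν : ℤ → ℂ} {A B : ℝ} (h1 : Mult a μ A) (h2 : Mult b ν B) (g : CT)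
    (k : ℤ × ℤ) : co k (op a b μ ν g) = μ k.1 * ν k.2 * co k g := by
  unfold op
  rw [co_sum]
  split_ifs with h
  · rfl
  · rw [Finset.mem_product, not_and_or] at h
    rcases h with h | h
    · rw [h1.supp _ (not_lt.mp (mt mem_box.mpr h))]; simp
    · rw [h2.supp _ (not_lt.mp (mt mem_box.mpr h))]; simp

lemma op_mem {a b : ℕ} {μ ν : ℤ → ℂ} {P Q : ℤ → Prop} (g : CT) (h1 : ∀ k, μ k ≠ 0 → P k)
    (h2 : ∀ k, ν k ≠ 0 → Q k) : op a b μ ν g ∈ Spec P Q := by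
  refine sum_mem_Spec _ _ fun k _ hk => ⟨h1 _ ?_, h2 _ ?_⟩
  · intro h; apply hk; simp [h]
  · intro h; apply hk; simp [h]

lemma master {a b : ℕ} {μ ν : ℤ → ℂ} {A B : ℝ} (h1 : Mult a μ A) (h2 : Mult b ν B) (g : CT)
    (x : TT) {Z : ℝ} (hZ : 0 ≤ Z)
    (h : ∫ y, 2 ^ a * 2 ^ b * ‖g (x - y)‖ ^ 2 / (br a y.1 * br b y.2) ∂m2 ≤ Z ^ 2) :
    ‖op a b μ ν g x‖ ≤ 24 * A * B * Z := by
  rw [op_conv]
  refine (norm_integral_le_integral_norm _).trans ?_
  set s : TT → ℝ := fun y => √(br a y.1 * br b y.2 / (2 ^ a * 2 ^ b)) with hs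
  have spos : ∀ y, 0 < s y := fun y =>
    Real.sqrt_pos.mpr (div_pos (mul_pos (br_pos _ _) (br_pos _ _)) (by positivity))
  have ssq : ∀ y, s y ^ 2 = br a y.1 * br b y.2 / (2 ^ a * 2 ^ b) := fun y =>
    Real.sq_sqrt (div_pos (mul_pos (br_pos _ _) (br_pos _ _)) (by positivity)).le
  have scont : Continuous s := by rw [hs]; fun_prop
  have e : ∀ y : TT, ‖kr a μ y.1 * kr b ν y.2 * g (x - y)‖
      = (‖kr a μ y.1‖ * ‖kr b ν y.2‖ * s y) * (‖g (x - y)‖ / s y) := by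
    intro y
    have := (spos y).ne'
    rw [norm_mul, norm_mul]; field_simp
  simp only [e]
  have hA := h1.nonneg
  have hB := h2.nonneg
  refine cs (v := fun y => ‖g (x - y)‖ / s y) (by fun_prop)
    (Continuous.div (by fun_prop) scont fun y => (spos y).ne') (by positivity) hZ ?_ ?_
  · have e2 : ∀ y : TT, (‖kr a μ y.1‖ * ‖kr b ν y.2‖ * s y) ^ 2
        = (2 ^ a * 2 ^ b : ℝ)⁻¹ * ((‖kr a μ y.1‖ ^ 2 * br a y.1) * (‖kr b ν y.2‖ ^ 2 * br b y.2)) := by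
      intro y; rw [mul_pow, ssq]; field_simp
    simp only [e2]
    rw [integral_const_mul, integral_prod_mul (μ := m1) (ν := m1)
      (fun y => ‖kr a μ y‖ ^ 2 * br a y) (fun y => ‖kr b ν y‖ ^ 2 * br b y)]
    have p2 : 0 ≤ ∫ y, ‖kr b ν y‖ ^ 2 * br b y ∂m1 :=
      integral_nonneg fun y => mul_nonneg (sq_nonneg _) (br_pos _ _).le
    have := mul_le_mul (kr_L2 h1) (kr_L2 h2) p2 (by positivity)
    calc _ ≤ (2 ^ a * 2 ^ b : ℝ)⁻¹ * (24 * 2 ^ a * A ^ 2 * (24 * 2 ^ b * B ^ 2)) :=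
          mul_le_mul_of_nonneg_left this (by positivity)
      _ = _ := by field_simp
  · refine le_of_eq_of_le ?_ h
    congr 1; ext y
    have := (br_pos a y.1).ne'
    have := (br_pos b y.2).ne'
    rw [div_pow, ssq]; field_simp

/-- the sixteenth root -/
def rt (q : ℝ) : ℝ := q ^ (1 / 16 : ℝ)

lemma rt_nonneg {q : ℝ} (h : 0 ≤ q) : 0 ≤ rt q := Real.rpow_nonneg h _
lemma rt_pos {q : ℝ} (h : 0 < q) : 0 < rt q := Real.rpow_pos_of_pos h _
lemma rt_mul {p q : ℝ} (hp : 0 ≤ p) (hq : 0 ≤ q) : rt (p * q) = rt p * rt q := Real.mul_rpow hp hq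
lemma rt_mono {p q : ℝ} (hp : 0 ≤ p) (h : p ≤ q) : rt p ≤ rt q :=
  Real.rpow_le_rpow hp h (by norm_num)
lemma rt_pow {c : ℝ} (hc : 0 ≤ c) : rt (c ^ 16) = c := by
  unfold rt
  rw [← Real.rpow_natCast, ← Real.rpow_mul hc]; norm_num
lemma pow_rt {c : ℝ} (hc : 0 ≤ c) : rt c ^ 16 = c := by
  unfold rt
  rw [← Real.rpow_natCast, ← Real.rpow_mul hc]; norm_num
lemma rt_one : rt 1 = 1 := Real.one_rpow _
lemma rt_le_mul {p q c : ℝ} (hp : 0 ≤ p) (hq : 0 ≤ q) (hc : 0 ≤ c) (h : p ≤ c ^ 16 * q) :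
    rt p ≤ c * rt q := by
  have := rt_mono hp h
  rwa [rt_mul (by positivity) hq, rt_pow hc] at this
lemma rt_le_of_le_pow {p c : ℝ} (hp : 0 ≤ p) (hc : 0 ≤ c) (h : p ≤ c ^ 16) : rt p ≤ c := by
  have := rt_mono hp h
  rwa [rt_pow hc] at this
lemma le_rt_of_pow_le {p c : ℝ} (hc : 0 ≤ c) (h : c ^ 16 ≤ p) : c ≤ rt p := by
  have := rt_mono (by positivity) h
  rwa [rt_pow hc] at this
lemma rt_npow {p : ℝ} (hp : 0 ≤ p) (n : ℕ) : rt (p ^ n) = rt p ^ n := by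
  unfold rt
  rw [← Real.rpow_natCast, ← Real.rpow_natCast, ← Real.rpow_mul hp, ← Real.rpow_mul hp, mul_comm]
lemma rt_cont {X : Type*} [TopologicalSpace X] {q : X → ℝ} (h : Continuous q) :
    Continuous fun x => rt (q x) := h.rpow_const fun _ => Or.inr (by norm_num)

/-- the moderation factor -/
def YY (a b : ℕ) (y : TT) : ℝ := 4 * br a y.1 * br b y.2

@[fun_prop] lemma YY_cont (a b : ℕ) : Continuous (YY a b) := by unfold YY; fun_prop

lemma one_le_YY (a b : ℕ) (y : TT) : 1 ≤ YY a b y := by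
  unfold YY
  have := one_le_br a y.1
  have := one_le_br b y.2
  nlinarith

lemma YY_pos (a b : ℕ) (y : TT) : 0 < YY a b y := lt_of_lt_of_le one_pos (one_le_YY a b y)

lemma YY_neg (a b : ℕ) (y : TT) : YY a b (-y) = YY a b y := by
  unfold YY; rw [Prod.fst_neg, Prod.snd_neg, br_neg, br_neg]

lemma YY_mono {a b a' b' : ℕ} (h1 : a ≤ a') (h2 : b ≤ b') (y : TT) : YY a b y ≤ YY a' b' y := by
  unfold YY
  have := br_mono h1 y.1
  have := br_mono h2 y.2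
  have := br_pos a y.1
  have := br_pos b y.2
  have := br_pos a' y.1
  gcongr

lemma rtY_sq (a b : ℕ) (y : TT) :
    rt (YY a b y ^ 2) ^ 2 / (br a y.1 * br b y.2) ≤ 2 * (jj a y.1 * jj b y.2) := by
  have p1 := br_pos a y.1
  have p2 := br_pos b y.2
  set u := br a y.1 * br b y.2 with hu
  have up : 0 < u := mul_pos p1 p2
  have e1 : jj a y.1 * jj b y.2 = u ^ (-(3 / 4) : ℝ) := by
    unfold jj; rw [hu, Real.mul_rpow p1.le p2.le]
  have e2 : rt (YY a b y ^ 2) ^ 2 = (4:ℝ) ^ (1 / 4 : ℝ) * u ^ (1 / 4 : ℝ) := by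
    rw [← Real.mul_rpow (by norm_num) up.le]
    have : YY a b y = 4 * u := by unfold YY; rw [hu]; ring
    rw [this]
    unfold rt
    rw [← Real.rpow_natCast, ← Real.rpow_natCast, ← Real.rpow_mul (by positivity),
      ← Real.rpow_mul (by positivity)]
    norm_num
  have e3 : u ^ (1 / 4 : ℝ) / u = u ^ (-(3 / 4) : ℝ) := by
    rw [← Real.rpow_sub_one up.ne']; norm_num
  have e4 : (4:ℝ) ^ (1 / 4 : ℝ) ≤ 2 := by
    calc (4:ℝ) ^ (1 / 4 : ℝ) ≤ 4 ^ (1 / 2 : ℝ) :=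
          Real.rpow_le_rpow_of_exponent_le (by norm_num) (by norm_num)
      _ = 2 := by rw [← Real.sqrt_eq_rpow, show (4:ℝ) = 2 ^ 2 by norm_num, Real.sqrt_sq (by norm_num)]
  rw [e1, e2, mul_div_assoc, e3]
  exact mul_le_mul_of_nonneg_right e4 (Real.rpow_pos_of_pos up _).le

lemma int_jj2 (a b : ℕ) : ∫ y, 2 ^ a * 2 ^ b * (jj a y.1 * jj b y.2) ∂m2 ≤ CJ ^ 2 := by
  rw [integral_const_mul, integral_prod_mul (μ := m1) (ν := m1) (jj a) (jj b)]
  have p2 : 0 ≤ ∫ y, jj b y ∂m1 := integral_nonneg fun y => (jj_pos _ _).le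
  have := mul_le_mul (int_jj a) (int_jj b) p2 (div_nonneg CJ_pos.le (by positivity))
  calc _ ≤ (2 ^ a * 2 ^ b : ℝ) * (CJ / 2 ^ a * (CJ / 2 ^ b)) :=
        mul_le_mul_of_nonneg_left this (by positivity)
    _ = _ := by field_simp

/-- moderate weights -/
def Mod (a b : ℕ) (q : TT → ℝ) : Prop := ∀ x y, q (x - y) ≤ YY a b y ^ 2 * q x

lemma Mod.mono {a b a' b' : ℕ} {q : TT → ℝ} (h : Mod a b q) (hq : ∀ x, 0 ≤ q x) (h1 : a ≤ a')
    (h2 : b ≤ b') : Mod a' b' q := fun x y =>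
  (h x y).trans (mul_le_mul_of_nonneg_right
    (pow_le_pow_left₀ (YY_pos _ _ _).le (YY_mono h1 h2 y) 2) (hq x))

lemma Mod_one (a b : ℕ) : Mod a b fun _ => 1 := fun _ y => by
  rw [mul_one]; exact one_le_pow₀ (one_le_YY a b y)

def C0 : ℝ := 48 * CJ

lemma one_le_C0 : 1 ≤ C0 := by unfold C0; have := one_le_CJ; linarith
lemma C0_pos : 0 < C0 := lt_of_lt_of_le one_pos one_le_C0

lemma master_mod {a b : ℕ} {μ ν : ℤ → ℂ} {A B : ℝ} (h1 : Mult a μ A) (h2 : Mult b ν B) {g : CT}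
    {q : TT → ℝ} (hq : ∀ x, 0 ≤ q x) (hm : Mod a b q) {c : ℝ} (hc : 0 ≤ c)
    (hg : ∀ z, ‖g z‖ ≤ c * rt (q z)) (x : TT) :
    ‖op a b μ ν g x‖ ≤ C0 * A * B * c * rt (q x) := by
  have hr := rt_nonneg (hq x)
  have hCJ := CJ_pos
  have := master h1 h2 g x (Z := 2 * CJ * (c * rt (q x))) (by positivity) ?_
  · unfold C0; linarith
  · have hb : ∀ y : TT, 2 ^ a * 2 ^ b * ‖g (x - y)‖ ^ 2 / (br a y.1 * br b y.2)
        ≤ 2 * (c * rt (q x)) ^ 2 * (2 ^ a * 2 ^ b * (jj a y.1 * jj b y.2)) := by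
      intro y
      have h3 : ‖g (x - y)‖ ≤ c * rt (q x) * rt (YY a b y ^ 2) := by
        refine (hg _).trans ?_
        rw [mul_assoc]
        refine mul_le_mul_of_nonneg_left ?_ hc
        rw [← rt_mul (hq x) (sq_nonneg _), mul_comm (q x)]
        exact rt_mono (hq _) (hm x y)
      have h4 := pow_le_pow_left₀ (norm_nonneg _) h3 2
      have p1 := br_pos a y.1
      have p2 := br_pos b y.2
      calc _ ≤ 2 ^ a * 2 ^ b * (c * rt (q x) * rt (YY a b y ^ 2)) ^ 2 / (br a y.1 * br b y.2) := by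
            gcongr
        _ = 2 ^ a * 2 ^ b * (c * rt (q x)) ^ 2 * (rt (YY a b y ^ 2) ^ 2 / (br a y.1 * br b y.2)) := by
            ring
        _ ≤ 2 ^ a * 2 ^ b * (c * rt (q x)) ^ 2 * (2 * (jj a y.1 * jj b y.2)) :=
            mul_le_mul_of_nonneg_left (rtY_sq a b y) (by positivity)
        _ = _ := by ring
    have hcont : Continuous fun y : TT => 2 ^ a * 2 ^ b * ‖g (x - y)‖ ^ 2 / (br a y.1 * br b y.2) :=
      Continuous.div (by fun_prop) (by fun_prop) fun y => (mul_pos (br_pos _ _) (br_pos _ _)).ne'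
    refine (integral_mono (cint hcont) (cint (by fun_prop)) hb).trans ?_
    rw [integral_const_mul]
    have := mul_le_mul_of_nonneg_left (int_jj2 a b)
      (show 0 ≤ 2 * (c * rt (q x)) ^ 2 by positivity)
    nlinarith [sq_nonneg (CJ * (c * rt (q x)))]

lemma master_bdd {a b : ℕ} {μ ν : ℤ → ℂ} {A B : ℝ} (h1 : Mult a μ A) (h2 : Mult b ν B) {g : CT}
    {c : ℝ} (hc : 0 ≤ c) (hg : ∀ z, ‖g z‖ ≤ c) (x : TT) :
    ‖op a b μ ν g x‖ ≤ C0 * A * B * c := by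
  have := master_mod h1 h2 (g := g) (q := fun _ => 1) (fun _ => zero_le_one) (Mod_one a b) hc
    (fun z => by simpa [rt_one] using hg z) x
  simpa [rt_one] using this

end

end Pool.Agent.Lib.MP_21a4ea_an
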