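import Pool.Agent.Lib.MP_21a4ea_an.Master

namespace Pool.Agent.Lib.MP_21a4ea_an

open MeasureTheory Real Finset
open scoped ComplexConjugate

noncomputable section

def ww (k : ℤ) : ℝ := max 1 |(k:ℝ)|

lemma one_le_ww (k : ℤ) : 1 ≤ ww k := le_max_left _ _
lemma ww_pos (k : ℤ) : 0 < ww k := lt_of_lt_of_le one_pos (one_le_ww k)
lemma abs_le_ww (k : ℤ) : |(k:ℝ)| ≤ ww k := le_max_right _ _
lemma ww_neg (k : ℤ) : ww (-k) = ww k := by simp [ww]
lemma ww_zero : ww 0 = 1 := by simp [ww]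
lemma ww_of_ne {k : ℤ} (h : k ≠ 0) : ww k = |(k:ℝ)| := by
  apply max_eq_right
  have : (1:ℤ) ≤ |k| := Int.one_le_abs h
  exact_mod_cast this

lemma ww_lip (k : ℤ) : |ww (k + 1) - ww k| ≤ 1 := by
  unfold ww
  rw [max_comm 1, max_comm 1]
  refine (abs_max_sub_max_le_abs _ _ _).trans ((abs_abs_sub_abs_le_abs_sub _ _).trans ?_)
  push_cast; simp

lemma ww_succ_le (k : ℤ) : ww (k + 1) ≤ 2 * ww k := by
  have := abs_le.mp (ww_lip k); have := one_le_ww k; linarith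
lemma ww_le_succ (k : ℤ) : ww k ≤ 2 * ww (k + 1) := by
  have := abs_le.mp (ww_lip k); have := one_le_ww (k + 1); linarith

lemma ww_lt_of_abs_lt {k : ℤ} {x : ℝ} (h : |(k:ℝ)| < x) (hx : 1 < x) : ww k < x := max_lt hx h
lemma ww_le_of_abs_le {k : ℤ} {x : ℝ} (h : |(k:ℝ)| ≤ x) (hx : 1 ≤ x) : ww k ≤ x := max_le hx h
lemma lt_abs_of_lt_ww {k : ℤ} {x : ℝ} (h : x < ww k) (hx : 1 ≤ x) : x < |(k:ℝ)| := by
  rcases lt_max_iff.mp h with h | h
  · linarith
  · exact h

/-- piecewise linear cut-off -/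
def VV (x : ℝ) (k : ℤ) : ℝ := max 0 (min 1 (2 - ww k / x))

lemma VV_nonneg (x : ℝ) (k : ℤ) : 0 ≤ VV x k := le_max_left _ _
lemma VV_le_one (x : ℝ) (k : ℤ) : VV x k ≤ 1 := max_le zero_le_one (min_le_left _ _)
lemma VV_one {x : ℝ} {k : ℤ} (h : ww k ≤ x) : VV x k = 1 := by
  have hx : 0 < x := lt_of_lt_of_le (ww_pos k) h
  have : ww k / x ≤ 1 := (div_le_one hx).mpr h
  unfold VV
  rw [min_eq_left (by linarith), max_eq_right zero_le_one]
lemma VV_zero {x : ℝ} {k : ℤ} (hx : 0 < x) (h : 2 * x ≤ ww k) : VV x k = 0 := by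
  have : 2 ≤ ww k / x := (le_div_iff₀ hx).mpr h
  unfold VV
  exact max_eq_left ((min_le_right _ _).trans (by linarith))
lemma VV_lip {x : ℝ} (hx : 0 < x) (k : ℤ) : |VV x (k + 1) - VV x k| ≤ 1 / x := by
  unfold VV
  rw [max_comm 0, max_comm 0]
  refine (abs_max_sub_max_le_abs _ _ _).trans ((abs_min_sub_min_le_max _ _ _ _).trans ?_)
  refine max_le (by simp; positivity) ?_
  have : 2 - ww (k + 1) / x - (2 - ww k / x) = -(ww (k + 1) - ww k) / x := by ring
  rw [this, abs_div, abs_neg, abs_of_pos hx]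
  exact div_le_div_of_nonneg_right (ww_lip k) hx.le

lemma ww_ge_of_supp {a : ℕ} {k : ℤ} (h : (2:ℤ) ^ (a + 2) ≤ |k|) : 4 * (2:ℝ) ^ a ≤ ww k := by
  refine le_trans ?_ (abs_le_ww k)
  have : (((2:ℤ) ^ (a + 2) : ℤ) : ℝ) ≤ ((|k| : ℤ) : ℝ) := by exact_mod_cast h
  push_cast at this
  rw [pow_add] at this; linarith

lemma Mult.ww_le {a : ℕ} {μ : ℤ → ℂ} {A : ℝ} (h : Mult a μ A) {k : ℤ} (hk : μ k ≠ 0) :
    ww k ≤ 4 * 2 ^ a := by
  have h1 : |k| < (2:ℤ) ^ (a + 2) := not_le.mp (mt (h.supp k) hk)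
  have h2 : ((|k| : ℤ) : ℝ) < (((2:ℤ) ^ (a + 2) : ℤ) : ℝ) := by exact_mod_cast h1
  push_cast at h2
  rw [pow_add] at h2
  have : (1:ℝ) ≤ 2 ^ a := one_le_pow₀ (by norm_num)
  exact ww_le_of_abs_le (by linarith) (by linarith)

def Vc (x : ℝ) (k : ℤ) : ℂ := (VV x k : ℂ)

lemma Mult_Vc {a : ℕ} {x : ℝ} (h1 : x ≤ 2 * 2 ^ a) (h2 : 2 ^ a ≤ 2 * x) : Mult a (Vc x) 2 := by
  have hp : (0:ℝ) < 2 ^ a := by positivity
  have hx : 0 < x := by linarith
  refine ⟨fun k hk => ?_, fun k => ?_, fun k => ?_⟩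
  · unfold Vc; rw [VV_zero hx (by have := ww_ge_of_supp hk; linarith)]; simp
  · unfold Vc
    rw [Complex.norm_real, Real.norm_eq_abs, abs_of_nonneg (VV_nonneg _ _)]
    have := VV_le_one x k; linarith
  · unfold Vc
    rw [← Complex.ofReal_sub, Complex.norm_real, Real.norm_eq_abs]
    refine (VV_lip hx k).trans ?_
    rw [div_le_div_iff₀ hx hp]; linarith

lemma Mult_diff {a : ℕ} {x y A : ℝ} (hx : 0 < x) (hy : 0 < y) (h1 : x ≤ 2 * 2 ^ a)
    (h2 : y ≤ 2 * 2 ^ a) (hA : 1 ≤ A) (h3 : 1 / x + 1 / y ≤ A / 2 ^ a) :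
    Mult a (fun k => Vc x k - Vc y k) A := by
  refine ⟨fun k hk => ?_, fun k => ?_, fun k => ?_⟩
  · unfold Vc
    have := ww_ge_of_supp hk
    rw [VV_zero hx (by linarith), VV_zero hy (by linarith)]; simp
  · unfold Vc
    rw [← Complex.ofReal_sub, Complex.norm_real, Real.norm_eq_abs, abs_le]
    have := VV_le_one x k; have := VV_le_one y k
    have := VV_nonneg x k; have := VV_nonneg y k
    constructor <;> linarith
  · unfold Vc
    rw [← Complex.ofReal_sub, ← Complex.ofReal_sub, ← Complex.ofReal_sub, Complex.norm_real,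
      Real.norm_eq_abs]
    have a1 := abs_le.mp (VV_lip hx k)
    have a2 := abs_le.mp (VV_lip hy k)
    rw [abs_le]; constructor <;> linarith [a1.1, a1.2, a2.1, a2.2]

/-- dyadic block -/
def Blk (s : ℕ) (k : ℤ) : Prop := 2 ^ s / 2 < ww k ∧ ww k < 2 * 2 ^ s

lemma Blk_neg {s : ℕ} {k : ℤ} (h : Blk s k) : Blk s (-k) := by unfold Blk at *; rwa [ww_neg]

def Del (s : ℕ) (k : ℤ) : ℂ := Vc (2 ^ s) k - Vc (2 ^ s / 2) k
def Wid (s : ℕ) (k : ℤ) : ℂ := Vc (2 * 2 ^ s) k - Vc (2 ^ s / 4) k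

lemma Mult_Del (s : ℕ) : Mult s (Del s) 3 := by
  have hp : (0:ℝ) < 2 ^ s := by positivity
  refine Mult_diff hp (by positivity) (by linarith) (by linarith) (by norm_num) (le_of_eq ?_)
  field_simp; ring

lemma Mult_Wid (s : ℕ) : Mult s (Wid s) 5 := by
  have hp : (0:ℝ) < 2 ^ s := by positivity
  refine Mult_diff (by positivity) (by positivity) (by linarith) (by linarith) (by norm_num) ?_
  have : 1 / (2 * 2 ^ s) + 1 / (2 ^ s / 4) = (9 / 2) / (2:ℝ) ^ s := by field_simp; ring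
  rw [this]
  exact div_le_div_of_nonneg_right (by norm_num) hp.le

lemma Del_blk {s : ℕ} {k : ℤ} (h : Del s k ≠ 0) : Blk s k := by
  have hp : (0:ℝ) < 2 ^ s := by positivity
  constructor
  · by_contra hc
    push Not at hc
    apply h
    unfold Del Vc
    rw [VV_one hc, VV_one (hc.trans (by linarith))]; simp
  · by_contra hc
    push Not at hc
    apply h
    unfold Del Vc
    rw [VV_zero hp hc, VV_zero (by positivity) (by linarith)]; simp

lemma Wid_lo {s : ℕ} {k : ℤ} (h : Wid s k ≠ 0) : 2 ^ s / 4 < ww k := by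
  have hp : (0:ℝ) < 2 ^ s := by positivity
  by_contra hc
  push Not at hc
  apply h
  unfold Wid Vc
  rw [VV_one hc, VV_one (hc.trans (by linarith))]; simp

lemma Wid_one {s : ℕ} {k : ℤ} (h : Blk s k) : Wid s k = 1 := by
  have hp : (0:ℝ) < 2 ^ s := by positivity
  unfold Wid Vc
  rw [VV_one h.2.le, VV_zero (by positivity) (by linarith [h.1])]; simp

lemma Del_tel (p q : ℕ) (k : ℤ) :
    ∑ i ∈ range q, Del (p + i) k = Vc (2 ^ (p + q) / 2) k - Vc (2 ^ p / 2) k := by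
  induction q with
  | zero => simp
  | succ q ih =>
    rw [Finset.sum_range_succ, ih, Del, ← add_assoc, pow_succ]
    have : (2:ℝ) ^ (p + q) * 2 / 2 = 2 ^ (p + q) := by ring
    rw [this]; ring

lemma Del_sum_one {p q : ℕ} {k : ℤ} (h1 : 2 ^ p ≤ ww k) (h2 : ww k ≤ 2 ^ (p + q) / 2) :
    ∑ i ∈ range q, Del (p + i) k = 1 := by
  rw [Del_tel]
  unfold Vc
  rw [VV_one h2, VV_zero (by positivity) (by linarith)]; simp

/-- regularity of a symbol on the region of a block -/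
def Reg (a : ℕ) (p : ℤ → ℂ) (A : ℝ) : Prop :=
  ∀ k, 2 ^ a / 8 ≤ ww k → ww k ≤ 8 * 2 ^ a → ‖p k‖ ≤ A ∧ ‖p (k + 1) - p k‖ ≤ A / 2 ^ a

lemma prod_lip {a : ℕ} {x x' y y' : ℂ} {A B : ℝ} (h1 : ‖x‖ ≤ A) (h2 : ‖x' - x‖ ≤ A / 2 ^ a)
    (h3 : ‖y‖ ≤ B) (h4 : ‖y' - y‖ ≤ B / 2 ^ a) :
    ‖x * y‖ ≤ 3 * A * B ∧ ‖x' * y' - x * y‖ ≤ 3 * A * B / 2 ^ a := by
  have hA : 0 ≤ A := (norm_nonneg _).trans h1
  have hB : 0 ≤ B := (norm_nonneg _).trans h3
  have hp : (1:ℝ) ≤ 2 ^ a := one_le_pow₀ (by norm_num)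
  constructor
  · rw [norm_mul]
    have := mul_le_mul h1 h3 (norm_nonneg _) hA
    nlinarith [mul_nonneg hA hB]
  · have h5 : ‖x'‖ ≤ 2 * A := by
      have : ‖x'‖ ≤ ‖x' - x‖ + ‖x‖ := by simpa using norm_add_le (x' - x) x
      have : A / 2 ^ a ≤ A := div_le_self hA hp
      linarith
    have e : x' * y' - x * y = x' * (y' - y) + (x' - x) * y := by ring
    rw [e]
    refine (norm_add_le _ _).trans ?_
    rw [norm_mul, norm_mul]
    have a1 := mul_le_mul h5 h4 (norm_nonneg _) (by positivity)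
    have a2 := mul_le_mul h2 h3 (norm_nonneg _) (by positivity)
    have : 2 * A * (B / 2 ^ a) + A / 2 ^ a * B = 3 * A * B / 2 ^ a := by ring
    linarith

lemma Reg.mul {a : ℕ} {p q : ℤ → ℂ} {A B : ℝ} (h1 : Reg a p A) (h2 : Reg a q B) :
    Reg a (fun k => p k * q k) (3 * A * B) := fun k k1 k2 =>
  prod_lip (h1 k k1 k2).1 (h1 k k1 k2).2 (h2 k k1 k2).1 (h2 k k1 k2).2

lemma Reg.mult {a : ℕ} {p ψ : ℤ → ℂ} {A B : ℝ} (h1 : Reg a p A) (hA : 0 ≤ A) (h2 : Mult a ψ B)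
    (h3 : ∀ k, ψ k ≠ 0 → 2 ^ a / 4 < ww k) : Mult a (fun k => p k * ψ k) (3 * A * B) := by
  have hB := h2.nonneg
  have hp : (0:ℝ) < 2 ^ a := by positivity
  have key : ∀ k, ψ k ≠ 0 ∨ ψ (k + 1) ≠ 0 →
      ‖p k * ψ k‖ ≤ 3 * A * B ∧ ‖p (k + 1) * ψ (k + 1) - p k * ψ k‖ ≤ 3 * A * B / 2 ^ a := by
    intro k hk
    have hr : 2 ^ a / 8 ≤ ww k ∧ ww k ≤ 8 * 2 ^ a := by
      rcases hk with hk | hk
      · have := h3 k hk; have := h2.ww_le hk; constructor <;> linarith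
      · have := h3 _ hk; have := h2.ww_le hk
        have := ww_succ_le k; have := ww_le_succ k
        constructor <;> linarith
    exact prod_lip (h1 k hr.1 hr.2).1 (h1 k hr.1 hr.2).2 (h2.bd k) (h2.lip k)
  refine ⟨fun k hk => by simp [h2.supp k hk], fun k => ?_, fun k => ?_⟩
  · by_cases hk : ψ k = 0
    · simp only [hk, mul_zero, norm_zero]; positivity
    · exact (key k (Or.inl hk)).1
  · by_cases hk : ψ k ≠ 0 ∨ ψ (k + 1) ≠ 0
    · exact (key k hk).2
    · push Not at hk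
      simp only [hk.1, hk.2, mul_zero, sub_zero, norm_zero]; positivity

/-- the symbol of a fractional derivative -/
def sym (p θ : ℝ) (k : ℤ) : ℂ :=
  ((ww k ^ p : ℝ) : ℂ) * Complex.exp (Complex.I * ((Int.sign k * θ : ℝ) : ℂ))

lemma sym_zero (p θ : ℝ) : sym p θ 0 = 1 := by simp [sym, ww_zero]

lemma sym_norm (p θ : ℝ) (k : ℤ) : ‖sym p θ k‖ = ww k ^ p := by
  unfold sym
  rw [norm_mul, Complex.norm_real, mul_comm Complex.I, Complex.norm_exp_ofReal_mul_I, mul_one,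
    Real.norm_eq_abs, abs_of_pos (Real.rpow_pos_of_pos (ww_pos k) _)]

lemma sym_inv (p θ : ℝ) (k : ℤ) : sym p θ k * sym (-p) (-θ) k = 1 := by
  unfold sym
  have h1 : ((ww k ^ p : ℝ) : ℂ) * ((ww k ^ (-p) : ℝ) : ℂ) = 1 := by
    rw [← Complex.ofReal_mul, ← Real.rpow_add (ww_pos k)]; simp
  have h2 : Complex.exp (Complex.I * ((Int.sign k * θ : ℝ) : ℂ))
      * Complex.exp (Complex.I * ((Int.sign k * -θ : ℝ) : ℂ)) = 1 := by
    rw [← Complex.exp_add]; push_cast; simp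
  linear_combination (Complex.exp (Complex.I * ((Int.sign k * θ : ℝ) : ℂ))
      * Complex.exp (Complex.I * ((Int.sign k * -θ : ℝ) : ℂ))) * h1 + h2

lemma rpow_cmp {y z c p : ℝ} (hy : 0 < y) (hz : 0 < z) (hc : 1 ≤ c) (h1 : y ≤ c * z)
    (h2 : z ≤ c * y) : y ^ p ≤ c ^ |p| * z ^ p := by
  have hc0 : 0 < c := by linarith
  rcases le_total 0 p with hp | hp
  · rw [abs_of_nonneg hp, ← Real.mul_rpow hc0.le hz.le]
    exact Real.rpow_le_rpow hy.le h1 hp
  · rw [abs_of_nonpos hp, Real.rpow_neg hc0.le, ← Real.inv_rpow hc0.le,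
      ← Real.mul_rpow (by positivity) hz.le]
    refine Real.rpow_le_rpow_of_nonpos (by positivity) ?_ hp
    rw [inv_mul_le_iff₀ hc0]; exact h2

lemma rpow_step {x K p : ℝ} (hK : 0 < K) (hx : K ≤ 16 * x) (hx2 : x + 1 ≤ 16 * K) :
    |(x + 1) ^ p - x ^ p| ≤ |p| * (16 ^ |p - 1| * K ^ (p - 1)) := by
  have hx0 : 0 < x := by linarith
  have hd : ∀ y ∈ Set.Icc x (x + 1), HasDerivWithinAt (fun y : ℝ => y ^ p) (p * y ^ (p - 1))
      (Set.Icc x (x + 1)) y := fun y hy =>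
    (Real.hasDerivAt_rpow_const (Or.inl (by linarith [hy.1] : 0 < y).ne')).hasDerivWithinAt
  have := norm_image_sub_le_of_norm_deriv_le_segment' hd
    (C := |p| * (16 ^ |p - 1| * K ^ (p - 1))) ?_ (x + 1) (Set.right_mem_Icc.mpr (by linarith))
  · simpa using this
  · intro y hy
    have hy0 : 0 < y := by linarith [hy.1]
    rw [norm_mul, Real.norm_eq_abs, Real.norm_eq_abs, abs_of_pos (Real.rpow_pos_of_pos hy0 _)]
    refine mul_le_mul_of_nonneg_left ?_ (abs_nonneg _)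
    exact rpow_cmp hy0 hK (by norm_num) (by linarith [hy.2]) (by linarith [hy.1])

def Cs (p : ℝ) : ℝ := 16 ^ |p| + (|p| + 2) * 16 ^ |p - 1|

lemma Cs_pos (p : ℝ) : 0 < Cs p := by unfold Cs; positivity

lemma Reg_sym (p θ : ℝ) (a : ℕ) : Reg a (sym p θ) (Cs p * ((2:ℝ) ^ a) ^ p) := by
  intro k k1 k2
  set K : ℝ := 2 ^ a with hK
  have hK0 : 0 < K := by positivity
  have hKp : 0 < K ^ p := Real.rpow_pos_of_pos hK0 _
  have hK1 : 0 < K ^ (p - 1) := Real.rpow_pos_of_pos hK0 _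
  have e1 : Cs p * K ^ p / K = Cs p * K ^ (p - 1) := by
    rw [Real.rpow_sub_one hK0.ne']; ring
  have q1 : (0:ℝ) < 16 ^ |p| := by positivity
  have q2 : (0:ℝ) < 16 ^ |p - 1| := by positivity
  have q3 := abs_nonneg p
  constructor
  · rw [sym_norm]
    refine (rpow_cmp (c := 16) (ww_pos k) hK0 (by norm_num) (by linarith) (by linarith)).trans ?_
    refine mul_le_mul_of_nonneg_right ?_ hKp.le
    unfold Cs; nlinarith [mul_pos q1 q2]
  · rw [e1]
    have fin : (|p| + 2) * (16 ^ |p - 1| * K ^ (p - 1)) ≤ Cs p * K ^ (p - 1) := by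
      unfold Cs; nlinarith [mul_pos q1 hK1]
    refine le_trans ?_ fin
    have q4 : 0 < 16 ^ |p - 1| * K ^ (p - 1) := mul_pos q2 hK1
    have small : ww k = 1 → ww (k + 1) = 1 →
        ‖sym p θ (k + 1) - sym p θ k‖ ≤ (|p| + 2) * (16 ^ |p - 1| * K ^ (p - 1)) := by
      intro w1 w2
      refine (norm_sub_le _ _).trans ?_
      rw [sym_norm, sym_norm, w1, w2, Real.one_rpow]
      have := rpow_cmp (p := p - 1) (c := 16) one_pos hK0 (by norm_num) (by linarith) (by linarith)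
      rw [Real.one_rpow] at this
      nlinarith
    have same : ∀ {x y : ℝ} (u : ℂ), ‖u‖ = 1 → |x - y| ≤ |p| * (16 ^ |p - 1| * K ^ (p - 1)) →
        ‖(x:ℂ) * u - (y:ℂ) * u‖ ≤ (|p| + 2) * (16 ^ |p - 1| * K ^ (p - 1)) := by
      intro x y u hu h
      rw [← sub_mul, norm_mul, hu, mul_one, ← Complex.ofReal_sub, Complex.norm_real,
        Real.norm_eq_abs]
      nlinarith
    have nu : ∀ t : ℝ, ‖Complex.exp (Complex.I * (t:ℂ))‖ = 1 := fun t => by
      rw [mul_comm, Complex.norm_exp_ofReal_mul_I]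
    rcases lt_trichotomy k 0 with hk | hk | hk
    · rcases eq_or_lt_of_le (show k + 1 ≤ 0 by omega) with hk1 | hk1
      · refine small ?_ (by rw [hk1, ww_zero])
        rw [show k = -1 by omega]; simp [ww]
      · unfold sym
        rw [Int.sign_eq_neg_one_of_neg hk, Int.sign_eq_neg_one_of_neg hk1]
        refine same _ (nu _) ?_
        have hk' : (k:ℝ) + 1 < 0 := by exact_mod_cast hk1
        have w1 : ww k = ww (k + 1) + 1 := by
          rw [ww_of_ne hk.ne, ww_of_ne hk1.ne]; push_cast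
          rw [abs_of_neg hk', abs_of_neg (by linarith)]; ring
        have := ww_le_succ k
        rw [abs_sub_comm, w1]
        exact rpow_step hK0 (by linarith) (by linarith)
    · subst hk
      exact small ww_zero (by simp [ww])
    · unfold sym
      rw [Int.sign_eq_one_of_pos hk, Int.sign_eq_one_of_pos (show 0 < k + 1 by omega)]
      refine same _ (nu _) ?_
      have hk' : (0:ℝ) < k := by exact_mod_cast hk
      have w1 : ww (k + 1) = ww k + 1 := by
        rw [ww_of_ne hk.ne', ww_of_ne (show k + 1 ≠ 0 by omega)]; push_cast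
        rw [abs_of_pos hk', abs_of_pos (by linarith)]
      have := ww_succ_le k
      rw [w1]
      exact rpow_step hK0 (by linarith) (by linarith)

lemma int_exp (t : ℝ) :
    ∫ u in (-1:ℝ)..1, Complex.exp (Complex.I * ((t * u : ℝ) : ℂ)) = 2 * (Real.sinc t : ℂ) := by
  by_cases ht : t = 0
  · subst ht; simp; norm_num
  · have hc : Complex.I * t ≠ 0 := mul_ne_zero Complex.I_ne_zero (Complex.ofReal_ne_zero.mpr ht)
    have := integral_exp_mul_complex (a := -1) (b := 1) hc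
    simp only [Complex.ofReal_mul, ← mul_assoc]
    rw [this, Real.sinc_of_ne_zero ht]
    have ht' : (t:ℂ) ≠ 0 := Complex.ofReal_ne_zero.mpr ht
    push_cast
    rw [Complex.sin]
    have hI := Complex.I_ne_zero
    field_simp
    simp only [Complex.I_sq]
    ring_nf

lemma sinc_lip (x y : ℝ) : |Real.sinc x - Real.sinc y| ≤ |x - y| := by
  have c1 : ∀ t : ℝ, Continuous fun u : ℝ => Complex.exp (Complex.I * ((t * u : ℝ) : ℂ)) := by
    intro t; fun_prop
  have h := intervalIntegral.integral_sub ((c1 x).intervalIntegrable (μ := volume) (-1) 1)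
    ((c1 y).intervalIntegrable (μ := volume) (-1) 1)
  rw [int_exp, int_exp] at h
  have h2 := intervalIntegral.norm_integral_le_of_norm_le_const (a := (-1:ℝ)) (b := 1)
    (C := |x - y|) (f := fun u => Complex.exp (Complex.I * ((x * u : ℝ) : ℂ))
      - Complex.exp (Complex.I * ((y * u : ℝ) : ℂ))) ?_
  · rw [h, ← mul_sub, ← Complex.ofReal_sub, norm_mul, Complex.norm_real, Real.norm_eq_abs] at h2
    norm_num at h2
    linarith
  · intro u hu
    have hu' : |u| ≤ 1 := by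
      rw [Set.uIoc_of_le (by norm_num)] at hu
      exact abs_le.mpr ⟨hu.1.le, hu.2⟩
    have e : Complex.exp (Complex.I * ((x * u : ℝ) : ℂ)) - Complex.exp (Complex.I * ((y * u : ℝ) : ℂ))
        = Complex.exp (Complex.I * ((y * u : ℝ) : ℂ))
          * (Complex.exp (Complex.I * (((x - y) * u : ℝ) : ℂ)) - 1) := by
      rw [mul_sub, ← Complex.exp_add]; push_cast; ring_nf
    rw [e, norm_mul, mul_comm Complex.I ((y * u : ℝ) : ℂ), Complex.norm_exp_ofReal_mul_I, one_mul]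
    refine Real.norm_exp_I_mul_ofReal_sub_one_le.trans ?_
    rw [Real.norm_eq_abs, abs_mul]
    exact mul_le_of_le_one_right (abs_nonneg _) hu'

/-- the width of the smoothing -/
def hh (N s : ℕ) : ℝ := 1 / (32 * (N + 2) * 2 ^ s)

lemma hh_pos (N s : ℕ) : 0 < hh N s := by unfold hh; positivity

def es (N s : ℕ) (k : ℤ) : ℂ := ((Real.sinc (k * hh N s) ^ (N + 2) : ℝ) : ℂ)

lemma es_zero (N s : ℕ) : es N s 0 = 1 := by simp [es]

lemma es_sub (N s : ℕ) (k l : ℤ) {z : ℝ} (h1 : |Real.sinc (k * hh N s)| ≤ z)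
    (h2 : |Real.sinc (l * hh N s)| ≤ z) :
    ‖es N s k - es N s l‖ ≤ |(k:ℝ) - l| / (32 * 2 ^ s) * z ^ (N + 1) := by
  unfold es
  rw [← Complex.ofReal_sub, Complex.norm_real, Real.norm_eq_abs]
  refine (abs_pow_sub_pow_le ..).trans ?_
  have h3 := sinc_lip (k * hh N s) (l * hh N s)
  rw [← sub_mul, abs_mul, abs_of_pos (hh_pos N s)] at h3
  have h4 : max |Real.sinc (k * hh N s)| |Real.sinc (l * hh N s)| ^ (N + 2 - 1) ≤ z ^ (N + 1) :=
    pow_le_pow_left₀ (le_max_of_le_left (abs_nonneg _)) (max_le h1 h2) _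
  have := hh_pos N s
  calc _ ≤ |(k:ℝ) - l| * hh N s * ((N + 2 : ℕ) : ℝ) * z ^ (N + 1) := by gcongr
    _ = _ := by unfold hh; push_cast; field_simp

lemma es_norm_le (N s : ℕ) (k : ℤ) {z : ℝ} (h1 : |Real.sinc (k * hh N s)| ≤ z) :
    ‖es N s k‖ ≤ z ^ N := by
  unfold es
  rw [Complex.norm_real, Real.norm_eq_abs, abs_pow, pow_add]
  have h2 : |Real.sinc (k * hh N s)| ^ 2 ≤ 1 := pow_le_one₀ (abs_nonneg _) (Real.abs_sinc_le_one _)
  have h3 : |Real.sinc (k * hh N s)| ^ N ≤ z ^ N := pow_le_pow_left₀ (abs_nonneg _) h1 _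
  have h4 : 0 ≤ |Real.sinc (k * hh N s)| ^ N := by positivity
  nlinarith

lemma es_lip (N s : ℕ) (k : ℤ) : ‖es N s (k + 1) - es N s k‖ ≤ 1 / (32 * 2 ^ s) := by
  have := es_sub N s (k + 1) k (Real.abs_sinc_le_one _) (Real.abs_sinc_le_one _)
  simpa using this

lemma Reg_es_le (N : ℕ) {σ s : ℕ} (h : σ ≤ s) : Reg σ (es N s) 1 := by
  intro k _ _
  refine ⟨by simpa using es_norm_le N s k (Real.abs_sinc_le_one _), (es_lip N s k).trans ?_⟩
  have : (2:ℝ) ^ σ ≤ 2 ^ s := pow_le_pow_right₀ (by norm_num) h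
  have hp : (0:ℝ) < 2 ^ σ := by positivity
  exact div_le_div_of_nonneg_left (by norm_num) hp (by linarith)

lemma Reg_es_gt (N s e : ℕ) :
    Reg (s + e) (es N s) (16 * (N + 2) * (512 * (N + 2) / 2 ^ e) ^ N) := by
  set z : ℝ := 512 * (N + 2) / 2 ^ e with hz
  have hz0 : 0 < z := by positivity
  have hN : (2:ℝ) ≤ N + 2 := by have : (0:ℝ) ≤ N := Nat.cast_nonneg N; linarith
  have p1 : (0:ℝ) < 2 ^ s := by positivity
  have p1' : (1:ℝ) ≤ 2 ^ s := one_le_pow₀ (by norm_num)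
  have p2 : (0:ℝ) < 2 ^ e := by positivity
  have key : ∀ k : ℤ, 2 ^ (s + e) / 16 ≤ ww k → |Real.sinc (k * hh N s)| ≤ z := by
    intro k hk
    rw [pow_add] at hk
    by_cases h0 : k = 0
    · subst h0
      rw [ww_zero] at hk
      refine (Real.abs_sinc_le_one _).trans ?_
      rw [hz, le_div_iff₀ p2]
      nlinarith
    · rw [ww_of_ne h0] at hk
      have hk0 : (k:ℝ) ≠ 0 := by exact_mod_cast h0
      have hne : (k:ℝ) * hh N s ≠ 0 := mul_ne_zero hk0 (hh_pos N s).ne'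
      have habs : 0 < |(k:ℝ)| := abs_pos.mpr hk0
      rw [Real.sinc_of_ne_zero hne, abs_div, abs_mul, abs_of_pos (hh_pos N s),
        div_le_iff₀ (mul_pos habs (hh_pos N s))]
      refine (Real.abs_sin_le_one _).trans ?_
      have : z * (|(k:ℝ)| * hh N s) = 16 * |(k:ℝ)| / (2 ^ s * 2 ^ e) := by
        rw [hz]; unfold hh; field_simp; ring
      rw [this, le_div_iff₀ (by positivity)]
      linarith
  intro k k1 _
  have a1 := key k (by have : (0:ℝ) < 2 ^ (s + e) := by positivity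
                       linarith)
  have a2 := key (k + 1) (by have := ww_le_succ k; linarith)
  have zp : 0 < z ^ N := by positivity
  constructor
  · refine (es_norm_le N s k a1).trans ?_
    nlinarith
  · refine (es_sub N s (k + 1) k a2 a1).trans (le_of_eq ?_)
    push_cast
    rw [add_sub_cancel_left, abs_one, pow_succ z, pow_add]
    nth_rewrite 2 [hz]
    field_simp; ring

lemma es_ge (N s : ℕ) {k : ℤ} (h : ww k ≤ 16 * 2 ^ s) : 1 / 2 ≤ ‖es N s k‖ := by
  have h1 := es_sub N s k 0 (Real.abs_sinc_le_one _) (Real.abs_sinc_le_one _)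
  rw [es_zero] at h1
  have h2 : |(k:ℝ)| / (32 * 2 ^ s) ≤ 1 / 2 := by
    rw [div_le_iff₀ (by positivity)]; have := abs_le_ww k; linarith
  have h3 : ‖(1:ℂ)‖ ≤ ‖es N s k‖ + ‖es N s k - 1‖ := by
    have := norm_sub_le (es N s k) (es N s k - 1)
    simpa using this
  simp only [Int.cast_zero, sub_zero, one_pow, mul_one, norm_one] at h1 h3
  linarith

lemma Reg_es_inv (N s : ℕ) : Reg s (fun k => (es N s k)⁻¹) 2 := by
  intro k _ k2
  have hp : (0:ℝ) < 2 ^ s := by positivity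
  have a1 := es_ge N s (k := k) (by linarith)
  have a2 := es_ge N s (k := k + 1) (by have := ww_succ_le k; linarith)
  have n1 : es N s k ≠ 0 := by intro h; rw [h] at a1; norm_num at a1
  have n2 : es N s (k + 1) ≠ 0 := by intro h; rw [h] at a2; norm_num at a2
  constructor
  · rw [norm_inv, inv_le_comm₀ (by linarith) (by norm_num)]; linarith
  · have e : (es N s (k + 1))⁻¹ - (es N s k)⁻¹
        = -(es N s (k + 1) - es N s k) / (es N s (k + 1) * es N s k) := by field_simp; ring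
    rw [e, norm_div, norm_neg, norm_mul, div_le_iff₀ (by positivity)]
    refine (es_lip N s k).trans ?_
    have : 1 / 4 ≤ ‖es N s (k + 1)‖ * ‖es N s k‖ := by nlinarith
    calc 1 / (32 * 2 ^ s) ≤ 2 / (2:ℝ) ^ s * (1 / 4) := by
          rw [div_mul_div_comm, div_le_div_iff₀ (by positivity) (by positivity)]; nlinarith
      _ ≤ _ := mul_le_mul_of_nonneg_left this (by positivity)

end

end Pool.Agent.Lib.MP_21a4ea_an
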