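import Pool.Agent.Lib.MP_21a4ea_an.Mult

namespace Pool.Agent.Lib.MP_21a4ea_an

open MeasureTheory Real Finset
open scoped ComplexConjugate

noncomputable section

variable {m : ℕ} (n : ℕ) (ξ : Fin m → TT)

/-- soft count of the nodes near a point at a dyadic shape -/
def rho (a b : ℕ) (x : TT) : ℝ :=
  2 ^ n / 2 ^ (a + b) + ∑ μ, jj a (x.1 - (ξ μ).1) * jj b (x.2 - (ξ μ).2)

@[fun_prop] lemma rho_cont (a b : ℕ) : Continuous (rho n ξ a b) := by unfold rho; fun_prop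

lemma rho_ge (a b : ℕ) (x : TT) : 2 ^ n / 2 ^ (a + b) ≤ rho n ξ a b x := by
  unfold rho
  have : 0 ≤ ∑ μ, jj a (x.1 - (ξ μ).1) * jj b (x.2 - (ξ μ).2) :=
    Finset.sum_nonneg fun μ _ => (mul_pos (jj_pos _ _) (jj_pos _ _)).le
  linarith

lemma rho_pos (a b : ℕ) (x : TT) : 0 < rho n ξ a b x :=
  lt_of_lt_of_le (by positivity) (rho_ge n ξ a b x)

lemma rho_anti {a b a' b' : ℕ} (h1 : a ≤ a') (h2 : b ≤ b') (x : TT) :
    rho n ξ a' b' x ≤ rho n ξ a b x := by
  unfold rho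
  refine add_le_add ?_ (Finset.sum_le_sum fun μ _ => ?_)
  · exact div_le_div_of_nonneg_left (by positivity) (by positivity)
      (pow_le_pow_right₀ (by norm_num) (by omega))
  · exact mul_le_mul (jj_anti h1 _) (jj_anti h2 _) (jj_pos _ _).le (jj_pos _ _).le

lemma rho_le_pow (a b u v : ℕ) (x : TT) :
    rho n ξ a b x ≤ 4 ^ (u + v) * rho n ξ (a + u) (b + v) x := by
  unfold rho
  rw [mul_add, Finset.mul_sum]
  refine add_le_add ?_ (Finset.sum_le_sum fun μ _ => ?_)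
  · have e : (2:ℝ) ^ (a + u + (b + v)) = 2 ^ (a + b) * 2 ^ (u + v) := by
      rw [← pow_add]; congr 1; ring
    have h : (2:ℝ) ^ (u + v) ≤ 4 ^ (u + v) := pow_le_pow_left₀ (by norm_num) (by norm_num) _
    rw [e, mul_div_assoc', div_le_div_iff₀ (by positivity) (by positivity)]
    have : (0:ℝ) ≤ 2 ^ n * 2 ^ (a + b) := by positivity
    nlinarith [mul_le_mul_of_nonneg_left h this]
  · have := mul_le_mul (jj_le_pow a u (x.1 - (ξ μ).1)) (jj_le_pow b v (x.2 - (ξ μ).2))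
      (jj_pos _ _).le (mul_pos (by positivity) (jj_pos _ _)).le
    rw [pow_add]; linarith

lemma rho_cmp {a b a' b' D : ℕ} (h : (a' - a) + (b' - b) ≤ D) (x : TT) :
    rho n ξ a b x ≤ 4 ^ D * rho n ξ a' b' x := by
  refine (rho_le_pow n ξ a b (a' - a) (b' - b) x).trans ?_
  exact mul_le_mul (pow_le_pow_right₀ (by norm_num) h) (rho_anti n ξ (by omega) (by omega) x)
    (rho_pos n ξ _ _ x).le (by positivity)

lemma rho_mod {a b a' b' : ℕ} (h1 : a ≤ a') (h2 : b ≤ b') (x y : TT) :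
    rho n ξ a b (x - y) ≤ YY a' b' y * rho n ξ a b x := by
  unfold rho
  rw [mul_add, Finset.mul_sum]
  refine add_le_add ?_ (Finset.sum_le_sum fun μ _ => ?_)
  · exact le_mul_of_one_le_left (by positivity) (one_le_YY _ _ _)
  · have e1 : (x - y).1 - (ξ μ).1 = (x.1 - (ξ μ).1) - y.1 := by simp only [Prod.fst_sub]; abel
    have e2 : (x - y).2 - (ξ μ).2 = (x.2 - (ξ μ).2) - y.2 := by simp only [Prod.snd_sub]; abel
    rw [e1, e2]
    have := mul_le_mul (jj_mod h1 (x.1 - (ξ μ).1) y.1) (jj_mod h2 (x.2 - (ξ μ).2) y.2)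
      (jj_pos _ _).le (mul_pos (mul_pos two_pos (br_pos _ _)) (jj_pos _ _)).le
    unfold YY; linarith

lemma rho_mod' {a b a' b' : ℕ} (h1 : a ≤ a') (h2 : b ≤ b') (x y : TT) :
    rho n ξ a b x ≤ YY a' b' y * rho n ξ a b (x - y) := by
  have := rho_mod n ξ h1 h2 (x - y) (-y)
  rwa [YY_neg, sub_neg_eq_add, sub_add_cancel] at this

lemma rho_avg (a b u v : ℕ) (x : TT) :
    ∫ y, 2 ^ a * 2 ^ b * (jj a y.1 * jj b y.2) * rho n ξ (a + u) (b + v) (x - y) ∂m2
      ≤ (16 * CJ) ^ 2 / 2 ^ (u + v) * rho n ξ a b x := by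
  unfold rho
  simp only [mul_add, Finset.mul_sum]
  rw [integral_add (cint (by fun_prop)) (cint (by fun_prop)),
    integral_finsetSum _ fun μ _ => cint (by fun_prop)]
  have hCJ := one_le_CJ
  refine add_le_add ?_ (Finset.sum_le_sum fun μ _ => ?_)
  · rw [integral_mul_const]
    have e : (2:ℝ) ^ (a + u + (b + v)) = 2 ^ (a + b) * 2 ^ (u + v) := by
      rw [← pow_add]; congr 1; ring
    refine (mul_le_mul_of_nonneg_right (int_jj2 a b) (by positivity)).trans ?_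
    rw [e]
    have : CJ ^ 2 ≤ (16 * CJ) ^ 2 := by nlinarith
    calc CJ ^ 2 * (2 ^ n / (2 ^ (a + b) * 2 ^ (u + v)))
        ≤ (16 * CJ) ^ 2 * (2 ^ n / (2 ^ (a + b) * 2 ^ (u + v))) :=
          mul_le_mul_of_nonneg_right this (by positivity)
      _ = _ := by field_simp
  · have e : ∀ y : TT, 2 ^ a * 2 ^ b * (jj a y.1 * jj b y.2) *
        (jj (a + u) ((x - y).1 - (ξ μ).1) * jj (b + v) ((x - y).2 - (ξ μ).2))
        = (2 ^ a * jj a y.1 * jj (a + u) ((x.1 - (ξ μ).1) - y.1))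
          * (2 ^ b * jj b y.2 * jj (b + v) ((x.2 - (ξ μ).2) - y.2)) := by
      intro y
      have e1 : (x - y).1 - (ξ μ).1 = (x.1 - (ξ μ).1) - y.1 := by simp only [Prod.fst_sub]; abel
      have e2 : (x - y).2 - (ξ μ).2 = (x.2 - (ξ μ).2) - y.2 := by simp only [Prod.snd_sub]; abel
      rw [e1, e2]; ring
    simp only [e]
    rw [integral_prod_mul (μ := m1) (ν := m1)
      (fun y => 2 ^ a * jj a y * jj (a + u) ((x.1 - (ξ μ).1) - y))
      (fun y => 2 ^ b * jj b y * jj (b + v) ((x.2 - (ξ μ).2) - y))]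
    have p2 : 0 ≤ ∫ y, 2 ^ b * jj b y * jj (b + v) ((x.2 - (ξ μ).2) - y) ∂m1 :=
      integral_nonneg fun y => (mul_pos (mul_pos (by positivity) (jj_pos _ _)) (jj_pos _ _)).le
    have := mul_le_mul (jj_conv a u (x.1 - (ξ μ).1)) (jj_conv b v (x.2 - (ξ μ).2)) p2
      (mul_pos (by positivity) (jj_pos _ _)).le
    refine this.trans (le_of_eq ?_)
    rw [pow_add]; field_simp

lemma rho_int (hm : m ≤ 2 ^ n) (a b : ℕ) :
    ∫ x, rho n ξ a b x ∂m2 ≤ (1 + CJ ^ 2) * (2 ^ n / 2 ^ (a + b)) := by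
  unfold rho
  rw [integral_add (cint (by fun_prop)) (cint (by fun_prop)),
    integral_finsetSum _ fun μ _ => cint (by fun_prop)]
  have h1 : ∀ μ, ∫ x, jj a (x.1 - (ξ μ).1) * jj b (x.2 - (ξ μ).2) ∂m2 ≤ CJ ^ 2 / 2 ^ (a + b) := by
    intro μ
    rw [integral_prod_mul (μ := m1) (ν := m1) (fun y => jj a (y - (ξ μ).1))
      (fun y => jj b (y - (ξ μ).2)), integral_sub_right_eq_self (jj a),
      integral_sub_right_eq_self (jj b)]
    have p2 : 0 ≤ ∫ y, jj b y ∂m1 := integral_nonneg fun y => (jj_pos _ _).le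
    have := mul_le_mul (int_jj a) (int_jj b) p2 (div_nonneg CJ_pos.le (by positivity))
    refine this.trans (le_of_eq ?_)
    rw [pow_add]; field_simp
  have h2 := Finset.sum_le_card_nsmul Finset.univ _ _ fun μ _ => h1 μ
  rw [Finset.card_univ, Fintype.card_fin, nsmul_eq_mul] at h2
  have h3 : (m:ℝ) ≤ 2 ^ n := by exact_mod_cast hm
  have h4 : (m:ℝ) * (CJ ^ 2 / 2 ^ (a + b)) ≤ 2 ^ n * (CJ ^ 2 / 2 ^ (a + b)) :=
    mul_le_mul_of_nonneg_right h3 (by positivity)
  simp only [integral_const, probReal_univ, smul_eq_mul, one_mul]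
  have e : (1 + CJ ^ 2) * (2 ^ n / 2 ^ (a + b)) = 2 ^ n / 2 ^ (a + b) + 2 ^ n * (CJ ^ 2 / 2 ^ (a + b)) := by
    ring
  linarith

lemma rho_node {a b : ℕ} (μ : Fin m) {y : TT} (h1 : 2 ^ a * dd y.1 ≤ 1) (h2 : 2 ^ b * dd y.2 ≤ 1) :
    1 / 4 ≤ rho n ξ a b (ξ μ - y) := by
  unfold rho
  have h3 : jj a ((ξ μ - y).1 - (ξ μ).1) * jj b ((ξ μ - y).2 - (ξ μ).2)
      ≤ ∑ ν, jj a ((ξ μ - y).1 - (ξ ν).1) * jj b ((ξ μ - y).2 - (ξ ν).2) :=
    Finset.single_le_sum (f := fun ν => jj a ((ξ μ - y).1 - (ξ ν).1) * jj b ((ξ μ - y).2 - (ξ ν).2))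
      (fun ν _ => (mul_pos (jj_pos _ _) (jj_pos _ _)).le) (Finset.mem_univ μ)
  have e1 : (ξ μ - y).1 - (ξ μ).1 = -y.1 := by simp only [Prod.fst_sub]; abel
  have e2 : (ξ μ - y).2 - (ξ μ).2 = -y.2 := by simp only [Prod.snd_sub]; abel
  rw [e1, e2, jj_neg, jj_neg] at h3
  have a1 := jj_ge h1
  have a2 := jj_ge h2
  have : (0:ℝ) ≤ 2 ^ n / 2 ^ (a + b) := by positivity
  nlinarith

/-- the growing weight -/
def wt (a b w : ℕ) (x : TT) : ℝ := 2 ^ w / (1 + rho n ξ (a - w) b x + rho n ξ a (b - w) x)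

/-- the weight localised at the nodes -/
def om (a b w : ℕ) (x : TT) : ℝ := wt n ξ a b w x * (rho n ξ a b x / (1 + rho n ξ a b x))

lemma den_pos (a b w : ℕ) (x : TT) : 0 < 1 + rho n ξ (a - w) b x + rho n ξ a (b - w) x := by
  have := rho_pos n ξ (a - w) b x; have := rho_pos n ξ a (b - w) x; linarith

lemma wt_pos (a b w : ℕ) (x : TT) : 0 < wt n ξ a b w x :=
  div_pos (by positivity) (den_pos n ξ a b w x)

lemma om_pos (a b w : ℕ) (x : TT) : 0 < om n ξ a b w x := by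
  have := rho_pos n ξ a b x
  exact mul_pos (wt_pos n ξ a b w x) (by positivity)

lemma om_le_wt (a b w : ℕ) (x : TT) : om n ξ a b w x ≤ wt n ξ a b w x := by
  have := rho_pos n ξ a b x
  refine mul_le_of_le_one_right (wt_pos n ξ a b w x).le ?_
  rw [div_le_one (by linarith)]; linarith

@[fun_prop] lemma wt_cont (a b w : ℕ) : Continuous (wt n ξ a b w) :=
  Continuous.div (by fun_prop) (by fun_prop) fun x => (den_pos n ξ a b w x).ne'

@[fun_prop] lemma om_cont (a b w : ℕ) : Continuous (om n ξ a b w) := by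
  refine (wt_cont n ξ a b w).mul (Continuous.div (by fun_prop) (by fun_prop) fun x => ?_)
  have := rho_pos n ξ a b x
  exact ne_of_gt (by linarith)

lemma frac_le {p q c : ℝ} (hp : 0 < p) (hq : 0 < q) (hc : 1 ≤ c) (h : p ≤ c * q) :
    p / (1 + p) ≤ c * (q / (1 + q)) := by
  rw [mul_div_assoc', div_le_div_iff₀ (by linarith) (by linarith)]
  nlinarith [mul_pos hp hq]

lemma wt_mod1 (a b w : ℕ) (x y : TT) : wt n ξ a b w (x - y) ≤ YY a b y * wt n ξ a b w x := by
  unfold wt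
  have a1 := rho_mod' n ξ (Nat.sub_le a w) (le_refl b) x y
  have a2 := rho_mod' n ξ (le_refl a) (Nat.sub_le b w) x y
  have := one_le_YY a b y
  rw [mul_div_assoc', div_le_div_iff₀ (den_pos n ξ _ _ _ _) (den_pos n ξ _ _ _ _)]
  have h : 1 + rho n ξ (a - w) b x + rho n ξ a (b - w) x
      ≤ YY a b y * (1 + rho n ξ (a - w) b (x - y) + rho n ξ a (b - w) (x - y)) := by linarith
  have := mul_le_mul_of_nonneg_left h (show (0:ℝ) ≤ 2 ^ w by positivity)
  linarith

lemma wt_mod (a b w : ℕ) : Mod a b (wt n ξ a b w) := fun x y => by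
  refine (wt_mod1 n ξ a b w x y).trans (mul_le_mul_of_nonneg_right ?_ (wt_pos n ξ _ _ _ _).le)
  have := one_le_YY a b y; nlinarith

lemma om_mod (a b w : ℕ) : Mod a b (om n ξ a b w) := fun x y => by
  unfold om
  have a1 := wt_mod1 n ξ a b w x y
  have a2 := frac_le (rho_pos n ξ a b (x - y)) (rho_pos n ξ a b x) (one_le_YY a b y)
    (rho_mod n ξ le_rfl le_rfl x y)
  have p := rho_pos n ξ a b (x - y)
  have := mul_le_mul a1 a2 (by positivity) (mul_pos (YY_pos _ _ _) (wt_pos n ξ _ _ _ _)).le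
  linarith

lemma wt_le_pow (a b w : ℕ) (x : TT) : wt n ξ a b w x ≤ 2 ^ w := by
  have := rho_pos n ξ (a - w) b x; have := rho_pos n ξ a (b - w) x
  exact div_le_self (by positivity) (by linarith)

lemma wt_le_lev {a b w : ℕ} (h : w ≤ a) (x : TT) : wt n ξ a b w x ≤ 2 ^ (a + b) / 2 ^ n := by
  have a1 := rho_ge n ξ (a - w) b x; have := rho_pos n ξ a (b - w) x
  unfold wt
  have e : (2:ℝ) ^ (a + b) = 2 ^ w * 2 ^ (a - w + b) := by rw [← pow_add]; congr 1; omega
  rw [div_le_iff₀ (by positivity)] at a1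
  rw [div_le_div_iff₀ (den_pos n ξ _ _ _ _) (by positivity), e, mul_assoc]
  refine mul_le_mul_of_nonneg_left ?_ (by positivity)
  have : (0:ℝ) < 2 ^ (a - w + b) := by positivity
  nlinarith

lemma om_cmp {a b a' b' w D : ℕ} (h : (a - a') + (a' - a) + (b - b') + (b' - b) ≤ D) (x : TT) :
    om n ξ a b w x ≤ 32 ^ D * om n ξ a' b' (w - D) x := by
  have a1 := rho_cmp n ξ (a := a' - (w - D)) (b := b') (a' := a - w) (b' := b) (D := D)
    (by omega) x
  have a2 := rho_cmp n ξ (a := a') (b := b' - (w - D)) (a' := a) (b' := b - w) (D := D)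
    (by omega) x
  have a3 := rho_cmp n ξ (a := a) (b := b) (a' := a') (b' := b') (D := D) (by omega) x
  have h4 : (1:ℝ) ≤ 4 ^ D := one_le_pow₀ (by norm_num)
  have a4 := frac_le (rho_pos n ξ a b x) (rho_pos n ξ a' b' x) h4 a3
  have a5 : wt n ξ a b w x ≤ 8 ^ D * wt n ξ a' b' (w - D) x := by
    unfold wt
    rw [mul_div_assoc', div_le_div_iff₀ (den_pos n ξ _ _ _ _) (den_pos n ξ _ _ _ _)]
    have b1 : (2:ℝ) ^ w ≤ 2 ^ D * 2 ^ (w - D) := by
      rw [← pow_add]; exact pow_le_pow_right₀ (by norm_num) (by omega)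
    have b2 : 1 + rho n ξ (a' - (w - D)) b' x + rho n ξ a' (b' - (w - D)) x
        ≤ 4 ^ D * (1 + rho n ξ (a - w) b x + rho n ξ a (b - w) x) := by linarith
    have := mul_le_mul b1 b2 (den_pos n ξ _ _ _ _).le (by positivity)
    have e : (8:ℝ) ^ D = 2 ^ D * 4 ^ D := by rw [← mul_pow]; norm_num
    rw [e]; linarith
  unfold om
  have p := rho_pos n ξ a b x
  have := mul_le_mul a5 a4 (by positivity) (mul_pos (by positivity) (wt_pos n ξ _ _ _ _)).le
  have e : (32:ℝ) ^ D = 8 ^ D * 4 ^ D := by rw [← mul_pow]; norm_num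
  rw [e]; linarith

lemma wt_le_om {a b : ℕ} (h : a + b ≤ n) (w : ℕ) (x : TT) :
    wt n ξ a b w x ≤ 2 * om n ξ a b w x := by
  have a1 := rho_ge n ξ a b x
  have a2 : (1:ℝ) ≤ 2 ^ n / 2 ^ (a + b) := by
    rw [le_div_iff₀ (by positivity), one_mul]; exact pow_le_pow_right₀ (by norm_num) h
  have a3 : 1 / 2 ≤ rho n ξ a b x / (1 + rho n ξ a b x) := by
    rw [le_div_iff₀ (by linarith)]; linarith
  unfold om
  nlinarith [wt_pos n ξ a b w x]

lemma om_le_row (a b w : ℕ) (x : TT) :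
    om n ξ a b w x ≤ 2 ^ w * rho n ξ a b x / (1 + rho n ξ (a - w) b x) := by
  have p1 := rho_pos n ξ (a - w) b x; have p2 := rho_pos n ξ a (b - w) x
  have p3 := rho_pos n ξ a b x
  have a1 : wt n ξ a b w x ≤ 2 ^ w / (1 + rho n ξ (a - w) b x) :=
    div_le_div_of_nonneg_left (by positivity) (by linarith) (by linarith)
  have a2 : rho n ξ a b x / (1 + rho n ξ a b x) ≤ rho n ξ a b x := div_le_self p3.le (by linarith)
  have := mul_le_mul a1 a2 (by positivity) (by positivity)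
  unfold om
  rw [mul_div_right_comm]; exact this

lemma om_le_col (a b w : ℕ) (x : TT) :
    om n ξ a b w x ≤ 2 ^ w * rho n ξ a b x / (1 + rho n ξ a (b - w) x) := by
  have p1 := rho_pos n ξ (a - w) b x; have p2 := rho_pos n ξ a (b - w) x
  have p3 := rho_pos n ξ a b x
  have a1 : wt n ξ a b w x ≤ 2 ^ w / (1 + rho n ξ a (b - w) x) :=
    div_le_div_of_nonneg_left (by positivity) (by linarith) (by linarith)
  have a2 : rho n ξ a b x / (1 + rho n ξ a b x) ≤ rho n ξ a b x := div_le_self p3.le (by linarith)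
  have := mul_le_mul a1 a2 (by positivity) (by positivity)
  unfold om
  rw [mul_div_right_comm]; exact this

/-- the coarse majorant -/
def pp (a b w : ℕ) (x : TT) : ℝ := 8 ^ w / (1 + rho n ξ a b x)

lemma pp_pos (a b w : ℕ) (x : TT) : 0 < pp n ξ a b w x := by
  have := rho_pos n ξ a b x; unfold pp; positivity

lemma pp_le (a b w : ℕ) (x : TT) : pp n ξ a b w x ≤ 8 ^ w := by
  have := rho_pos n ξ a b x
  exact div_le_self (by positivity) (by linarith)

lemma pp_mod (a b w : ℕ) : Mod a b (pp n ξ a b w) := fun x y => by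
  have a1 := rho_mod' n ξ (le_refl a) (le_refl b) x y
  have := one_le_YY a b y
  have p1 := rho_pos n ξ a b x
  have p2 := rho_pos n ξ a b (x - y)
  have : pp n ξ a b w (x - y) ≤ YY a b y * pp n ξ a b w x := by
    unfold pp
    rw [mul_div_assoc', div_le_div_iff₀ (by linarith) (by linarith)]
    have h : 1 + rho n ξ a b x ≤ YY a b y * (1 + rho n ξ a b (x - y)) := by linarith
    have := mul_le_mul_of_nonneg_left h (show (0:ℝ) ≤ 8 ^ w by positivity)
    linarith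
  refine this.trans (mul_le_mul_of_nonneg_right ?_ (pp_pos n ξ _ _ _ _).le)
  nlinarith

lemma om_le_pp (a b w : ℕ) (x : TT) : om n ξ (a + w) (b + w) w x ≤ pp n ξ a b w x := by
  refine (om_le_wt n ξ _ _ _ _).trans ?_
  unfold wt pp
  simp only [Nat.add_sub_cancel]
  have a1 := rho_cmp n ξ (a := a) (b := b) (a' := a) (b' := b + w) (D := w) (by omega) x
  have p1 := rho_pos n ξ a b x
  have p2 := rho_pos n ξ a (b + w) x
  have p3 := rho_pos n ξ (a + w) b x
  have h4 : (1:ℝ) ≤ 4 ^ w := one_le_pow₀ (by norm_num)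
  rw [div_le_div_iff₀ (by linarith) (by linarith)]
  have e : (8:ℝ) ^ w = 2 ^ w * 4 ^ w := by rw [← mul_pow]; norm_num
  rw [e, mul_assoc]
  refine mul_le_mul_of_nonneg_left ?_ (by positivity)
  nlinarith

end

end Pool.Agent.Lib.MP_21a4ea_an
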