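import Pool.Agent.Lib.MP_21a4ea_an.Good

namespace Pool.Agent.Lib.MP_21a4ea_an

open MeasureTheory Real Finset
open scoped ComplexConjugate

noncomputable section

variable {m : ℕ} (n : ℕ) (ξ : Fin m → TT)

structure Fac (t w : ℕ) (C : ℝ) (I : Finset ℕ) (G : ℕ → CT) : Prop where
  int : ∀ j ∈ I, w + 1 ≤ j ∧ j + w + 1 ≤ t
  zero : ∀ j, j ∉ I → G j = 0
  spec : ∀ j ∈ I, G j ∈ Spec (Ann (2 ^ (j - w) / 2) (2 * 2 ^ j))
    (Ann (2 ^ (t - j - w) / 2) (2 * 2 ^ (t - j)))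
  real : ∀ j x, ∃ r : ℝ, 0 ≤ r ∧ 1 + G j x = r
  bd : ∀ j ∈ I, ∀ x, ‖G j x‖ ≤ C * rt (pp n ξ (j - w) (t - j - w) w x)

def Xt (G : ℕ → CT) (S j i : ℕ) : CT :=
  G j * (∏ i' ∈ range i, (1 + G (j + (i' + 1) * S))) * G (j + (i + 1) * S)

variable {n ξ} {t w : ℕ} {C : ℝ} {I : Finset ℕ} {G : ℕ → CT}

lemma one_mem_box {x y : ℝ} (hx : 0 ≤ x) (hy : 0 ≤ y) :
    (1 : CT) ∈ Spec (fun k => |(k:ℝ)| ≤ x) (fun k => |(k:ℝ)| ≤ y) := by
  rw [← ch_zero]; exact ch_mem (by simpa using hx) (by simpa using hy)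

lemma Fac.one_add (h : Fac n ξ t w C I G) (j : ℕ) :
    1 + G j ∈ Spec (fun k => |(k:ℝ)| ≤ 2 * 2 ^ j) (fun k => |(k:ℝ)| ≤ 2 * 2 ^ t / 2 ^ j) := by
  refine add_mem (one_mem_box (by positivity) (by positivity)) ?_
  by_cases hj : j ∈ I
  · refine Spec_mono (fun k hk => hk.2.le) (fun k hk => ?_) (h.spec j hj)
    have := h.int j hj
    have e : (2:ℝ) ^ t = 2 ^ (t - j) * 2 ^ j := by rw [← pow_add]; congr 1; omega
    rw [e, ← mul_assoc, mul_div_assoc, div_self (by positivity), mul_one]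
    exact hk.2.le
  · rw [h.zero j hj]; exact zero_mem _

lemma Fac.mid (h : Fac n ξ t w C I G) {S : ℕ} (hS : 1 ≤ S) (j i : ℕ) :
    ∏ i' ∈ range i, (1 + G (j + (i' + 1) * S)) ∈
      Spec (fun k => |(k:ℝ)| ≤ 4 * 2 ^ (j + i * S) - 2 * 2 ^ j)
        (fun k => |(k:ℝ)| ≤ 4 * 2 ^ t / 2 ^ (j + S) - 4 * 2 ^ t / 2 ^ (j + (i + 1) * S)) := by
  induction i with
  | zero =>
    rw [Finset.prod_range_zero]
    refine one_mem_box ?_ (by simp)
    have : (0:ℝ) < 2 ^ j := by positivity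
    simp only [zero_mul, add_zero]; linarith
  | succ i ih =>
    rw [Finset.prod_range_succ]
    have h2 : (2:ℝ) ^ 1 ≤ 2 ^ S := pow_le_pow_right₀ (by norm_num) hS
    refine Spec_mul ih (h.one_add _) (fun k l hk hl => ?_) (fun k l hk hl => ?_)
    · push_cast
      refine (abs_add_le _ _).trans ?_
      have e : (2:ℝ) ^ (j + (i + 1) * S) = 2 ^ (j + i * S) * 2 ^ S := by
        rw [← pow_add]; congr 1; ring
      have : (0:ℝ) < 2 ^ (j + i * S) := by positivity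
      rw [e] at hl ⊢
      nlinarith
    · push_cast
      refine (abs_add_le _ _).trans ?_
      have e : (2:ℝ) ^ (j + (i + 1 + 1) * S) = 2 ^ (j + (i + 1) * S) * 2 ^ S := by
        rw [← pow_add]; congr 1; ring
      have p : (0:ℝ) < 2 ^ (j + (i + 1) * S) := by positivity
      have : 4 * (2:ℝ) ^ t / 2 ^ (j + (i + 1 + 1) * S) ≤ 2 * 2 ^ t / 2 ^ (j + (i + 1) * S) := by
        rw [e, div_le_div_iff₀ (by positivity) p]
        have : (0:ℝ) < 2 ^ t * 2 ^ (j + (i + 1) * S) := by positivity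
        nlinarith
      have e2 : 4 * (2:ℝ) ^ t / 2 ^ (j + (i + 1) * S) = 2 * (2 * 2 ^ t / 2 ^ (j + (i + 1) * S)) := by
        ring
      linarith

lemma ann_add {x y z k l : ℝ} (hk : |k| ≤ z) (h1 : x < |l|) (h2 : |l| < y) :
    x - z < |k + l| ∧ |k + l| ≤ y + z := by
  have a1 := abs_add_le k l
  have a2 := abs_add_le (k + l) (-k)
  rw [abs_neg, show k + l + -k = l by ring] at a2
  constructor <;> linarith

lemma Fac.Xspec (h : Fac n ξ t w C I G) {S : ℕ} (hS : w + 4 ≤ S) {j i a b d : ℕ} (hj : j ∈ I)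
    (hl : j + (i + 1) * S ∈ I) (ha : j = a + w) (hd : (i + 1) * S = d + 2)
    (hb : t = a + b + 2 * w + d + 2) :
    Xt G S j i ∈ Spec (fun k => 2 ^ (a + d) < |(k:ℝ)| ∧ |(k:ℝ)| ≤ 2 ^ (a + d + (w + 5)) / 2)
      (fun k => 2 ^ (b + d) < |(k:ℝ)| ∧ |(k:ℝ)| ≤ 2 ^ (b + d + (w + 5)) / 2) := by
  have s1 := h.spec j hj
  have s2 := h.mid (S := S) (by omega) j i
  have s3 := h.spec _ hl
  have e1 : j - w = a := by omega
  have e2 : t - j - w = b + d + 2 := by omega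
  have e3 : t - j = b + d + 2 + w := by omega
  have e4 : j + (i + 1) * S - w = a + d + 2 := by omega
  have e5 : t - (j + (i + 1) * S) - w = b := by omega
  have e6 : t - (j + (i + 1) * S) = b + w := by omega
  rw [e1, e2, e3] at s1
  rw [e4, e5, e6] at s3
  have hw : (1:ℝ) ≤ 2 ^ w := one_le_pow₀ (by norm_num)
  have hSw : (2:ℝ) ^ (w + 4) ≤ 2 ^ S := pow_le_pow_right₀ (by norm_num) hS
  rw [pow_add] at hSw
  have pS : (0:ℝ) < 2 ^ S := by positivity
  have f1 : 4 * (2:ℝ) ^ (j + i * S) ≤ 2 ^ (a + d) := by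
    have e : (2:ℝ) ^ (j + i * S) * 2 ^ S = 2 ^ (a + d) * (4 * 2 ^ w) := by
      rw [← pow_add, show (4:ℝ) = 2 ^ 2 by norm_num, ← pow_add, ← pow_add]; congr 1
      have : j + i * S + S = j + (i + 1) * S := by ring
      omega
    have p : (0:ℝ) < 2 ^ (a + d) := by positivity
    refine le_of_mul_le_mul_right ?_ pS
    nlinarith
  have f2 : 4 * (2:ℝ) ^ t / 2 ^ (j + S) ≤ 2 ^ (b + d) := by
    have e : (2:ℝ) ^ t = 2 ^ (b + d) * (4 * 2 ^ w) * 2 ^ j := by
      rw [show (4:ℝ) = 2 ^ 2 by norm_num, ← pow_add, ← pow_add, ← pow_add]; congr 1; omega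
    rw [div_le_iff₀ (by positivity), e, pow_add 2 j S]
    have p : (0:ℝ) < 2 ^ (b + d) * 2 ^ j := by positivity
    nlinarith
  have f3 : (2:ℝ) * 2 ^ (b + w) = 2 * 2 ^ t / 2 ^ (j + (i + 1) * S) := by
    rw [eq_div_iff (by positivity), mul_assoc, ← pow_add]; congr 2; omega
  have s12 := Spec_mul (P'' := fun k => |(k:ℝ)| ≤ 2 ^ (a + d))
    (Q'' := fun k => 2 ^ (b + d + 2) / 2 - (2 ^ (b + d) - 2 * 2 ^ (b + w)) < |(k:ℝ)| ∧
      |(k:ℝ)| ≤ 2 * 2 ^ (b + d + 2 + w) + (2 ^ (b + d) - 2 * 2 ^ (b + w))) s1 s2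
    (fun k l hk hl => by
      push_cast
      have := abs_add_le (k:ℝ) l
      have := hk.2
      linarith)
    (fun k l hk hl => by
      push_cast
      rw [add_comm (k:ℝ)]
      refine ann_add (hl.trans ?_) hk.1 hk.2
      have : (0:ℝ) < 2 ^ t / 2 ^ (j + (i + 1) * S) := by positivity
      have e : 4 * (2:ℝ) ^ t / 2 ^ (j + (i + 1) * S) = 4 * (2 ^ t / 2 ^ (j + (i + 1) * S)) := by ring
      have e' : 2 * (2:ℝ) ^ t / 2 ^ (j + (i + 1) * S) = 2 * (2 ^ t / 2 ^ (j + (i + 1) * S)) := by ring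
      linarith)
  refine Spec_mul s12 s3 (fun k l hk hl => ?_) (fun k l hk hl => ?_)
  · push_cast
    have := ann_add hk hl.1 hl.2
    have g1 : (2:ℝ) ^ (a + d + 2) = 4 * 2 ^ (a + d) := by rw [pow_add]; ring
    have g2 : (2:ℝ) ^ (j + (i + 1) * S) = 4 * (2 ^ (a + d) * 2 ^ w) := by
      rw [show (4:ℝ) = 2 ^ 2 by norm_num, ← pow_add, ← pow_add]; congr 1; omega
    have g3 : (2:ℝ) ^ (a + d + (w + 5)) = 32 * (2 ^ (a + d) * 2 ^ w) := by
      rw [pow_add, pow_add 2 w]; ring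
    have p : (0:ℝ) < 2 ^ (a + d) := by positivity
    rw [g1, g2] at this
    rw [g3]
    constructor <;> nlinarith [this.1, this.2]
  · push_cast
    have a1 := abs_add_le (k:ℝ) l
    have a2 := abs_add_le ((k:ℝ) + l) (-l)
    rw [abs_neg, show (k:ℝ) + l + -l = k by ring] at a2
    have g1 : (2:ℝ) ^ (b + d + 2) = 4 * 2 ^ (b + d) := by rw [pow_add]; ring
    have g2 : (2:ℝ) ^ (b + d + 2 + w) = 4 * (2 ^ (b + d) * 2 ^ w) := by
      rw [pow_add, g1]; ring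
    have g3 : (2:ℝ) ^ (b + d + (w + 5)) = 32 * (2 ^ (b + d) * 2 ^ w) := by
      rw [pow_add, pow_add 2 w]; ring
    have p : (0:ℝ) < 2 ^ (b + d) := by positivity
    rw [g1, g2] at hk
    rw [g3]
    constructor <;> nlinarith [hk.1, hk.2, hl.1, hl.2]

lemma Fac.G_le (h : Fac n ξ t w C I G) (hC : 0 ≤ C) (j : ℕ) (x : TT) :
    ‖1 + G j x‖ ≤ (C + 1) * 2 ^ w := by
  have hw : (1:ℝ) ≤ 2 ^ w := one_le_pow₀ (by norm_num)
  by_cases hj : j ∈ I
  · refine (norm_add_le _ _).trans ?_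
    have a1 := h.bd j hj x
    have a2 : rt (pp n ξ (j - w) (t - j - w) w x) ≤ 2 ^ w := by
      refine rt_le_of_le_pow (pp_pos n ξ _ _ _ _).le (by positivity) ((pp_le n ξ _ _ _ _).trans ?_)
      rw [← pow_mul, mul_comm w, pow_mul]
      exact pow_le_pow_left₀ (by norm_num) (by norm_num) _
    have := mul_le_mul_of_nonneg_left a2 hC
    rw [norm_one]; linarith
  · rw [h.zero j hj]; simp; nlinarith

lemma Fac.Xbd (h : Fac n ξ t w C I G) (hC : 0 ≤ C) {S G0 : ℕ} (hS : S = 70 * w + G0)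
    (hG : (C + 1) ^ 2 * (49 / 50) ^ G0 ≤ 1) {j i a b d : ℕ} (hj : j ∈ I)
    (hl : j + (i + 1) * S ∈ I) (ha : j = a + w) (hd : (i + 1) * S = d + 2)
    (hb : t = a + b + 2 * w + d + 2) (u v : ℕ) (x : TT) :
    ‖Xt G S j i x‖ ≤ 2 * (49 / 50) ^ (d + 2) * rt (wt n ξ (a + d + u) (b + d + v) d x) := by
  have b1 := h.bd j hj x
  have b3 := h.bd _ hl x
  have e1 : j - w = a := by omega
  have e2 : t - j - w = b + d + 2 := by omega
  have e4 : j + (i + 1) * S - w = a + d + 2 := by omega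
  have e5 : t - (j + (i + 1) * S) - w = b := by omega
  rw [e1, e2] at b1
  rw [e4, e5] at b3
  set Z : ℝ := (C + 1) * 2 ^ w with hZ
  have hw : (1:ℝ) ≤ 2 ^ w := one_le_pow₀ (by norm_num)
  have hZ1 : 1 ≤ Z := by rw [hZ]; nlinarith
  have b2 : ‖(∏ i' ∈ range i, (1 + G (j + (i' + 1) * S))) x‖ ≤ Z ^ i := by
    rw [ContinuousMap.prod_apply, norm_prod]
    refine (Finset.prod_le_prod (fun _ _ => norm_nonneg _) fun i' _ => h.G_le hC _ x).trans ?_
    rw [Finset.prod_const, Finset.card_range]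
  have p1 := pp_pos n ξ a (b + d + 2) w x
  have p3 := pp_pos n ξ (a + d + 2) b w x
  have q1 := rho_pos n ξ a (b + d + 2) x
  have q3 := rho_pos n ξ (a + d + 2) b x
  have wp := wt_pos n ξ (a + d + u) (b + d + v) d x
  have key : pp n ξ a (b + d + 2) w x * pp n ξ (a + d + 2) b w x
      ≤ (2 * (24 / 25) ^ (d + 2) * (2 ^ w) ^ 2) ^ 16 * wt n ξ (a + d + u) (b + d + v) d x := by
    have r1 := rho_cmp n ξ (a := a + d + u - d) (b := b + d + v) (a' := a) (b' := b + d + 2)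
      (D := 2) (by omega) x
    have r2 := rho_cmp n ξ (a := a + d + u) (b := b + d + v - d) (a' := a + d + 2) (b' := b)
      (D := 2) (by omega) x
    have k1 : pp n ξ a (b + d + 2) w x * pp n ξ (a + d + 2) b w x
        ≤ (64 ^ w * 64 / 2 ^ (d + 2)) * wt n ξ (a + d + u) (b + d + v) d x := by
      unfold pp wt
      rw [div_mul_div_comm, div_mul_div_comm, div_le_div_iff₀ (by positivity)
        (mul_pos (by positivity) (den_pos n ξ _ _ _ _))]
      have e : (8:ℝ) ^ w * 8 ^ w = 64 ^ w := by rw [← mul_pow]; norm_num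
      have k2 : 1 + rho n ξ (a + d + u - d) (b + d + v) x + rho n ξ (a + d + u) (b + d + v - d) x
          ≤ 16 * ((1 + rho n ξ a (b + d + 2) x) * (1 + rho n ξ (a + d + 2) b x)) := by
        nlinarith [mul_pos q1 q3]
      rw [e, pow_add 2 d 2]
      have := mul_le_mul_of_nonneg_left k2 (show (0:ℝ) ≤ 64 ^ w * (2 ^ d * 4) by positivity)
      nlinarith
    refine k1.trans (mul_le_mul_of_nonneg_right ?_ wp.le)
    rw [mul_pow, mul_pow, ← pow_mul, ← pow_mul, ← pow_mul, mul_comm (d + 2) 16, pow_mul,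
      mul_comm w, pow_mul]
    have c1 : (64:ℝ) ^ w ≤ (2 ^ (2 * 16)) ^ w := pow_le_pow_left₀ (by norm_num) (by norm_num) _
    have c2 : ((1:ℝ) / 2) ^ (d + 2) ≤ ((24 / 25) ^ 16) ^ (d + 2) :=
      pow_le_pow_left₀ (by norm_num) (by norm_num) _
    have c3 : (64:ℝ) ^ w * 64 / 2 ^ (d + 2) = 64 * (1 / 2) ^ (d + 2) * 64 ^ w := by
      rw [one_div, inv_pow]; ring
    rw [c3]
    gcongr
    norm_num
  have k3 := rt_le_mul (mul_pos p1 p3).le wp.le (by positivity) key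
  rw [rt_mul p1.le p3.le] at k3
  have r1 := rt_nonneg p1.le
  have r3 := rt_nonneg p3.le
  have rw := rt_nonneg wp.le
  have k4 : ‖Xt G S j i x‖ ≤ C * rt (pp n ξ a (b + d + 2) w x) * Z ^ i
      * (C * rt (pp n ξ (a + d + 2) b w x)) := by
    unfold Xt
    rw [ContinuousMap.mul_apply, ContinuousMap.mul_apply, norm_mul, norm_mul]
    gcongr
  have k5 : C ^ 2 * (2 ^ w) ^ 2 * Z ^ i * (24 / 25) ^ (d + 2) ≤ (49 / 50) ^ (d + 2) := by
    have c1 : C ^ 2 * (2 ^ w) ^ 2 ≤ Z ^ 2 := by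
      rw [← mul_pow]; exact pow_le_pow_left₀ (by positivity) (by rw [hZ]; nlinarith) 2
    have c2 : Z ^ i ≤ (Z ^ 2) ^ i := pow_le_pow_left₀ (by linarith) (by nlinarith) i
    have c3 : ((24:ℝ) / 25) ^ (d + 2) ≤ (49 / 50) ^ (d + 2) * (49 / 50) ^ (d + 2) := by
      rw [← mul_pow]; exact pow_le_pow_left₀ (by norm_num) (by norm_num) _
    have c4 : Z ^ 2 * (49 / 50) ^ S ≤ 1 := by
      have : ((2:ℝ) ^ w) ^ 2 * (49 / 50) ^ (70 * w) ≤ 1 := by
        rw [← pow_mul, mul_comm w, pow_mul, pow_mul, ← mul_pow]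
        exact pow_le_one₀ (by positivity) (by norm_num)
      rw [hS, pow_add, hZ]
      calc ((C + 1) * 2 ^ w) ^ 2 * ((49 / 50) ^ (70 * w) * (49 / 50) ^ G0)
          = ((C + 1) ^ 2 * (49 / 50) ^ G0) * ((2 ^ w) ^ 2 * (49 / 50) ^ (70 * w)) := by ring
        _ ≤ 1 * 1 := mul_le_mul hG this (by positivity) zero_le_one
        _ = 1 := one_mul 1
    have c5 : (Z ^ 2) ^ (i + 1) * (49 / 50) ^ (d + 2) ≤ 1 := by
      rw [← hd, mul_comm (i + 1) S, pow_mul (49 / 50 : ℝ), ← mul_pow]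
      exact pow_le_one₀ (by positivity) c4
    calc _ ≤ Z ^ 2 * (Z ^ 2) ^ i * ((49 / 50) ^ (d + 2) * (49 / 50) ^ (d + 2)) := by gcongr
      _ = ((Z ^ 2) ^ (i + 1) * (49 / 50) ^ (d + 2)) * (49 / 50) ^ (d + 2) := by ring
      _ ≤ 1 * (49 / 50) ^ (d + 2) := mul_le_mul_of_nonneg_right c5 (by positivity)
      _ = _ := one_mul _
  calc _ ≤ _ := k4
    _ = C ^ 2 * Z ^ i * (rt (pp n ξ a (b + d + 2) w x) * rt (pp n ξ (a + d + 2) b w x)) := by ring
    _ ≤ C ^ 2 * Z ^ i * (2 * (24 / 25) ^ (d + 2) * (2 ^ w) ^ 2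
          * rt (wt n ξ (a + d + u) (b + d + v) d x)) :=
        mul_le_mul_of_nonneg_left k3 (by positivity)
    _ = 2 * (C ^ 2 * (2 ^ w) ^ 2 * Z ^ i * (24 / 25) ^ (d + 2))
          * rt (wt n ξ (a + d + u) (b + d + v) d x) := by ring
    _ ≤ _ := by gcongr

variable {L : CT →ₗ[ℂ] ℂ}

lemma Fac.cross (h : Fac n ξ t w C I G) (hC : 0 ≤ C) {S G0 : ℕ} (hS : S = 70 * w + G0)
    (hG0 : 5 ≤ G0) (hG : (C + 1) ^ 2 * (49 / 50) ^ G0 ≤ 1) {A : ℝ} (hA : Good L (wt n ξ) A)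
    (J : Finset ℕ) (i : ℕ) :
    ∑ j ∈ J, ‖L (Xt G S j i)‖
      ≤ 18 * C0 * ((((i + 1) * S : ℕ) : ℝ) ^ 3 * (49 / 50) ^ ((i + 1) * S)) * A := by
  classical
  obtain ⟨d, hd⟩ : ∃ d, (i + 1) * S = d + 2 := ⟨(i + 1) * S - 2, by
    have : S ≤ (i + 1) * S := Nat.le_mul_of_pos_left _ (by omega)
    omega⟩
  have hSd : S ≤ d + 2 := by rw [← hd]; exact Nat.le_mul_of_pos_left _ (by omega)
  set J' := J.filter fun j => j ∈ I ∧ j + (i + 1) * S ∈ I with hJ'
  have e0 : ∑ j ∈ J, ‖L (Xt G S j i)‖ = ∑ j ∈ J', ‖L (Xt G S j i)‖ := by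
    refine (Finset.sum_subset (Finset.filter_subset _ _) fun j hj hj' => ?_).symm
    rw [Finset.mem_filter, not_and, not_and_or] at hj'
    rcases hj' hj with h1 | h1 <;> simp [Xt, h.zero _ h1]
  have hmem : ∀ j ∈ J', j ∈ I ∧ j + (i + 1) * S ∈ I := fun j hj => (Finset.mem_filter.mp hj).2
  have hgeo : ∀ j ∈ J', j = (j - w) + w ∧ 1 ≤ j - w ∧ 1 ≤ t - j - w - (d + 2) ∧
      t = (j - w) + (t - j - w - (d + 2)) + 2 * w + d + 2 := fun j hj => by
    have a1 := h.int _ (hmem j hj).1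
    have a2 := h.int _ (hmem j hj).2
    omega
  set g : ℕ → ℕ → ℕ → CT := fun u v j =>
    op (j - w + d + u) (t - j - w - (d + 2) + d + v) (Del (j - w + d + u))
      (Del (t - j - w - (d + 2) + d + v)) (Xt G S j i) with hg
  have e1 : ∀ j ∈ J', ‖L (Xt G S j i)‖
      ≤ ∑ u ∈ range (w + 5), ∑ v ∈ range (w + 5), ‖L (g u v j)‖ := fun j hj => by
    obtain ⟨g1, g2, g3, g4⟩ := hgeo j hj
    have sp := h.Xspec (by omega) (hmem j hj).1 (hmem j hj).2 g1 hd g4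
    have aux : ∀ (p : ℕ) (k : ℤ), 2 ^ p < |(k:ℝ)| ∧ |(k:ℝ)| ≤ 2 ^ (p + (w + 5)) / 2 →
        2 ^ p ≤ ww k ∧ ww k ≤ 2 ^ (p + (w + 5)) / 2 := fun p k hk => by
      have : (1:ℝ) ≤ 2 ^ p := one_le_pow₀ (by norm_num)
      exact ⟨hk.1.le.trans (abs_le_ww k), ww_le_of_abs_le hk.2 (by linarith [hk.1, hk.2])⟩
    rw [decomp sp (aux _) (aux _), map_sum]
    refine (norm_sum_le _ _).trans (Finset.sum_le_sum fun u _ => ?_)
    rw [map_sum]
    exact norm_sum_le _ _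
  have hC0 := C0_pos
  have e2 : ∀ u v, ∑ j ∈ J', ‖L (g u v j)‖
      ≤ C0 * 3 * 3 * (2 * (49 / 50) ^ (d + 2)) * ((d + 1) * A) := fun u v => by
    refine hA.scaled (t - 2 * w - 2 + d + u + v) d J' (fun j => j - w + d + u)
      (fun j => t - j - w - (d + 2) + d + v) (g u v) (by positivity) ?_ fun j hj => ?_
    · intro j hj j' hj' e
      have := hgeo j hj
      have := hgeo j' hj'
      simp only at e
      omega
    · obtain ⟨g1, g2, g3, g4⟩ := hgeo j hj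
      refine ⟨by omega, Or.inr (by omega), op_mem _ (fun k => Del_blk) (fun k => Del_blk),
        fun x => ?_⟩
      exact master_mod (Mult_Del _) (Mult_Del _) (fun x => (wt_pos n ξ _ _ _ x).le)
        (wt_mod n ξ _ _ _) (by positivity)
        (h.Xbd hC hS hG (hmem j hj).1 (hmem j hj).2 g1 hd g4 u v) x
  rw [e0]
  refine (Finset.sum_le_sum e1).trans ?_
  rw [Finset.sum_comm]
  have e3 : ∀ u ∈ range (w + 5), ∑ j ∈ J', ∑ v ∈ range (w + 5), ‖L (g u v j)‖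
      ≤ (w + 5 : ℕ) * (C0 * 3 * 3 * (2 * (49 / 50) ^ (d + 2)) * ((d + 1) * A)) := fun u _ => by
    rw [Finset.sum_comm]
    have := Finset.sum_le_card_nsmul (range (w + 5)) _ _ fun v _ => e2 u v
    rwa [Finset.card_range, nsmul_eq_mul] at this
  have e4 := Finset.sum_le_card_nsmul (range (w + 5)) _ _ e3
  rw [Finset.card_range, nsmul_eq_mul] at e4
  refine e4.trans ?_
  rw [hd]
  have hA0 := hA.nonneg
  have c1 : ((w + 5 : ℕ) : ℝ) ≤ ((d + 2 : ℕ) : ℝ) := by exact_mod_cast (by omega)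
  have c2 : (d + 1 : ℝ) ≤ ((d + 2 : ℕ) : ℝ) := by push_cast; linarith
  calc _ ≤ ((d + 2 : ℕ) : ℝ) * (((d + 2 : ℕ) : ℝ) *
        (C0 * 3 * 3 * (2 * (49 / 50) ^ (d + 2)) * (((d + 2 : ℕ) : ℝ) * A))) := by gcongr
    _ = _ := by ring

lemma Fac.mean_G (h : Fac n ξ t w C I G) (j : ℕ) : mean (G j) = 0 := by
  by_cases hj : j ∈ I
  · rw [← co_zero]
    refine co_eq_zero (h.spec j hj) fun hk => ?_
    have := hk.1.1
    simp only [Prod.fst_zero, Int.cast_zero, abs_zero] at this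
    have : (0:ℝ) < 2 ^ (j - w) / 2 := by positivity
    linarith
  · rw [h.zero j hj, map_zero]

lemma Fac.mean_X (h : Fac n ξ t w C I G) {S : ℕ} (hS : w + 4 ≤ S) (j i : ℕ) :
    mean (Xt G S j i) = 0 := by
  by_cases h1 : j ∈ I
  · by_cases h2 : j + (i + 1) * S ∈ I
    · have a1 := h.int _ h1
      have a2 := h.int _ h2
      have a3 : S ≤ (i + 1) * S := Nat.le_mul_of_pos_left _ (by omega)
      have sp := h.Xspec hS h1 h2 (a := j - w) (d := (i + 1) * S - 2)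
        (b := t - j - w - (i + 1) * S) (by omega) (by omega) (by omega)
      rw [← co_zero]
      refine co_eq_zero sp fun hk => ?_
      have := hk.1.1
      simp only [Prod.fst_zero, Int.cast_zero, abs_zero] at this
      exact absurd this (not_lt.mpr (by positivity))
    · simp [Xt, h.zero _ h2]
  · simp [Xt, h.zero _ h1]

lemma riesz_expand (G : ℕ → CT) (S o K : ℕ) :
    ∏ k ∈ range K, (1 + G (o + k * S)) = 1 + ∑ l ∈ range K, G (o + l * S)
      + ∑ l ∈ range K, ∑ k ∈ range l, Xt G S (o + k * S) (l - (k + 1)) := by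
  rw [prod_expand2 (fun k => G (o + k * S))]
  congr 1
  refine Finset.sum_congr rfl fun l _ => Finset.sum_congr rfl fun k hk => ?_
  have hk' := Finset.mem_range.mp hk
  unfold Xt
  have e : o + k * S + (l - (k + 1) + 1) * S = o + l * S := by
    obtain ⟨e, rfl⟩ : ∃ e, l = k + 1 + e := ⟨l - (k + 1), by omega⟩
    rw [Nat.add_sub_cancel_left]; ring
  rw [e]
  congr 2
  exact Finset.prod_congr rfl fun i _ => by congr 2; ring

lemma Fac.riesz (h : Fac n ξ t w C I G) (hC : 0 ≤ C) {S G0 : ℕ} (hS : S = 70 * w + G0)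
    (hG0 : 5 ≤ G0) (hG : (C + 1) ^ 2 * (49 / 50) ^ G0 ≤ 1) {A : ℝ} (hA : Good L (wt n ξ) A)
    {M η : ℝ} (hM : ∀ g : CT, (∀ x, (g x).im = 0) → ‖L g‖ ≤ M * ∫ x, ‖g x‖ ∂m2)
    (hη : ∀ δ : ℕ, G0 ≤ δ → (δ:ℝ) ^ 3 * (99 / 100) ^ δ ≤ η) :
    ‖S * L 1 + ∑ j ∈ I, L (G j)‖ ≤ S * M + 1800 * C0 * η * A := by
  set K := t + 1 with hK
  have hΦ : ∀ o, ‖L (∏ k ∈ range K, (1 + G (o + k * S)))‖ ≤ M := fun o => by
    set Φ := ∏ k ∈ range K, (1 + G (o + k * S)) with hΦ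
    have pos : ∀ x, ∃ r : ℝ, 0 ≤ r ∧ Φ x = r := fun x => by
      rw [hΦ, ContinuousMap.prod_apply]
      refine Finset.prod_induction _ (fun z : ℂ => ∃ r : ℝ, 0 ≤ r ∧ z = r) ?_ ⟨1, zero_le_one, by simp⟩
        fun k _ => h.real _ x
      rintro _ _ ⟨r, hr, rfl⟩ ⟨s, hs, rfl⟩
      exact ⟨r * s, mul_nonneg hr hs, by simp⟩
    have mn : mean Φ = 1 := by
      rw [hΦ, riesz_expand]
      simp only [map_add, map_sum, h.mean_G, h.mean_X (show w + 4 ≤ S by omega),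
        Finset.sum_const_zero, add_zero]
      rw [← ch_zero, mean_ch, if_pos rfl]
    have := hM Φ fun x => by obtain ⟨r, _, hr⟩ := pos x; rw [hr]; simp
    have e : ∫ x, ‖Φ x‖ ∂m2 = 1 := by
      apply Complex.ofReal_injective
      rw [← integral_complex_ofReal, Complex.ofReal_one, ← mn, mean_apply]
      congr 1; ext x
      obtain ⟨r, hr0, hr⟩ := pos x
      rw [hr, Complex.norm_real, Real.norm_eq_abs, abs_of_nonneg hr0]
    rwa [e, mul_one] at this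
  have s1 : ∑ o ∈ range S, L (∏ k ∈ range K, (1 + G (o + k * S)))
      = (S * L 1 + ∑ j ∈ I, L (G j))
        + ∑ o ∈ range S, ∑ l ∈ range K, ∑ k ∈ range l, L (Xt G S (o + k * S) (l - (k + 1))) := by
    simp only [riesz_expand, map_add, map_sum, Finset.sum_add_distrib]
    congr 2
    · simp
    · rw [sum_offsets (fun j => L (G j))]
      refine (Finset.sum_subset (fun j hj => ?_) fun j _ hj => by rw [h.zero j hj, map_zero]).symm
      have := h.int j hj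
      have : K ≤ K * S := Nat.le_mul_of_pos_right _ (by omega)
      rw [Finset.mem_range]; omega
  have s2 : ‖∑ o ∈ range S, L (∏ k ∈ range K, (1 + G (o + k * S)))‖ ≤ S * M := by
    refine (norm_sum_le _ _).trans ?_
    have := Finset.sum_le_card_nsmul (range S) _ _ fun o _ => hΦ o
    rwa [Finset.card_range, nsmul_eq_mul] at this
  have hA0 := hA.nonneg
  have hC0 := C0_pos
  have hη0 : 0 ≤ η := le_trans (by positivity) (hη G0 le_rfl)
  have s3 : ‖∑ o ∈ range S, ∑ l ∈ range K, ∑ k ∈ range l, L (Xt G S (o + k * S) (l - (k + 1)))‖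
      ≤ 1800 * C0 * η * A := by
    calc _ ≤ ∑ o ∈ range S, ∑ l ∈ range K, ∑ k ∈ range l, ‖L (Xt G S (o + k * S) (l - (k + 1)))‖ :=
          (norm_sum_le _ _).trans (Finset.sum_le_sum fun o _ =>
            (norm_sum_le _ _).trans (Finset.sum_le_sum fun l _ => norm_sum_le _ _))
      _ ≤ ∑ o ∈ range S, ∑ k ∈ range K, ∑ i ∈ range K, ‖L (Xt G S (o + k * S) i)‖ :=
          Finset.sum_le_sum fun o _ =>
            sum_tri_le (fun k i => ‖L (Xt G S (o + k * S) i)‖) (fun _ _ => norm_nonneg _) K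
      _ = ∑ i ∈ range K, ∑ j ∈ range (K * S), ‖L (Xt G S j i)‖ := by
          rw [sum_offsets (fun j => ∑ i ∈ range K, ‖L (Xt G S j i)‖), Finset.sum_comm]
      _ ≤ ∑ i ∈ range K, 18 * C0 * η * A * (99 / 100) ^ i := by
          refine Finset.sum_le_sum fun i _ => (h.cross hC hS hG0 hG hA _ i).trans ?_
          have a3 : S ≤ (i + 1) * S := Nat.le_mul_of_pos_left _ (by omega)
          have a4 : i + 1 ≤ (i + 1) * S := Nat.le_mul_of_pos_right _ (by omega)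
          have c1 := hη ((i + 1) * S) (by omega)
          have c2 : ((49:ℝ) / 50) ^ ((i + 1) * S)
              ≤ (99 / 100) ^ ((i + 1) * S) * (99 / 100) ^ ((i + 1) * S) := by
            rw [← mul_pow]; exact pow_le_pow_left₀ (by norm_num) (by norm_num) _
          have c3 : ((99:ℝ) / 100) ^ ((i + 1) * S) ≤ (99 / 100) ^ i :=
            pow_le_pow_of_le_one (by norm_num) (by norm_num) (by omega)
          have c4 : ((((i + 1) * S : ℕ) : ℝ) ^ 3 * (49 / 50) ^ ((i + 1) * S)) ≤ η * (99 / 100) ^ i := by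
            calc _ ≤ (((i + 1) * S : ℕ) : ℝ) ^ 3
                  * ((99 / 100) ^ ((i + 1) * S) * (99 / 100) ^ ((i + 1) * S)) := by gcongr
              _ = ((((i + 1) * S : ℕ) : ℝ) ^ 3 * (99 / 100) ^ ((i + 1) * S))
                  * (99 / 100) ^ ((i + 1) * S) := by ring
              _ ≤ _ := by gcongr
          calc _ ≤ 18 * C0 * (η * (99 / 100) ^ i) * A := by gcongr
            _ = _ := by ring
      _ ≤ _ := by
          rw [← Finset.mul_sum]
          have := geo_le (r := 99 / 100) (by norm_num) (by norm_num) K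
          calc _ ≤ 18 * C0 * η * A * (1 - 99 / 100)⁻¹ := by gcongr
            _ = _ := by norm_num; ring
  have := norm_sub_le (∑ o ∈ range S, L (∏ k ∈ range K, (1 + G (o + k * S))))
    (∑ o ∈ range S, ∑ l ∈ range K, ∑ k ∈ range l, L (Xt G S (o + k * S) (l - (k + 1))))
  rw [s1, add_sub_cancel_right, ← s1] at this
  linarith

end

end Pool.Agent.Lib.MP_21a4ea_an
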