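import Pool.Agent.Lib.MP_21a4ea_an.StepOne

namespace Pool.Agent.Lib.MP_21a4ea_an

open MeasureTheory Real Finset Filter
open scoped ComplexConjugate Topology ENNReal

noncomputable section

def un : Measure ℝ := (2:ℝ≥0∞)⁻¹ • volume.restrict (Set.Ioc (-1) 1)

instance : IsProbabilityMeasure un := ⟨by
  unfold un
  simp only [Measure.smul_apply, MeasurableSet.univ, Measure.restrict_apply, Set.univ_inter,
    Real.volume_Ioc, smul_eq_mul]
  rw [show (1:ℝ) - -1 = 2 by norm_num, ENNReal.ofReal_ofNat]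
  exact ENNReal.inv_mul_cancel (by norm_num) (by norm_num)⟩

lemma un_ae : ∀ᵐ u ∂un, |u| ≤ 1 := by
  unfold un
  refine Measure.ae_smul_measure ?_ _
  filter_upwards [ae_restrict_mem measurableSet_Ioc] with u hu
  exact abs_le.mpr ⟨hu.1.le, hu.2⟩

lemma un_exp (t : ℝ) : ∫ u, Complex.exp (Complex.I * ((t * u : ℝ) : ℂ)) ∂un = (Real.sinc t : ℂ) := by
  unfold un
  rw [integral_smul_measure, ← intervalIntegral.integral_of_le (by norm_num), int_exp]
  simp

lemma exists_smooth (N s : ℕ) : ∃ μ : Measure T, IsProbabilityMeasure μ ∧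
    (∀ᵐ y ∂μ, 2 ^ s * dd y ≤ 1) ∧ ∀ k : ℤ, ∫ y, fourier (-k) y ∂μ = es N s k := by
  set f : (Fin (N + 2) → ℝ) → T := fun u => ((hh N s * ∑ i, u i : ℝ) : T) with hf
  have fc : Continuous f := (AddCircle.continuous_mk' _).comp (by fun_prop)
  refine ⟨(Measure.pi fun _ => un).map f, Measure.isProbabilityMeasure_map fc.aemeasurable, ?_,
    fun k => ?_⟩
  · rw [ae_map_iff fc.aemeasurable (isClosed_le (by fun_prop) continuous_const).measurableSet]
    have : ∀ᵐ u ∂(Measure.pi fun _ : Fin (N + 2) => un), ∀ i, |u i| ≤ 1 :=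
      eventually_all.2 fun i => (Measure.tendsto_eval_ae_ae (μ := fun _ : Fin (N + 2) => un) (i := i)).eventually un_ae
    filter_upwards [this] with u hu
    have a1 := dd_coe_le (hh N s * ∑ i, u i)
    have a2 : |∑ i, u i| ≤ N + 2 := by
      refine (Finset.abs_sum_le_sum_abs _ _).trans ?_
      have := Finset.sum_le_card_nsmul Finset.univ _ _ fun i _ => hu i
      simpa using this
    rw [abs_mul, abs_of_pos (hh_pos N s)] at a1
    have a3 := mul_le_mul_of_nonneg_left a2 (hh_pos N s).le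
    have e : 2 ^ s * (hh N s * (N + 2)) = 1 / 32 := by unfold hh; field_simp
    have a4 := mul_le_mul_of_nonneg_left (a1.trans a3) (show (0:ℝ) ≤ 2 ^ s by positivity)
    change 2 ^ s * dd ((hh N s * ∑ i, u i : ℝ) : T) ≤ 1
    linarith
  · rw [integral_map fc.aemeasurable (fourier (-k)).continuous.aestronglyMeasurable]
    have e : ∀ u : Fin (N + 2) → ℝ, fourier (-k) (f u)
        = ∏ i, Complex.exp (Complex.I * (((-(k * hh N s)) * u i : ℝ) : ℂ)) := by
      intro u
      rw [hf]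
      simp only
      rw [four_coe, ← Complex.exp_sum]
      congr 1
      push_cast
      rw [Finset.mul_sum, Finset.mul_sum, Finset.mul_sum]
      exact Finset.sum_congr rfl fun i _ => by ring
    simp only [e]
    rw [integral_fintype_prod_eq_pow
      (fun u : ℝ => Complex.exp (Complex.I * (((-(k * hh N s)) * u : ℝ) : ℂ))), un_exp,
      Real.sinc_neg, Fintype.card_fin]
    unfold es; push_cast; rfl

/-- the smoothing measure -/
def sm (N s : ℕ) : Measure T := (exists_smooth N s).choose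

instance (N s : ℕ) : IsProbabilityMeasure (sm N s) := (exists_smooth N s).choose_spec.1

lemma sm_ae (N s : ℕ) : ∀ᵐ y ∂(sm N s), 2 ^ s * dd y ≤ 1 := (exists_smooth N s).choose_spec.2.1

lemma sm_four (N s : ℕ) (k : ℤ) : ∫ y, fourier (-k) y ∂(sm N s) = es N s k :=
  (exists_smooth N s).choose_spec.2.2 k

lemma cint' {E : Type*} [NormedAddCommGroup E] {f : TT → E} (hf : Continuous f) (μ : Measure TT)
    [IsFiniteMeasure μ] : Integrable f μ :=
  hf.integrable_of_hasCompactSupport (HasCompactSupport.of_compactSpace _)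

variable {m : ℕ} (ξ : Fin m → TT) (lam : Fin m → ℂ)

/-- the smoothed error functional -/
def Ls (N a b : ℕ) : CT →ₗ[ℂ] ℂ where
  toFun φ := ∑ μ, lam μ * ∫ y, φ (ξ μ - y) ∂((sm N a).prod (sm N b)) - mean φ
  map_add' f g := by
    simp only [ContinuousMap.add_apply, map_add]
    have : ∀ μ, ∫ y, (f (ξ μ - y) + g (ξ μ - y)) ∂((sm N a).prod (sm N b))
        = ∫ y, f (ξ μ - y) ∂((sm N a).prod (sm N b)) + ∫ y, g (ξ μ - y) ∂((sm N a).prod (sm N b)) :=
      fun μ => integral_add (cint' (by fun_prop) _) (cint' (by fun_prop) _)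
    simp only [this, mul_add, Finset.sum_add_distrib]; ring
  map_smul' c g := by
    simp only [ContinuousMap.smul_apply, map_smul, smul_eq_mul, RingHom.id_apply,
      integral_const_mul, mul_sub, Finset.mul_sum]
    congr 1
    exact Finset.sum_congr rfl fun μ _ => by ring

lemma Ls_apply (N a b : ℕ) (φ : CT) : Ls ξ lam N a b φ
    = ∑ μ, lam μ * ∫ y, φ (ξ μ - y) ∂((sm N a).prod (sm N b)) - mean φ := rfl

lemma Ls_ch (N a b : ℕ) (k : ℤ × ℤ) : Ls ξ lam N a b (ch k)
    = es N a k.1 * es N b k.2 * ∑ μ, lam μ * ch k (ξ μ) - if k = 0 then 1 else 0 := by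
  rw [Ls_apply, mean_ch, Finset.mul_sum]
  congr 1
  refine Finset.sum_congr rfl fun μ _ => ?_
  simp only [ch_sub_pt, integral_const_mul]
  simp only [ch_apply (-k), Prod.fst_neg, Prod.snd_neg]
  rw [integral_prod_mul (fun y => fourier (-k.1) y) (fun y => fourier (-k.2) y), sm_four, sm_four]
  ring

lemma norm_mean_le {φ : CT} {c : ℝ} (h : ∀ x, ‖φ x‖ ≤ c) : ‖mean φ‖ ≤ c := by
  have := norm_integral_le_of_norm_le_const (μ := m2) (Eventually.of_forall h)
  simpa [mean_apply] using this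

lemma Ls_le (N a b : ℕ) {φ : CT} {c : ℝ} (h : ∀ x, ‖φ x‖ ≤ c) :
    ‖Ls ξ lam N a b φ‖ ≤ (∑ μ, ‖lam μ‖ + 1) * c := by
  rw [Ls_apply, add_mul, one_mul, Finset.sum_mul]
  refine (norm_sub_le _ _).trans (add_le_add ?_ (norm_mean_le h))
  refine (norm_sum_le _ _).trans (Finset.sum_le_sum fun μ _ => ?_)
  rw [norm_mul]
  refine mul_le_mul_of_nonneg_left ?_ (norm_nonneg _)
  have := norm_integral_le_of_norm_le_const (μ := (sm N a).prod (sm N b))
    (f := fun y => φ (ξ μ - y)) (Eventually.of_forall fun y => h _)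
  simpa using this

lemma Ls_local (n N a b : ℕ) {φ : CT} (h : ∀ x, 1 / 4 ≤ rho n ξ a b x → φ x = 0) :
    Ls ξ lam N a b φ = - mean φ := by
  rw [Ls_apply, Finset.sum_eq_zero, zero_sub]
  intro μ _
  rw [integral_eq_zero_of_ae, mul_zero]
  filter_upwards [Measure.quasiMeasurePreserving_fst.ae (sm_ae N a),
    Measure.quasiMeasurePreserving_snd.ae (sm_ae N b)] with y h1 h2
  exact h _ (rho_node n ξ μ h1 h2)

def polyAlg : StarSubalgebra ℂ CT where
  carrier := Spec (fun _ => True) (fun _ => True)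
  mul_mem' ha hb := Spec_mul ha hb (fun _ _ _ _ => trivial) (fun _ _ _ _ => trivial)
  add_mem' ha hb := add_mem ha hb
  algebraMap_mem' c := by
    rw [Algebra.algebraMap_eq_smul_one, ← ch_zero]
    exact Submodule.smul_mem _ _ (ch_mem trivial trivial)
  star_mem' ha := Spec_star ha (fun _ _ => trivial) (fun _ _ => trivial)

lemma four_one_inj {x y : T} (h : fourier 1 x = fourier 1 y) : x = y := by
  rw [fourier_one, fourier_one, Subtype.coe_inj] at h
  exact AddCircle.injective_toCircle Real.two_pi_pos.ne' h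

lemma poly_dense (φ : CT) {ε : ℝ} (hε : 0 < ε) :
    ∃ p ∈ Spec (fun _ => True) (fun _ => True), ∀ x, ‖p x - φ x‖ ≤ ε := by
  have h : polyAlg.topologicalClosure = ⊤ := by
    refine ContinuousMap.starSubalgebra_topologicalClosure_eq_top_of_separatesPoints _ ?_
    intro x y hxy
    by_cases h1 : x.1 = y.1
    · refine ⟨_, ⟨ch (0, 1), ch_mem (P := fun _ => True) (Q := fun _ => True) trivial trivial, rfl⟩, ?_⟩
      intro h
      simp only [ch_apply, fourier_zero, one_mul] at h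
      exact hxy (Prod.ext h1 (four_one_inj h))
    · refine ⟨_, ⟨ch (1, 0), ch_mem (P := fun _ => True) (Q := fun _ => True) trivial trivial, rfl⟩, ?_⟩
      intro h
      simp only [ch_apply, fourier_zero, mul_one] at h
      exact h1 (four_one_inj h)
  have h2 : φ ∈ closure (polyAlg : Set CT) := by
    have : φ ∈ polyAlg.topologicalClosure := by rw [h]; trivial
    exact this
  obtain ⟨p, hp, hd⟩ := Metric.mem_closure_iff.mp h2 ε hε
  refine ⟨p, hp, fun x => ?_⟩
  rw [dist_comm, dist_eq_norm] at hd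
  exact ((p - φ).norm_coe_le_norm x).trans hd.le

lemma poly_bdd {p : CT} (hp : p ∈ Spec (fun _ => True) (fun _ => True)) :
    ∀ᶠ R : ℕ in atTop, p ∈ Spec (fun k => ww k ≤ 2 ^ R / 2) (fun k => ww k ≤ 2 ^ R / 2) := by
  refine Spec_ind (p := fun p => ∀ᶠ R : ℕ in atTop,
    p ∈ Spec (fun k => ww k ≤ 2 ^ R / 2) (fun k => ww k ≤ 2 ^ R / 2)) hp ?_ ?_ ?_ ?_
  · intro k _ _
    have h : Tendsto (fun R : ℕ => (2:ℝ) ^ R / 2) atTop atTop :=
      (tendsto_pow_atTop_atTop_of_one_lt one_lt_two).atTop_div_const two_pos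
    filter_upwards [h.eventually_ge_atTop (ww k.1), h.eventually_ge_atTop (ww k.2)] with R h1 h2
    exact ch_mem h1 h2
  · exact Eventually.of_forall fun _ => zero_mem _
  · intro f g hf hg
    filter_upwards [hf, hg] with R h1 h2 using add_mem h1 h2
  · intro c f hf
    filter_upwards [hf] with R h1 using Submodule.smul_mem _ _ h1

/-- multiplier undoing the kernel and the smoothing -/
def muA (r θ : ℝ) (N s : ℕ) (k : ℤ) : ℂ := (sym (-r) (-θ) k * (es N s k)⁻¹) * Wid s k

/-- multiplier of the pieces of a smoothed function -/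
def muB (r θ : ℝ) (N s σ : ℕ) (k : ℤ) : ℂ := (sym r θ k * es N s k) * Del σ k

def CA (r : ℝ) : ℝ := 90 * Cs (-r)

lemma CA_pos (r : ℝ) : 0 < CA r := by unfold CA; have := Cs_pos (-r); positivity

lemma Mult_muA (r θ : ℝ) (N s : ℕ) : Mult s (muA r θ N s) (CA r * ((2:ℝ) ^ s) ^ (-r)) := by
  have := ((Reg_sym (-r) (-θ) s).mul (Reg_es_inv N s)).mult
    (by have := Cs_pos (-r); positivity) (Mult_Wid s) fun k => Wid_lo
  refine this.mono (le_of_eq ?_)
  unfold CA; ring

def CB (r : ℝ) (N : ℕ) : ℝ := 27 * Cs r * (16 * (N + 2) * (512 * (N + 2)) ^ N)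

lemma CB_pos (r : ℝ) (N : ℕ) : 0 < CB r N := by unfold CB; have := Cs_pos r; positivity

lemma Mult_muB {r : ℝ} (hr : 1 ≤ r) (θ : ℝ) {N : ℕ} (hN : r + 1 ≤ N) (s σ : ℕ) :
    Mult σ (muB r θ N s σ) (CB r N * ((2:ℝ) ^ s) ^ r * (1 / 2) ^ ((σ - s) + (s - σ))) := by
  have hC := Cs_pos r
  have lo : ∀ k, Del σ k ≠ 0 → 2 ^ σ / 4 < ww k := fun k hk => by
    have := (Del_blk hk).1
    have : (0:ℝ) < 2 ^ σ := by positivity
    linarith
  have big : (1:ℝ) ≤ 16 * (N + 2) * (512 * (N + 2)) ^ N := by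
    have : (0:ℝ) ≤ N := Nat.cast_nonneg N
    have : (1:ℝ) ≤ (512 * (N + 2)) ^ N := one_le_pow₀ (by linarith)
    nlinarith
  rcases le_total σ s with h | h
  · obtain ⟨e, rfl⟩ := Nat.exists_eq_add_of_le h
    have := ((Reg_sym r θ σ).mul (Reg_es_le N h)).mult (by positivity) (Mult_Del σ) lo
    refine this.mono ?_
    rw [show σ - (σ + e) + (σ + e - σ) = e by omega, pow_add,
      Real.mul_rpow (by positivity) (by positivity)]
    have a1 : (1:ℝ) ≤ ((2:ℝ) ^ e) ^ r * (1 / 2) ^ e := by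
      have : (2:ℝ) ^ e ≤ ((2:ℝ) ^ e) ^ r := by
        calc (2:ℝ) ^ e = ((2:ℝ) ^ e) ^ (1:ℝ) := (Real.rpow_one _).symm
          _ ≤ _ := Real.rpow_le_rpow_of_exponent_le (one_le_pow₀ (by norm_num)) hr
      rw [one_div, inv_pow, ← div_eq_mul_inv, le_div_iff₀ (by positivity)]; linarith
    unfold CB
    have p : 0 < 27 * Cs r * ((2:ℝ) ^ σ) ^ r := by positivity
    calc _ = 27 * Cs r * ((2:ℝ) ^ σ) ^ r * (1 * 1) := by ring
      _ ≤ 27 * Cs r * ((2:ℝ) ^ σ) ^ r * ((16 * (N + 2) * (512 * (N + 2)) ^ N)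
          * (((2:ℝ) ^ e) ^ r * (1 / 2) ^ e)) := by gcongr
      _ = _ := by ring
  · obtain ⟨e, rfl⟩ := Nat.exists_eq_add_of_le h
    have := ((Reg_sym r θ (s + e)).mul (Reg_es_gt N s e)).mult (by positivity) (Mult_Del _) lo
    refine this.mono ?_
    rw [show s + e - s + (s - (s + e)) = e by omega, pow_add,
      Real.mul_rpow (by positivity) (by positivity), div_pow]
    have a1 : ((2:ℝ) ^ e) ^ r / (2 ^ e) ^ N ≤ (1 / 2) ^ e := by
      have h1 : (1:ℝ) ≤ 2 ^ e := one_le_pow₀ (by norm_num)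
      have : ((2:ℝ) ^ e) ^ r * 2 ^ e ≤ (2 ^ e) ^ N := by
        rw [← Real.rpow_add_one (by positivity), ← Real.rpow_natCast ((2:ℝ) ^ e) N]
        exact Real.rpow_le_rpow_of_exponent_le h1 hN
      rw [one_div, inv_pow, div_le_iff₀ (by positivity), inv_mul_eq_div, le_div_iff₀ (by positivity)]
      exact this
    unfold CB
    calc _ = 27 * Cs r * (16 * (N + 2) * (512 * (N + 2)) ^ N) * ((2:ℝ) ^ s) ^ r
          * (((2:ℝ) ^ e) ^ r / (2 ^ e) ^ N) := by ring
      _ ≤ _ := by gcongr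

end

end Pool.Agent.Lib.MP_21a4ea_an
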