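import Pool.Agent.Lib.MP_21a4ea_an.Riesz

namespace Pool.Agent.Lib.MP_21a4ea_an

open MeasureTheory Real Finset Filter
open scoped ComplexConjugate Topology

noncomputable section

lemma Ann_neg {x y : ℝ} (k : ℤ) (h : Ann x y k) : Ann x y (-k) := by
  unfold Ann at *; simpa using h

lemma exists_gap (C : ℝ) {η : ℝ} (hη : 0 < η) : ∃ G0 : ℕ, 5 ≤ G0 ∧
    (C + 1) ^ 2 * (49 / 50) ^ G0 ≤ 1 ∧ ∀ δ : ℕ, G0 ≤ δ → (δ:ℝ) ^ 3 * (99 / 100) ^ δ ≤ η := by
  have h1 : Tendsto (fun k : ℕ => (C + 1) ^ 2 * (49 / 50 : ℝ) ^ k) atTop (𝓝 ((C + 1) ^ 2 * 0)) :=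
    (tendsto_pow_atTop_nhds_zero_of_lt_one (by norm_num) (by norm_num)).const_mul _
  rw [mul_zero] at h1
  have h2 := tendsto_pow_const_mul_const_pow_of_abs_lt_one 3 (r := 99 / 100)
    (by rw [abs_of_pos] <;> norm_num)
  obtain ⟨N1, hN1⟩ := eventually_atTop.mp (h1.eventually (ge_mem_nhds one_pos))
  obtain ⟨N2, hN2⟩ := eventually_atTop.mp (h2.eventually (ge_mem_nhds hη))
  exact ⟨max 5 (max N1 N2), le_max_left _ _, hN1 _ (by omega), fun δ hδ => hN2 _ (by omega)⟩

theorem stepOne {η : ℝ} (hη : 0 < η) : ∃ C : ℝ, 0 < C ∧ ∀ {m : ℕ} (n : ℕ) (ξ : Fin m → TT)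
    (L : CT →ₗ[ℂ] ℂ) (M A : ℝ), (∀ g, L (star g) = conj (L g)) → 0 ≤ M →
    (∀ g : CT, (∀ x, (g x).im = 0) → ‖L g‖ ≤ M * ∫ x, ‖g x‖ ∂m2) →
    Good L (wt n ξ) A → Good L (om n ξ) (C * M + η * A) := by
  classical
  have hC1 := one_le_C1
  have hC4 := one_le_C4
  have hC5 := one_le_C5
  have hC0 := C0_pos
  set ε : ℝ := 1 / C4 with hε
  set γ : ℝ := ε / C1 with hγ
  have ε0 : 0 < ε := by positivity
  have ε1 : ε ≤ 1 := by rw [hε, div_le_one (by linarith)]; exact hC4
  have γ0 : 0 < γ := by positivity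
  have γ1 : γ ≤ 1 := by rw [hγ, div_le_one (by linarith)]; linarith
  obtain ⟨G0, hG0, hG, hδ⟩ := exists_gap (C5 + 1) (η := η * γ / (1800 * C0)) (by positivity)
  refine ⟨(70 + G0) / γ + 2, by positivity, ?_⟩
  intro m n ξ L M A hL hM0 hM hA
  have hA0 := hA.nonneg
  refine good_of_canon fun t w I g hg => ?_
  choose g' g1 g2 g3 g4 using fun j => exists_rot hL (g j)
  set I' := I.filter fun j => w + 1 ≤ j ∧ j + w + 1 ≤ t with hI'
  have hU : ∀ j, ∃ U : CT, j ∈ I' →
      U ∈ Spec (Ann (2 ^ (j - w) / 2) (2 ^ j)) (Ann (2 ^ (t - j - w) / 2) (2 ^ (t - j))) ∧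
      ∀ x, rt (om n ξ j (t - j) w x) / C1 - C4 ≤ (U x).re ∧
        ‖U x‖ ≤ C5 * rt (pp n ξ (j - w) (t - j - w) w x) := fun j => by
    by_cases hj : j ∈ I'
    · have := (Finset.mem_filter.mp hj).2
      obtain ⟨U, h1, h2⟩ := tilt n ξ (a := j - w) (b := t - j - w) (by omega) (by omega) w
      rw [show j - w + w = j by omega, show t - j - w + w = t - j by omega] at h1 h2
      exact ⟨U, fun _ => ⟨h1, h2⟩⟩
    · exact ⟨0, fun h => absurd h hj⟩
  choose U hU using hU
  set G : ℝ → ℕ → CT := fun s j =>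
    if j ∈ I' then (ε : ℂ) • reP (U j) + ((s * γ : ℝ) : ℂ) • g' j else 0 with hGdef
  have hF : ∀ s : ℝ, |s| = 1 → Fac n ξ t w (C5 + 1) I' (G s) := fun s hs => by
    refine ⟨fun j hj => (Finset.mem_filter.mp hj).2, fun j hj => by simp [hGdef, hj],
      fun j hj => ?_, fun j x => ?_, fun j hj x => ?_⟩
    · have hjI := (Finset.mem_filter.mp hj).1
      have hj2 := (Finset.mem_filter.mp hj).2
      simp only [hGdef, if_pos hj]
      refine add_mem (Submodule.smul_mem _ _ (reP_mem Ann_neg Ann_neg ?_))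
        (Submodule.smul_mem _ _ ?_)
      · refine Spec_mono (fun k hk => ⟨hk.1, hk.2.trans ?_⟩) (fun k hk => ⟨hk.1, hk.2.trans ?_⟩)
          (hU j hj).1
        · have : (0:ℝ) < 2 ^ j := by positivity
          linarith
        · have : (0:ℝ) < 2 ^ (t - j) := by positivity
          linarith
      · have aux : ∀ (s : ℕ) (k : ℤ), w + 1 ≤ s → Blk s k → Ann (2 ^ (s - w) / 2) (2 * 2 ^ s) k := by
          intro s k hs hk
          have c1 : (2:ℝ) ^ 1 ≤ 2 ^ s := pow_le_pow_right₀ (by norm_num) (by omega)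
          have c2 : (2:ℝ) ^ (s - w) ≤ 2 ^ s := pow_le_pow_right₀ (by norm_num) (by omega)
          have c3 := lt_abs_of_lt_ww hk.1 (by linarith)
          exact ⟨by linarith, (abs_le_ww k).trans_lt hk.2⟩
        exact Spec_mono (fun k hk => aux j k hj2.1 hk) (fun k hk => aux (t - j) k (by omega) hk)
          (g4 j _ _ (fun _ => Blk_neg) (fun _ => Blk_neg) (hg j hjI).2.2.1)
    · by_cases hj : j ∈ I'
      · have hjI := (Finset.mem_filter.mp hj).1
        refine ⟨1 + ε * (U j x).re + s * γ * (g' j x).re, ?_, ?_⟩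
        · have a1 := ((hU j hj).2 x).1
          have a2 : |(g' j x).re| ≤ rt (om n ξ j (t - j) w x) :=
            (Complex.abs_re_le_norm _).trans ((g2 j x).trans ((hg j hjI).2.2.2 x))
          have a3 : |s * γ * (g' j x).re| ≤ γ * rt (om n ξ j (t - j) w x) := by
            rw [abs_mul, abs_mul, hs, one_mul, abs_of_pos γ0]
            exact mul_le_mul_of_nonneg_left a2 γ0.le
          have a4 := mul_le_mul_of_nonneg_left a1 ε0.le
          have e1 : ε * C4 = 1 := by rw [hε]; field_simp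
          have e2 : ε * (rt (om n ξ j (t - j) w x) / C1) = γ * rt (om n ξ j (t - j) w x) := by
            rw [hγ]; ring
          rw [mul_sub, e1, e2] at a4
          linarith [(abs_le.mp a3).1]
        · simp only [hGdef, if_pos hj, ContinuousMap.add_apply, ContinuousMap.smul_apply, reP_apply,
            smul_eq_mul]
          have : g' j x = ((g' j x).re : ℂ) := Complex.ext (by simp) (by simp [g1 j x])
          rw [this]; push_cast; simp only [Complex.ofReal_re]; ring
      · exact ⟨1, zero_le_one, by simp [hGdef, hj]⟩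
    · have hjI := (Finset.mem_filter.mp hj).1
      have hj2 := (Finset.mem_filter.mp hj).2
      simp only [hGdef, if_pos hj, ContinuousMap.add_apply, ContinuousMap.smul_apply, reP_apply,
        smul_eq_mul]
      refine (norm_add_le _ _).trans ?_
      rw [norm_mul, norm_mul, Complex.norm_real, Complex.norm_real, Complex.norm_real,
        Real.norm_eq_abs, Real.norm_eq_abs, Real.norm_eq_abs, abs_mul, hs, one_mul,
        abs_of_pos ε0, abs_of_pos γ0]
      have a1 := (Complex.abs_re_le_norm _).trans ((hU j hj).2 x).2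
      have a2 : ‖g' j x‖ ≤ rt (pp n ξ (j - w) (t - j - w) w x) := by
        refine (g2 j x).trans (((hg j hjI).2.2.2 x).trans (rt_mono (om_pos n ξ _ _ _ _).le ?_))
        have := om_le_pp n ξ (j - w) (t - j - w) w x
        rwa [show j - w + w = j by omega, show t - j - w + w = t - j by omega] at this
      have a3 := mul_le_of_le_one_left (abs_nonneg (U j x).re) ε1
      have a4 := mul_le_of_le_one_left (norm_nonneg (g' j x)) γ1
      linarith
  have r1 := (hF 1 abs_one).riesz (by linarith) rfl hG0 hG hA hM hδ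
  have r2 := (hF (-1) (by simp)).riesz (by linarith) rfl hG0 hG hA hM hδ
  have r3 := (norm_sub_le _ _).trans (add_le_add r1 r2)
  have e : ((70 * w + G0 : ℕ) * L 1 + ∑ j ∈ I', L (G 1 j))
      - ((70 * w + G0 : ℕ) * L 1 + ∑ j ∈ I', L (G (-1) j))
      = ((2 * γ * ∑ j ∈ I', ‖L (g j)‖ : ℝ) : ℂ) := by
    rw [add_sub_add_left_eq_sub, ← Finset.sum_sub_distrib]
    push_cast
    rw [Finset.mul_sum]
    refine Finset.sum_congr rfl fun j hj => ?_
    simp only [hGdef, if_pos hj, map_add, map_smul, g3 j, smul_eq_mul]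
    push_cast; ring
  have sn : 0 ≤ ∑ j ∈ I', ‖L (g j)‖ := Finset.sum_nonneg fun _ _ => norm_nonneg _
  rw [e, Complex.norm_real, Real.norm_eq_abs, abs_of_nonneg (by positivity)] at r3
  have e2 : 1800 * C0 * (η * γ / (1800 * C0)) * A = γ * (η * A) := by field_simp
  rw [e2] at r3
  have main : ∑ j ∈ I', ‖L (g j)‖ ≤ (w + 1) * ((70 + G0) / γ * M) + η * A := by
    have c1 : ((70 * w + G0 : ℕ) : ℝ) ≤ (w + 1) * (70 + G0) := by
      push_cast
      have : (0:ℝ) ≤ w * G0 := by positivity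
      linarith
    have c2 := mul_le_mul_of_nonneg_right c1 hM0
    refine le_of_mul_le_mul_left ?_ γ0
    have : γ * ((w + 1) * ((70 + G0) / γ * M) + η * A) = (w + 1) * (70 + G0) * M + γ * (η * A) := by
      field_simp
    linarith
  have rest : ∑ j ∈ I.filter fun j => ¬ (w + 1 ≤ j ∧ j + w + 1 ≤ t), ‖L (g j)‖ ≤ 2 * M := by
    have sub : (I.filter fun j => ¬ (w + 1 ≤ j ∧ j + w + 1 ≤ t)) ⊆ {0, t} := fun j hj => by
      obtain ⟨h1, h2⟩ := Finset.mem_filter.mp hj
      obtain ⟨h3, h4, -⟩ := hg j h1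
      rw [Finset.mem_insert, Finset.mem_singleton]
      unfold valid at h4; omega
    have each : ∀ j ∈ I.filter fun j => ¬ (w + 1 ≤ j ∧ j + w + 1 ≤ t), ‖L (g j)‖ ≤ M := fun j hj => by
      obtain ⟨h1, h2⟩ := Finset.mem_filter.mp hj
      obtain ⟨h3, h4, -, h5⟩ := hg j h1
      have hw : w = 0 := by unfold valid at h4; omega
      have := L_le hL hM0 hM (g j) (c := 1) fun x => (h5 x).trans
        (rt_le_of_le_pow (om_pos n ξ _ _ _ _).le zero_le_one (by
          refine (om_le_wt n ξ _ _ _ _).trans ((wt_le_pow n ξ _ _ _ _).trans ?_)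
          rw [hw]; norm_num))
      rwa [mul_one] at this
    have c1 := Finset.sum_le_card_nsmul _ _ _ each
    have c2 : ((I.filter fun j => ¬ (w + 1 ≤ j ∧ j + w + 1 ≤ t)).card : ℝ) ≤ 2 := by
      exact_mod_cast (Finset.card_le_card sub).trans Finset.card_le_two
    rw [nsmul_eq_mul] at c1
    exact c1.trans (mul_le_mul_of_nonneg_right c2 hM0)
  rw [← Finset.sum_filter_add_sum_filter_not I fun j => w + 1 ≤ j ∧ j + w + 1 ≤ t]
  have hw : (0:ℝ) ≤ w := Nat.cast_nonneg w
  have : 0 ≤ w * (2 * M + η * A) := by positivity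
  change ∑ j ∈ I', _ + _ ≤ _
  nlinarith

end

end Pool.Agent.Lib.MP_21a4ea_an
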