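import Pool.Agent.Lib.MP_21a4ea_an.Rho

namespace Pool.Agent.Lib.MP_21a4ea_an

open MeasureTheory Real Finset
open scoped ComplexConjugate

noncomputable section

def opL (a b : ℕ) (μ ν : ℤ → ℂ) : CT →ₗ[ℂ] CT where
  toFun := op a b μ ν
  map_add' f g := by
    unfold op
    simp only [map_add, mul_add, add_smul, Finset.sum_add_distrib]
  map_smul' c g := by
    unfold op
    simp only [map_smul, smul_eq_mul, RingHom.id_apply, Finset.smul_sum, smul_smul]
    refine Finset.sum_congr rfl fun k _ => ?_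
    congr 1; ring

lemma opL_apply (a b : ℕ) (μ ν : ℤ → ℂ) (g : CT) : opL a b μ ν g = op a b μ ν g := rfl

lemma op_ch {a b : ℕ} {μ ν : ℤ → ℂ} {A B : ℝ} (h1 : Mult a μ A) (h2 : Mult b ν B) (l : ℤ × ℤ) :
    op a b μ ν (ch l) = (μ l.1 * ν l.2) • ch l := by
  unfold op
  simp only [co_ch, mul_ite, mul_one, mul_zero, ite_smul, zero_smul]
  rw [Finset.sum_ite_eq']
  split_ifs with h
  · rfl
  · rw [Finset.mem_product, not_and_or] at h
    rcases h with h | h
    · rw [h1.supp _ (not_lt.mp (mt mem_box.mpr h))]; simp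
    · rw [h2.supp _ (not_lt.mp (mt mem_box.mpr h))]; simp

lemma Spec_ext {E : Type*} [AddCommGroup E] [Module ℂ E] {P Q : ℤ → Prop} (f g : CT →ₗ[ℂ] E)
    (h : ∀ k : ℤ × ℤ, P k.1 → Q k.2 → f (ch k) = g (ch k)) {x : CT} (hx : x ∈ Spec P Q) :
    f x = g x := by
  refine Spec_ind (p := fun x => f x = g x) hx h (by simp) ?_ ?_
  · intro a b ha hb; rw [map_add, map_add, ha, hb]
  · intro c a ha; rw [map_smul, map_smul, ha]

lemma Spec_map {E : Type*} [AddCommGroup E] [Module ℂ E] {P Q : ℤ → Prop} (f : CT →ₗ[ℂ] E)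
    (S : Submodule ℂ E) (h : ∀ k : ℤ × ℤ, P k.1 → Q k.2 → f (ch k) ∈ S) {x : CT}
    (hx : x ∈ Spec P Q) : f x ∈ S := by
  refine Spec_ind (p := fun x => f x ∈ S) hx h (by simp) ?_ ?_
  · intro a b ha hb; rw [map_add]; exact add_mem ha hb
  · intro c a ha; rw [map_smul]; exact S.smul_mem _ ha

lemma sub_op_mem {a b : ℕ} {μ ν : ℤ → ℂ} {A B : ℝ} (h1 : Mult a μ A) (h2 : Mult b ν B)
    {P Q P' Q' : ℤ → Prop} {g : CT} (hg : g ∈ Spec P Q)
    (h : ∀ k l, P k → Q l → μ k * ν l ≠ 1 → P' k ∧ Q' l) : g - op a b μ ν g ∈ Spec P' Q' := by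
  refine Spec_map (LinearMap.id - opL a b μ ν) _ (fun k k1 k2 => ?_) hg
  simp only [LinearMap.sub_apply, LinearMap.id_apply, opL_apply, op_ch h1 h2]
  by_cases hk : μ k.1 * ν k.2 = 1
  · rw [hk]; simp
  · have := h _ _ k1 k2 hk
    exact sub_mem (ch_mem this.1 this.2) (Submodule.smul_mem _ _ (ch_mem this.1 this.2))

/-- Dirichlet sum -/
def dir (N : ℕ) (y : T) : ℂ := ∑ i ∈ range N, fourier (i : ℤ) y

@[fun_prop] lemma dir_cont (N : ℕ) : Continuous (dir N) := by unfold dir; fun_prop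

lemma dir_geo (N : ℕ) (y : T) : (fourier 1 y - 1) * dir N y = fourier (N : ℤ) y - 1 := by
  induction N with
  | zero => simp [dir]
  | succ N ih =>
    unfold dir at ih ⊢
    rw [Finset.sum_range_succ, mul_add, ih]
    push_cast
    rw [fourier_add]; ring

lemma dir_le (N : ℕ) (y : T) : ‖dir N y‖ ≤ N := by
  unfold dir
  refine (norm_sum_le _ _).trans ?_
  simp [four_norm]

lemma dir_L2 (N : ℕ) : ∫ y, ‖dir N y‖ ^ 2 ∂m1 = N := by
  have := parseval1 ((range N).map Nat.castEmbedding) fun _ => 1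
  simpa [dir] using this

/-- Fejer kernel -/
def fe (a : ℕ) (y : T) : ℝ := ‖dir (2 ^ a) y‖ ^ 2 / 2 ^ a

@[fun_prop] lemma fe_cont (a : ℕ) : Continuous (fe a) := by unfold fe; fun_prop

lemma fe_nonneg (a : ℕ) (y : T) : 0 ≤ fe a y := by unfold fe; positivity

lemma fe_int (a : ℕ) : ∫ y, fe a y ∂m1 = 1 := by
  unfold fe
  rw [integral_div, dir_L2]; push_cast; field_simp

lemma fe_le (a : ℕ) (y : T) : fe a y ≤ 5 * 2 ^ a / br a y := by
  rw [le_div_iff₀ (br_pos a y)]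
  unfold fe br
  have h1 := dir_le (2 ^ a) y
  have h2 : dd y * ‖dir (2 ^ a) y‖ ≤ 2 := by
    unfold dd
    rw [← norm_mul, dir_geo]
    refine (norm_sub_le _ _).trans ?_
    rw [four_norm, norm_one]; norm_num
  push_cast at h1
  have e4 : (4:ℝ) ^ a = (2 ^ a) ^ 2 := by rw [← pow_mul, mul_comm a 2, pow_mul]; norm_num
  have h3 := pow_le_pow_left₀ (norm_nonneg _) h1 2
  have h4 := pow_le_pow_left₀ (mul_nonneg (dd_nonneg y) (norm_nonneg _)) h2 2
  rw [e4, div_mul_eq_mul_div, div_le_iff₀ (by positivity)]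
  have h5 := mul_le_mul_of_nonneg_left h4 (show (0:ℝ) ≤ (2 ^ a) ^ 2 by positivity)
  nlinarith

def dir2 (a b : ℕ) : CT := ∑ k ∈ range (2 ^ a) ×ˢ range (2 ^ b), ch ((k.1 : ℤ), (k.2 : ℤ))

lemma dir2_apply (a b : ℕ) (y : TT) : dir2 a b y = dir (2 ^ a) y.1 * dir (2 ^ b) y.2 := by
  unfold dir2 dir
  rw [Finset.sum_mul_sum, Finset.sum_product]
  simp only [ContinuousMap.coe_sum, Finset.sum_apply, ch_apply]

def fe2 (a b : ℕ) : CT := ((2:ℂ) ^ a * 2 ^ b)⁻¹ • (dir2 a b * star (dir2 a b))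

lemma fe2_apply (a b : ℕ) (y : TT) : fe2 a b y = ((fe a y.1 * fe b y.2 : ℝ) : ℂ) := by
  unfold fe2 fe
  simp only [ContinuousMap.smul_apply, ContinuousMap.mul_apply, ContinuousMap.star_apply,
    dir2_apply, smul_eq_mul, RCLike.star_def]
  rw [Complex.mul_conj, Complex.normSq_eq_norm_sq, norm_mul]
  push_cast; field_simp

lemma fe2_mem (a b : ℕ) :
    fe2 a b ∈ Spec (fun k => |(k:ℝ)| < 2 ^ a) (fun k => |(k:ℝ)| < 2 ^ b) := by
  have h : dir2 a b ∈ Spec (fun k => 0 ≤ (k:ℝ) ∧ (k:ℝ) < 2 ^ a) (fun k => 0 ≤ (k:ℝ) ∧ (k:ℝ) < 2 ^ b) := by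
    refine Submodule.sum_mem _ fun k hk => ch_mem ?_ ?_
    · have := Finset.mem_range.mp (Finset.mem_product.mp hk).1
      exact ⟨by simp, by simp only [Int.cast_natCast]; exact_mod_cast this⟩
    · have := Finset.mem_range.mp (Finset.mem_product.mp hk).2
      exact ⟨by simp, by simp only [Int.cast_natCast]; exact_mod_cast this⟩
  have h' := Spec_star (P' := fun k => 0 ≤ -(k:ℝ) ∧ -(k:ℝ) < 2 ^ a)
    (Q' := fun k => 0 ≤ -(k:ℝ) ∧ -(k:ℝ) < 2 ^ b) h (by simp) (by simp)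
  refine Submodule.smul_mem _ _ (Spec_mul h h' ?_ ?_)
  · intro k l hk hl; push_cast; rw [abs_lt]; constructor <;> linarith [hk.1, hk.2, hl.1, hl.2]
  · intro k l hk hl; push_cast; rw [abs_lt]; constructor <;> linarith [hk.1, hk.2, hl.1, hl.2]

def C1 : ℝ := 50 * CJ ^ 2

lemma one_le_C1 : 1 ≤ C1 := by unfold C1; have := one_le_CJ; nlinarith
lemma C1_pos : 0 < C1 := lt_of_lt_of_le one_pos one_le_C1

lemma one_le_rtY (a b : ℕ) (y : TT) : 1 ≤ rt (YY a b y ^ 2) :=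
  le_rt_of_pow_le zero_le_one (by rw [one_pow]; exact one_le_pow₀ (one_le_YY a b y))

lemma rtY_cont (a b : ℕ) : Continuous fun y => rt (YY a b y ^ 2) := rt_cont (by fun_prop)

lemma fe_wint (a b : ℕ) : ∫ y, fe a y.1 * fe b y.2 * rt (YY a b y ^ 2) ∂m2 ≤ C1 := by
  have h : ∀ y : TT, fe a y.1 * fe b y.2 * rt (YY a b y ^ 2)
      ≤ 50 * (2 ^ a * 2 ^ b * (jj a y.1 * jj b y.2)) := by
    intro y
    have p1 := br_pos a y.1
    have p2 := br_pos b y.2
    have a1 := mul_le_mul (fe_le a y.1) (fe_le b y.2) (fe_nonneg _ _) (by positivity)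
    have a2 : rt (YY a b y ^ 2) ≤ rt (YY a b y ^ 2) ^ 2 := by
      have := one_le_rtY a b y; nlinarith
    have a3 := mul_le_mul a1 a2 (rt_nonneg (sq_nonneg _)) (by positivity)
    have a4 := mul_le_mul_of_nonneg_left (rtY_sq a b y)
      (show (0:ℝ) ≤ 25 * (2 ^ a * 2 ^ b) by positivity)
    refine a3.trans (le_trans (le_of_eq ?_) (a4.trans (le_of_eq (by ring))))
    field_simp; ring
  have hc := rtY_cont a b
  refine (integral_mono (cint (by fun_prop)) (cint (by fun_prop)) h).trans ?_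
  rw [integral_const_mul]
  unfold C1
  linarith [int_jj2 a b]

lemma fejer {a b : ℕ} {q : TT → ℝ} (hq : ∀ x, 0 ≤ q x) (hc : Continuous q) (hm : Mod a b q) :
    ∃ F ∈ Spec (fun k => |(k:ℝ)| < 2 ^ a) (fun k => |(k:ℝ)| < 2 ^ b),
      ∀ x, rt (q x) / C1 ≤ (F x).re ∧ ‖F x‖ ≤ C1 * rt (q x) := by
  have hr : Continuous fun x => rt (q x) := rt_cont hc
  obtain ⟨F, hF, e⟩ := conv_spec (fe2_mem a b) ⟨fun x => (rt (q x) : ℂ), by fun_prop⟩
  refine ⟨F, hF, fun x => ?_⟩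
  have e' : F x = ((∫ y, fe a y.1 * fe b y.2 * rt (q (x - y)) ∂m2 : ℝ) : ℂ) := by
    rw [e, ← integral_complex_ofReal]
    congr 1; ext y
    rw [fe2_apply]; simp
  have hY := rtY_cont a b
  have hrx := rt_nonneg (hq x)
  have hr2 : Continuous fun y => rt (q (x - y)) := rt_cont (by fun_prop)
  have up : ∀ y, rt (q (x - y)) ≤ rt (YY a b y ^ 2) * rt (q x) := fun y => by
    rw [← rt_mul (sq_nonneg _) (hq x)]; exact rt_mono (hq _) (hm x y)
  have lo : ∀ y, rt (q x) ≤ rt (YY a b y ^ 2) * rt (q (x - y)) := fun y => by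
    rw [← rt_mul (sq_nonneg _) (hq _)]
    have := hm (x - y) (-y)
    rw [YY_neg, sub_neg_eq_add, sub_add_cancel] at this
    exact rt_mono (hq _) this
  have hC := C1_pos
  have fp : ∀ y : TT, 0 ≤ fe a y.1 * fe b y.2 := fun y => mul_nonneg (fe_nonneg _ _) (fe_nonneg _ _)
  constructor
  · rw [e', Complex.ofReal_re]
    have h1 : ∀ y : TT, (2 / C1 * rt (q x)) * (fe a y.1 * fe b y.2)
        - rt (q x) / C1 ^ 2 * (fe a y.1 * fe b y.2 * rt (YY a b y ^ 2))
        ≤ fe a y.1 * fe b y.2 * rt (q (x - y)) := by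
      intro y
      set u := rt (YY a b y ^ 2)
      have hu : 1 ≤ u := one_le_rtY a b y
      have h2 : 2 / C1 * rt (q x) - rt (q x) / C1 ^ 2 * u ≤ rt (q (x - y)) := by
        have h3 : rt (q x) / u ≤ rt (q (x - y)) := by
          rw [div_le_iff₀ (by linarith)]; linarith [lo y]
        refine le_trans ?_ h3
        have h4 : 2 / C1 - u / C1 ^ 2 ≤ 1 / u := by
          rw [div_sub_div _ _ hC.ne' (by positivity), div_le_div_iff₀ (by positivity) (by linarith)]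
          nlinarith [mul_nonneg hC.le (sq_nonneg (C1 - u))]
        have := mul_le_mul_of_nonneg_left h4 hrx
        calc _ = rt (q x) * (2 / C1 - u / C1 ^ 2) := by ring
          _ ≤ _ := this
          _ = _ := by ring
      have := mul_le_mul_of_nonneg_left h2 (fp y)
      linarith
    refine le_trans ?_ (integral_mono (cint (by fun_prop)) (cint (by fun_prop)) h1)
    rw [integral_sub (cint (by fun_prop)) (cint (by fun_prop)), integral_const_mul,
      integral_const_mul, integral_prod_mul (μ := m1) (ν := m1) (fe a) (fe b), fe_int, fe_int]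
    have := mul_le_mul_of_nonneg_left (fe_wint a b) (show 0 ≤ rt (q x) / C1 ^ 2 by positivity)
    have e2 : rt (q x) / C1 ^ 2 * C1 = rt (q x) / C1 := by field_simp
    have e3 : 2 / C1 * rt (q x) * (1 * 1) = 2 * (rt (q x) / C1) := by ring
    linarith
  · rw [e', Complex.norm_real, Real.norm_eq_abs, abs_of_nonneg
      (integral_nonneg fun y => mul_nonneg (fp y) (rt_nonneg (hq _)))]
    have h1 : ∀ y : TT, fe a y.1 * fe b y.2 * rt (q (x - y))
        ≤ fe a y.1 * fe b y.2 * rt (YY a b y ^ 2) * rt (q x) := fun y => by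
      rw [mul_assoc (fe a y.1 * fe b y.2)]
      exact mul_le_mul_of_nonneg_left (up y) (fp y)
    refine (integral_mono (cint (by fun_prop)) (cint (by fun_prop)) h1).trans ?_
    rw [integral_mul_const]
    exact mul_le_mul_of_nonneg_right (fe_wint a b) hrx

lemma rt_sq_le {t : ℝ} (ht : 0 ≤ t) : rt t ^ 2 ≤ 1 + t := by
  have h0 := rt_nonneg ht
  rcases le_total (rt t) 1 with h | h
  · have := pow_le_one₀ (n := 2) h0 h; linarith
  · have := pow_le_pow_right₀ h (show 2 ≤ 16 by norm_num)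
    rw [pow_rt ht] at this; linarith

variable {m : ℕ} (n : ℕ) (ξ : Fin m → TT)

lemma avg_bound {a b u v : ℕ} {μ ν : ℤ → ℂ} (h1 : Mult a μ 2) (h2 : Mult b ν 2) {g : CT}
    {q : TT → ℝ} (hq0 : ∀ z, 0 ≤ q z)
    (hq : ∀ z, q z ≤ 2 ^ (u + v) * rho n ξ (a + u) (b + v) z / (1 + rho n ξ a b z))
    (hg : ∀ z, ‖g z‖ ≤ C1 * rt (q z)) (x : TT) :
    ‖op a b μ ν g x‖ ≤ 24 * 2 * 2 * (23 * C1 * CJ) := by
  have hC := C1_pos
  have hJ := CJ_pos
  refine master h1 h2 g x (by positivity) ?_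
  have p0 := rho_pos n ξ a b x
  set κ : ℝ := 2 ^ (u + v) / (1 + rho n ξ a b x) with hκ
  have hκ0 : 0 < κ := by positivity
  have hb : ∀ y : TT, 2 ^ a * 2 ^ b * ‖g (x - y)‖ ^ 2 / (br a y.1 * br b y.2)
      ≤ 2 * C1 ^ 2 * (2 ^ a * 2 ^ b * (jj a y.1 * jj b y.2)
        + κ * (2 ^ a * 2 ^ b * (jj a y.1 * jj b y.2) * rho n ξ (a + u) (b + v) (x - y))) := by
    intro y
    set t := κ * rho n ξ (a + u) (b + v) (x - y) with ht
    have p1 := rho_pos n ξ (a + u) (b + v) (x - y)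
    have p2 := rho_pos n ξ a b (x - y)
    have ht0 : 0 ≤ t := by positivity
    have hY := one_le_YY a b y
    have a1 : q (x - y) ≤ YY a b y ^ 2 * t := by
      refine (hq _).trans ?_
      have b1 := rho_mod' n ξ (le_refl a) (le_refl b) x y
      have b2 : 1 + rho n ξ a b x ≤ YY a b y ^ 2 * (1 + rho n ξ a b (x - y)) := by nlinarith
      have e : YY a b y ^ 2 * t
          = YY a b y ^ 2 * (2 ^ (u + v) * rho n ξ (a + u) (b + v) (x - y)) / (1 + rho n ξ a b x) := by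
        rw [ht, hκ]; ring
      rw [e, div_le_div_iff₀ (by linarith) (by linarith)]
      have := mul_le_mul_of_nonneg_left b2
        (show 0 ≤ 2 ^ (u + v) * rho n ξ (a + u) (b + v) (x - y) by positivity)
      linarith
    have a2 : ‖g (x - y)‖ ≤ C1 * (rt (YY a b y ^ 2) * rt t) := by
      refine (hg _).trans (mul_le_mul_of_nonneg_left ?_ hC.le)
      rw [← rt_mul (sq_nonneg _) ht0]; exact rt_mono (hq0 _) a1
    have a3 := pow_le_pow_left₀ (norm_nonneg _) a2 2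
    have a4 := rt_sq_le ht0
    have p3 := br_pos a y.1
    have p4 := br_pos b y.2
    have p5 := jj_pos a y.1
    have p6 := jj_pos b y.2
    calc _ ≤ 2 ^ a * 2 ^ b * (C1 * (rt (YY a b y ^ 2) * rt t)) ^ 2 / (br a y.1 * br b y.2) := by
          gcongr
      _ = 2 ^ a * 2 ^ b * C1 ^ 2 * (rt (YY a b y ^ 2) ^ 2 / (br a y.1 * br b y.2) * rt t ^ 2) := by
          ring
      _ ≤ 2 ^ a * 2 ^ b * C1 ^ 2 * (2 * (jj a y.1 * jj b y.2) * (1 + t)) := by
          refine mul_le_mul_of_nonneg_left ?_ (by positivity)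
          exact mul_le_mul (rtY_sq a b y) a4 (sq_nonneg _) (by positivity)
      _ = _ := by rw [ht]; ring
  have hcont : Continuous fun y : TT => 2 ^ a * 2 ^ b * ‖g (x - y)‖ ^ 2 / (br a y.1 * br b y.2) :=
    Continuous.div (by fun_prop) (by fun_prop) fun y => (mul_pos (br_pos _ _) (br_pos _ _)).ne'
  refine (integral_mono (cint hcont) (cint (by fun_prop)) hb).trans ?_
  rw [integral_const_mul, integral_add (cint (by fun_prop)) (cint (by fun_prop)),
    integral_const_mul κ]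
  have a1 := int_jj2 a b
  have a2 := mul_le_mul_of_nonneg_left (rho_avg n ξ a b u v x) hκ0.le
  have a3 : κ * ((16 * CJ) ^ 2 / 2 ^ (u + v) * rho n ξ a b x) ≤ (16 * CJ) ^ 2 := by
    have : κ * ((16 * CJ) ^ 2 / 2 ^ (u + v) * rho n ξ a b x)
        = (16 * CJ) ^ 2 * (rho n ξ a b x / (1 + rho n ξ a b x)) := by rw [hκ]; field_simp
    rw [this]
    refine mul_le_of_le_one_right (by positivity) ?_
    rw [div_le_one (by linarith)]; linarith
  have a4 := mul_le_mul_of_nonneg_left (add_le_add a1 (a2.trans a3))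
    (show 0 ≤ 2 * C1 ^ 2 by positivity)
  nlinarith [sq_nonneg (C1 * CJ)]

def C2 : ℝ := 24 * 2 * 2 * (23 * C1 * CJ)
def C4 : ℝ := C2 + C2 + C0 * 2 * 2 * C2
def C5 : ℝ := (1 + C0 * 2 * 2) ^ 2 * C1

lemma one_le_C2 : 1 ≤ C2 := by
  unfold C2; have := one_le_C1; have := one_le_CJ; nlinarith
lemma one_le_C4 : 1 ≤ C4 := by
  unfold C4; have := one_le_C2; have := one_le_C0; nlinarith
lemma one_le_C5 : 1 ≤ C5 := by
  unfold C5; have := one_le_C1; have := one_le_C0; nlinarith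

/-- annulus of frequencies -/
def Ann (x y : ℝ) (k : ℤ) : Prop := x < |(k:ℝ)| ∧ |(k:ℝ)| < y

lemma tilt {a b : ℕ} (ha : 1 ≤ a) (hb : 1 ≤ b) (w : ℕ) :
    ∃ U ∈ Spec (Ann (2 ^ a / 2) (2 ^ (a + w))) (Ann (2 ^ b / 2) (2 ^ (b + w))),
      ∀ x, rt (om n ξ (a + w) (b + w) w x) / C1 - C4 ≤ (U x).re ∧
        ‖U x‖ ≤ C5 * rt (pp n ξ a b w x) := by
  obtain ⟨F, hF, hF2⟩ := fejer (fun x => (om_pos n ξ (a + w) (b + w) w x).le)
    (om_cont n ξ _ _ _) (om_mod n ξ (a + w) (b + w) w)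
  have fine : ∀ s : ℕ, Mult s (Vc (2 ^ s)) 2 := fun s => by
    have : (0:ℝ) < 2 ^ s := by positivity
    exact Mult_Vc (by linarith) (by linarith)
  have coarse : ∀ s : ℕ, Mult s (Vc (2 ^ s / 2)) 2 := fun s => by
    have : (0:ℝ) < 2 ^ s := by positivity
    exact Mult_Vc (by linarith) (by linarith)
  have fone : ∀ (s : ℕ) (k : ℤ), |(k:ℝ)| < 2 ^ s → Vc (2 ^ s) k = 1 := fun s k hk => by
    unfold Vc
    rw [VV_one (ww_le_of_abs_le hk.le (one_le_pow₀ (by norm_num)))]; simp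
  have cone : ∀ (s : ℕ) (k : ℤ), 1 ≤ s → Vc (2 ^ s / 2) k ≠ 1 → 2 ^ s / 2 < |(k:ℝ)| := by
    intro s k hs hk
    by_contra hc
    push Not at hc
    apply hk
    have : (2:ℝ) ^ 1 ≤ 2 ^ s := pow_le_pow_right₀ (by norm_num) hs
    unfold Vc
    rw [VV_one (ww_le_of_abs_le hc (by linarith))]; simp
  set R2 := op (a + w) b (Vc (2 ^ (a + w))) (Vc (2 ^ b / 2)) F with hR2
  set R1 := opL a (b + w) (Vc (2 ^ a / 2)) (Vc (2 ^ (b + w))) with hR1
  have m1 : F - R2 ∈ Spec (fun k => |(k:ℝ)| < 2 ^ (a + w)) (Ann (2 ^ b / 2) (2 ^ (b + w))) := by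
    refine sub_op_mem (fine _) (coarse _) hF fun k l hk hl h => ⟨hk, ?_, hl⟩
    rw [fone _ _ hk, one_mul] at h
    exact cone _ _ hb h
  have m2 : (F - R2) - R1 (F - R2)
      ∈ Spec (Ann (2 ^ a / 2) (2 ^ (a + w))) (Ann (2 ^ b / 2) (2 ^ (b + w))) := by
    refine sub_op_mem (coarse _) (fine _) m1 fun k l hk hl h => ⟨⟨?_, hk⟩, hl⟩
    rw [fone _ _ hl.2, mul_one] at h
    exact cone _ _ ha h
  refine ⟨_, m2, fun x => ⟨?_, ?_⟩⟩
  · have b2 : ∀ z, ‖R2 z‖ ≤ C2 := fun z => by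
      refine avg_bound n ξ (u := 0) (v := w) (fine _) (coarse _)
        (fun x => (om_pos n ξ (a + w) (b + w) w x).le) (fun z => ?_) (fun z => (hF2 z).2) z
      simpa using om_le_col n ξ (a + w) (b + w) w z
    have b1 : ‖R1 F x‖ ≤ C2 := by
      refine avg_bound n ξ (u := w) (v := 0) (coarse _) (fine _)
        (fun x => (om_pos n ξ (a + w) (b + w) w x).le) (fun z => ?_) (fun z => (hF2 z).2) x
      simpa using om_le_row n ξ (a + w) (b + w) w z
    have b3 : ‖R1 R2 x‖ ≤ C0 * 2 * 2 * C2 :=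
      master_bdd (coarse _) (fine _) (by linarith [one_le_C2]) b2 x
    rw [map_sub]
    simp only [ContinuousMap.sub_apply, Complex.sub_re]
    have c1 := abs_le.mp ((Complex.abs_re_le_norm _).trans (b2 x))
    have c2 := abs_le.mp ((Complex.abs_re_le_norm _).trans b1)
    have c3 := abs_le.mp ((Complex.abs_re_le_norm _).trans b3)
    have c4 := (hF2 x).1
    unfold C4
    linarith [c1.2, c2.2, c3.1]
  · have hC := C1_pos
    have hC0 := C0_pos
    have pq : ∀ z, 0 ≤ pp n ξ a b w z := fun z => (pp_pos n ξ a b w z).le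
    have b0 : ∀ z, ‖F z‖ ≤ C1 * rt (pp n ξ a b w z) := fun z =>
      (hF2 z).2.trans (mul_le_mul_of_nonneg_left
        (rt_mono (om_pos n ξ _ _ _ _).le (om_le_pp n ξ a b w z)) hC.le)
    have b1 : ∀ z, ‖(F - R2) z‖ ≤ ((1 + C0 * 2 * 2) * C1) * rt (pp n ξ a b w z) := fun z => by
      have := master_mod (fine (a + w)) (coarse b) pq
        ((pp_mod n ξ a b w).mono pq (Nat.le_add_right a w) le_rfl) hC.le b0 z
      rw [ContinuousMap.sub_apply]
      refine (norm_sub_le _ _).trans ?_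
      have := b0 z
      linarith
    have b2 := master_mod (coarse a) (fine (b + w)) pq
        ((pp_mod n ξ a b w).mono pq le_rfl (Nat.le_add_right b w)) (by positivity) b1 x
    rw [ContinuousMap.sub_apply]
    refine (norm_sub_le _ _).trans ?_
    have := b1 x
    unfold C5
    change ‖R1 (F - R2) x‖ ≤ _ at b2
    linarith

end

end Pool.Agent.Lib.MP_21a4ea_an
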