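import Pool.Agent.Lib.MP_21a4ea_an.Kernel
import Pool.Agent.Lib.MP_21a4ea_an.Fib

namespace Pool.Agent.Lib.MP_21a4ea_an

open MeasureTheory Real Finset Filter
open scoped ComplexConjugate Topology

noncomputable section

variable {r : ℝ}

def node (a b μ : ℕ) : ℝ × ℝ := (2 * π * μ / b, 2 * π * μ * a / b)

lemma char_sum {a b : ℕ} (hb : 0 < b) (k : ℤ × ℤ) :
    ∑ μ ∈ range b, ch k (pr (node a b μ)) = if (b:ℤ) ∣ k.1 + a * k.2 then (b:ℂ) else 0 := by
  have hb' : (b:ℂ) ≠ 0 := by exact_mod_cast hb.ne'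
  set c : ℤ := k.1 + a * k.2 with hc
  set ω : ℂ := Complex.exp ((c:ℂ) / b * (2 * π * Complex.I)) with hω
  have e : ∀ μ : ℕ, ch k (pr (node a b μ)) = ω ^ μ := fun μ => by
    rw [ch_apply, pr, node, four_coe, four_coe, ← Complex.exp_add, hω, ← Complex.exp_nat_mul, hc]
    congr 1
    push_cast; ring
  simp only [e]
  split_ifs with h
  · obtain ⟨l, hl⟩ := h
    have : ω = 1 := by
      rw [hω, hl]; push_cast
      rw [mul_div_cancel_left₀ _ hb']
      exact Complex.exp_int_mul_two_pi_mul_I l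
    simp [this]
  · have h1 : ω ≠ 1 := fun h1 => by
      obtain ⟨l, hl⟩ := Complex.exp_eq_one_iff.mp h1
      have := mul_right_cancel₀ Complex.two_pi_I_ne_zero hl
      rw [div_eq_iff hb'] at this
      exact h ⟨l, by exact_mod_cast this.trans (mul_comm _ _)⟩
    have h2 : ω ^ b = 1 := by
      rw [hω, ← Complex.exp_nat_mul, ← mul_assoc, mul_div_cancel₀ _ hb']
      exact Complex.exp_int_mul_two_pi_mul_I c
    rw [geom_sum_eq h1, h2, sub_self, zero_div]

lemma disc_le (hr : 1 < r) (α : ℝ) {a b : ℕ} (hb : 0 < b) {Z : ℝ}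
    (hZ : ∀ s : Finset (ℤ × ℤ), (∀ k ∈ s, k ≠ 0 ∧ (b:ℤ) ∣ k.1 + a * k.2) →
      ∑ k ∈ s, ww k.1 ^ (-r) * ww k.2 ^ (-r) ≤ Z) (y : TT) :
    |∑ μ ∈ range b, 1 / (b:ℝ) * KK r α (pr (node a b μ) - y) - 1| ≤ Z := by
  classical
  have hb' : (b:ℂ) ≠ 0 := by exact_mod_cast hb.ne'
  set θ := α * π / 2 with hθ
  have h1 := (hasSum_sum (s := range b) fun μ _ =>
    (KK_hasSum hr α (pr (node a b μ) - y)).mul_left (1 / (b:ℂ))).sub (hasSum_ite_eq (0 : ℤ × ℤ) (1:ℂ))
  have e : ∀ k : ℤ × ℤ, (∑ μ ∈ range b, 1 / (b:ℂ) *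
      (sym (-r) (-θ) k.1 * sym (-r) (-θ) k.2 * ch k (pr (node a b μ) - y)) - if k = 0 then 1 else 0)
      = if k ≠ 0 ∧ (b:ℤ) ∣ k.1 + a * k.2 then sym (-r) (-θ) k.1 * sym (-r) (-θ) k.2 * ch (-k) y
        else 0 := fun k => by
    have : ∑ μ ∈ range b, 1 / (b:ℂ) *
        (sym (-r) (-θ) k.1 * sym (-r) (-θ) k.2 * ch k (pr (node a b μ) - y))
        = 1 / (b:ℂ) * (sym (-r) (-θ) k.1 * sym (-r) (-θ) k.2 * ch (-k) y)
          * ∑ μ ∈ range b, ch k (pr (node a b μ)) := by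
      rw [Finset.mul_sum]
      exact Finset.sum_congr rfl fun μ _ => by rw [ch_sub_pt]; ring
    rw [this, char_sum hb]
    by_cases h0 : k = 0
    · subst h0; simp [sym_zero, ch_zero, hb']
    · by_cases h : (b:ℤ) ∣ k.1 + a * k.2
      · rw [if_pos h, if_neg h0, if_pos ⟨h0, h⟩]; field_simp; ring
      · rw [if_neg h, if_neg h0, if_neg fun h' => h h'.2]; simp
  rw [funext e] at h1
  have h2 : ‖∑ μ ∈ range b, 1 / (b:ℂ) * (KK r α (pr (node a b μ) - y) : ℂ) - 1‖ ≤ Z := by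
    refine le_of_tendsto' ((continuous_norm.tendsto _).comp h1) fun s => ?_
    refine (norm_sum_le _ _).trans ?_
    refine le_trans (le_of_eq ?_) (hZ (s.filter fun k => k ≠ 0 ∧ (b:ℤ) ∣ k.1 + a * k.2)
      fun k hk => (Finset.mem_filter.mp hk).2)
    rw [Finset.sum_filter]
    refine Finset.sum_congr rfl fun k _ => ?_
    split_ifs
    · rw [norm_mul, norm_mul, sym_norm, sym_norm, ch_norm, mul_one]
    · exact norm_zero
  rw [← Real.norm_eq_abs, ← Complex.norm_real]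
  push_cast
  exact h2

lemma kappa_le {K : Type} [RCLike K] (hr : 1 < r) (α : ℝ) {a b m : ℕ} (hbm : b ≤ m) {Z : ℝ}
    (hZ : ∀ y, |∑ μ ∈ range b, 1 / (b:ℝ) * KK r α (pr (node a b μ) - y) - 1| ≤ Z) :
    kappa K r α m ≤ ENNReal.ofReal Z := by
  have hK := KK_cont hr α
  have Z0 : 0 ≤ Z := (abs_nonneg _).trans (hZ 0)
  unfold kappa
  refine iInf₂_le_of_le (fun μ : Fin m => if μ.val < b then ((1 / (b:ℝ) : ℝ) : K) else 0)
    (fun μ => node a b μ) (iSup₂_le fun f hf => ?_)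
  obtain ⟨g, hg, hg1, rfl⟩ := (mem_W_iff hr α f).mp hf
  rw [← ofReal_norm]
  refine ENNReal.ofReal_le_ofReal ?_
  rw [avg_cv hr α hg]
  have gi : ∀ z : TT, Integrable (fun y => KK r α (z - y) • g y) m2 := fun z => by
    obtain ⟨C, hC⟩ := isCompact_univ.exists_bound_of_continuousOn hK.continuousOn
    exact hg.bdd_smul C (show Continuous fun y => KK r α (z - y) by fun_prop).aestronglyMeasurable
      (Eventually.of_forall fun y => hC _ (Set.mem_univ _))
  have e1 : ∑ μ : Fin m, (if μ.val < b then ((1 / (b:ℝ) : ℝ) : K) else 0)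
      * cv r α g (pr (node a b μ))
      = ∑ μ ∈ range b, (1 / (b:ℝ)) • ∫ y, KK r α (pr (node a b μ) - y) • g y ∂m2 := by
    rw [Fin.sum_univ_eq_sum_range (fun μ => (if μ < b then ((1 / (b:ℝ) : ℝ) : K) else 0)
      * cv r α g (pr (node a b μ)))]
    rw [← Finset.sum_subset (Finset.range_subset_range.mpr hbm) fun μ _ hμ => by
      rw [if_neg (by simpa using hμ), zero_mul]]
    refine Finset.sum_congr rfl fun μ hμ => ?_
    rw [if_pos (Finset.mem_range.mp hμ), RCLike.real_smul_eq_coe_mul]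
    congr 1
    exact convolution_lsmul_swap (f := KK r α) (g := g)
  have e2 : ∑ μ ∈ range b, (1 / (b:ℝ)) • ∫ y, KK r α (pr (node a b μ) - y) • g y ∂m2
      - ∫ z, g z ∂m2
      = ∫ y, (∑ μ ∈ range b, 1 / (b:ℝ) * KK r α (pr (node a b μ) - y) - 1) • g y ∂m2 := by
    simp only [sub_smul, Finset.sum_smul, one_smul, mul_smul]
    have gi' : ∀ μ ∈ range b, Integrable
        (fun y => (1 / (b:ℝ)) • KK r α (pr (node a b μ) - y) • g y) m2 :=
      fun μ _ => (gi _).smul (1 / (b:ℝ))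
    rw [integral_sub (integrable_finsetSum _ gi') hg, integral_finsetSum _ gi']
    simp only [integral_smul]
  rw [e1, e2]
  refine (norm_integral_le_of_norm_le (hg.norm.const_mul Z) (Eventually.of_forall fun y => ?_)).trans ?_
  · rw [norm_smul]
    exact mul_le_mul_of_nonneg_right (hZ y) (norm_nonneg _)
  · rw [integral_const_mul]
    exact mul_le_of_le_one_right Z0 hg1

theorem upper (K : Type) [RCLike K] (hr : 1 < r) (α : ℝ) : ∃ C : ℝ, 0 < C ∧ ∀ m : ℕ, 16 ≤ m →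
    kappa K r α m ≤ ENNReal.ofReal (C * ((m:ℝ) ^ (-r) * Real.log m)) := by
  set q : ℝ := (2:ℝ) ^ (1 - r) with hq
  have q0 : 0 < q := by positivity
  have q1 : q < 1 := Real.rpow_lt_one_of_one_lt_of_neg one_lt_two (by linarith)
  have i0 : 0 < (1 - q)⁻¹ := inv_pos.mpr (by linarith)
  refine ⟨16 * q⁻¹ * (1 - q)⁻¹ * ((2 + (1 - q)⁻¹) * 32 ^ r), by positivity, fun m hm => ?_⟩
  have f1 := Nat.fib_greatestFib_le m
  have f2 := Nat.lt_fib_greatestFib_add_one m
  obtain ⟨j, hj⟩ : ∃ j, Nat.greatestFib m = j + 2 := by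
    refine ⟨Nat.greatestFib m - 2, ?_⟩
    by_contra hc
    have : Nat.greatestFib m + 1 ≤ 2 := by omega
    have := Nat.fib_mono this
    simp at this; omega
  rw [hj] at f1 f2
  have f3 : Nat.fib (j + 2 + 1) = Nat.fib (j + 1) + Nat.fib (j + 2) := Nat.fib_add_two
  have f4 : Nat.fib (j + 1) ≤ Nat.fib (j + 2) := Nat.fib_le_fib_succ
  set a := Nat.fib (j + 1) with ha
  set b := Nat.fib (j + 2) with hb
  set p := Nat.log 2 (b / 8) with hp
  have p1 : 2 ^ p ≤ b / 8 := Nat.pow_log_le_self 2 (by omega)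
  have p2 : b / 8 < 2 ^ (p + 1) := Nat.lt_pow_succ_log_self one_lt_two _
  rw [pow_succ] at p2
  have hZ := fun s hs => lattice_sum hr (a := a) (b := b) (p := p) (by positivity)
    (by exact_mod_cast f4) (cassini j) (by exact_mod_cast (by omega : 8 * 2 ^ p ≤ b)) s hs
  refine (kappa_le hr α f1 (disc_le hr α (by omega) hZ)).trans (ENNReal.ofReal_le_ofReal ?_)
  have m0 : (0:ℝ) < m := by exact_mod_cast (by omega : 0 < m)
  have l2 : 1 / 2 ≤ Real.log 2 := by have := Real.log_two_gt_d9; linarith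
  have a1 : (p:ℝ) ≤ 2 * Real.log m := by
    have b1 : Real.log (2 ^ p) ≤ Real.log m :=
      Real.log_le_log (by positivity) (by exact_mod_cast (by omega : 2 ^ p ≤ m))
    rw [Real.log_pow] at b1
    have : (0:ℝ) ≤ p := Nat.cast_nonneg p
    nlinarith
  have a2 : 1 ≤ Real.log m := by
    have b1 : Real.log (2 ^ 2) ≤ Real.log m :=
      Real.log_le_log (by positivity) (by exact_mod_cast (by omega : 2 ^ 2 ≤ m))
    rw [Real.log_pow] at b1
    push_cast at b1; linarith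
  have a3 : ((2:ℝ) ^ p) ^ (-r) ≤ 32 ^ r * (m:ℝ) ^ (-r) := by
    have := rpow_cmp (y := 2 ^ p) (z := m) (c := 32) (p := -r) (by positivity) m0 (by norm_num)
      (by exact_mod_cast (by omega : 2 ^ p ≤ 32 * m)) (by exact_mod_cast (by omega : m ≤ 32 * 2 ^ p))
    rwa [abs_neg, abs_of_pos (by linarith)] at this
  have a4 : p + (1 - q)⁻¹ ≤ (2 + (1 - q)⁻¹) * Real.log m := by nlinarith
  calc _ ≤ 16 * q⁻¹ * (1 - q)⁻¹ * (((2 + (1 - q)⁻¹) * Real.log m) * (32 ^ r * (m:ℝ) ^ (-r))) := by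
        gcongr
    _ = _ := by ring

end

end Pool.Agent.Lib.MP_21a4ea_an
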